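import Mathlib
import Pool.Agent.Lib.MP_44a246_ntS.SB2c
import Pool.Agent.Lib.MP_44a246_ntL.LPol

/-!
Functionals on forms of a given degree in any number of variables: contraction by monomials and by
linear forms, the functionals which are supported on a line.
-/

namespace Pool.Agent.Lib.MP_44a246_ntF

open Pool.Agent.Lib.MP_44a246_nt
open Pool.Agent.Lib.MP_44a246_ntL
open Pool.Agent.Lib.MP_44a246_ntS
open Pool.Agent.Lib.MP_e52354_nt
open WithZero Module

/-- exponents of degree `d` in `n` variables -/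
abbrev EX (n d : ℕ) : Type := ↥(expo (Fin n) d)

section

variable {n d : ℕ}

/-- multiplication of a monomial by a variable -/
noncomputable def up (j : Fin n) (φ : EX n d) : EX n (d + 1) :=
  ⟨φ.1 + Finsupp.single j 1, by
    rw [mem_expo, map_add, mem_expo.1 φ.2, Finsupp.degree_single]⟩

theorem up_comm (i j : Fin n) (φ : EX n d) : up i (up j φ) = up j (up i φ) := by
  apply Subtype.ext
  simp only [up]
  rw [add_right_comm]

theorem exists_up (I : EX n (d + 1)) : ∃ j, ∃ φ : EX n d, I = up j φ := by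
  have h1 := mem_expo.1 I.2
  have h2 : I.1 ≠ 0 := by
    intro h0
    rw [h0, map_zero] at h1
    exact absurd h1 (Nat.succ_ne_zero d).symm
  obtain ⟨j, hj⟩ := Finsupp.support_nonempty_iff.2 h2
  rw [Finsupp.mem_support_iff] at hj
  have h3 : I.1 - Finsupp.single j 1 + Finsupp.single j 1 = I.1 := sub_add_single hj
  refine ⟨j, ⟨I.1 - Finsupp.single j 1, ?_⟩, ?_⟩
  · rw [mem_expo]
    have h4 := congrArg Finsupp.degree h3
    rw [map_add, Finsupp.degree_single, h1] at h4
    omega
  · apply Subtype.ext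
    exact h3.symm

theorem exo_zero (I : EX n 0) : I.1 = 0 := by
  have h1 := mem_expo.1 I.2
  rwa [Finsupp.degree_eq_zero_iff] at h1

instance : Subsingleton (EX n 0) :=
  ⟨fun a b => Subtype.ext ((exo_zero a).trans (exo_zero b).symm)⟩

instance : Nonempty (EX n 0) := ⟨⟨0, by rw [mem_expo, map_zero]⟩⟩

end

section

variable {L : Type*} [Field L] {n d : ℕ}

/-- evaluation at `x`: the vector of all monomials of degree `d` -/
noncomputable def xm (d : ℕ) (x : Fin n → L) : EX n d → L := fun I => mon x I.1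

theorem xm_up (x : Fin n → L) (j : Fin n) (φ : EX n d) :
    xm (d + 1) x (up j φ) = x j * xm d x φ := by
  unfold xm up
  rw [mon_add, mon_single, pow_one, mul_comm]

theorem xm_zero (x : Fin n → L) (I : EX n 0) : xm 0 x I = 1 := by
  unfold xm
  rw [exo_zero, mon_zero]

/-- contraction by a monomial -/
noncomputable def cm (φ : EX n d) : (EX n (d + 1) → L) →ₗ[L] (Fin n → L) :=
  LinearMap.funLeft L L fun j => up j φ

theorem cm_apply (φ : EX n d) (u : EX n (d + 1) → L) (j : Fin n) : cm φ u j = u (up j φ) := rfl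

theorem cm_xm (φ : EX n d) (x : Fin n → L) : cm φ (xm (d + 1) x) = xm d x φ • x := by
  funext j
  rw [cm_apply, xm_up, Pi.smul_apply, smul_eq_mul, mul_comm]

/-- the functionals on forms of degree `d` which are supported on the linear space `E` -/
noncomputable def Sd (E : Submodule L (Fin n → L)) : (d : ℕ) → Submodule L (EX n d → L)
  | 0 => ⊤
  | (_ + 1) => ⨅ φ, E.comap (cm φ)

theorem mem_Sd {E : Submodule L (Fin n → L)} {u : EX n (d + 1) → L} :
    u ∈ Sd E (d + 1) ↔ ∀ φ : EX n d, cm φ u ∈ E := by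
  unfold Sd
  rw [Submodule.mem_iInf]
  rfl

theorem xm_mem_Sd {E : Submodule L (Fin n → L)} {x : Fin n → L} (hx : x ∈ E) :
    xm d x ∈ Sd E d := by
  rcases d with _ | d
  · exact Submodule.mem_top
  · rw [mem_Sd]
    intro φ
    rw [cm_xm]
    exact E.smul_mem _ hx

/-- contraction by the linear form with the coefficients `H` -/
noncomputable def ch (H : Fin n → L) : (EX n (d + 1) → L) →ₗ[L] (EX n d → L) where
  toFun u φ := ∑ j, H j * cm φ u j
  map_add' u u' := by
    funext φ
    simp only [map_add, Pi.add_apply, mul_add, Finset.sum_add_distrib]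
  map_smul' c u := by
    funext φ
    simp only [map_smul, Pi.smul_apply, smul_eq_mul, RingHom.id_apply, Finset.mul_sum]
    exact Finset.sum_congr rfl fun j _ => by ring

theorem ch_apply (H : Fin n → L) (u : EX n (d + 1) → L) (φ : EX n d) :
    ch H u φ = ∑ j, H j * cm φ u j := rfl

theorem ch_xm (H x : Fin n → L) : ch H (xm (d + 1) x) = (∑ j, H j * x j) • xm d x := by
  funext φ
  rw [ch_apply, cm_xm, Pi.smul_apply, smul_eq_mul, Finset.sum_mul]
  refine Finset.sum_congr rfl fun j _ => ?_
  rw [Pi.smul_apply, smul_eq_mul]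
  ring

/-- contractions commute -/
theorem cm_ch (H : Fin n → L) (φ : EX n d) (u : EX n (d + 1 + 1) → L) :
    cm φ (ch H u) = ∑ j, H j • cm (up j φ) u := by
  funext i
  rw [cm_apply, ch_apply, Finset.sum_apply]
  refine Finset.sum_congr rfl fun j _ => ?_
  rw [Pi.smul_apply, smul_eq_mul, cm_apply, cm_apply, up_comm]

theorem ch_mem_Sd {E : Submodule L (Fin n → L)} {u : EX n (d + 1) → L} (hu : u ∈ Sd E (d + 1))
    (H : Fin n → L) : ch H u ∈ Sd E d := by
  rcases d with _ | d
  · exact Submodule.mem_top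
  · rw [mem_Sd]
    intro φ
    rw [cm_ch]
    exact E.sum_mem fun j _ => E.smul_mem _ (mem_Sd.1 hu _)

theorem xm_ne_zero {x : Fin n → L} (hx : x ≠ 0) : xm d x ≠ 0 := by
  induction d with
  | zero =>
    intro h
    obtain ⟨I⟩ := (inferInstance : Nonempty (EX n 0))
    have h1 := congrFun h I
    rw [xm_zero, Pi.zero_apply] at h1
    exact one_ne_zero h1
  | succ d ih =>
    intro h
    obtain ⟨j, hj⟩ := Function.ne_iff.1 hx
    obtain ⟨φ, hφ⟩ := Function.ne_iff.1 ih
    have h1 := congrFun h (up j φ)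
    rw [xm_up] at h1
    exact mul_ne_zero hj hφ h1

theorem vmax_xm (v : Valuation L ℤᵐ⁰) (d : ℕ) {x : Fin n → L} (hx : x ≠ 0) :
    vmax v (xm d x) = vmax v x ^ d := by
  induction d with
  | zero =>
    obtain ⟨I⟩ := (inferInstance : Nonempty (EX n 0))
    rw [pow_zero]
    refine le_antisymm (vmax_le v fun J => ?_) ?_
    · rw [xm_zero, map_one]
    · have h1 := le_vmax v (xm 0 x) I
      rwa [xm_zero, map_one] at h1
  | succ d ih =>
    rw [pow_succ', ← ih]
    refine le_antisymm (vmax_le v fun J => ?_) ?_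
    · obtain ⟨j, φ, rfl⟩ := exists_up J
      rw [xm_up, map_mul]
      exact mul_le_mul' (le_vmax v x j) (le_vmax v _ φ)
    · obtain ⟨j, -, hj, -⟩ := exists_vmax v hx
      obtain ⟨φ, -, hφ, -⟩ := exists_vmax v (xm_ne_zero (d := d) hx)
      rw [hj, hφ, ← map_mul, ← xm_up]
      exact le_vmax v _ _

end

section

variable {κ L : Type*} [Field κ] [IsAlgClosed κ] [CharZero κ] [Field L] [Algebra κ L] {n d : ℕ}

theorem height_xm (h : IsFF κ L) (d : ℕ) {x : Fin n → L} (hx : x ≠ 0) :
    height κ (xm d x) = d * height κ x := by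
  unfold height
  rw [mul_finsum]
  refine finsum_congr fun w => ?_
  rw [vmax_xm w.1 d hx, log_pow, nsmul_eq_mul]

/-- the matrix of a contraction by a monomial -/
noncomputable def Mcm (κ : Type*) [Field κ] (φ : EX n d) : Matrix (Fin n) (EX n (d + 1)) κ :=
  Matrix.of fun j I => if I = up j φ then 1 else 0

/-- the matrix of a contraction by a linear form -/
noncomputable def Mch (H : Fin n → κ) : Matrix (EX n d) (EX n (d + 1)) κ :=
  Matrix.of fun φ I => ∑ j, if I = up j φ then H j else 0

omit [IsAlgClosed κ] [CharZero κ] in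
theorem Mcm_eq (φ : EX n d) : ((Mcm κ φ).map (algebraMap κ L)).mulVecLin = cm φ := by
  refine LinearMap.ext fun u => ?_
  funext j
  rw [Matrix.mulVecLin_apply, cm_apply]
  unfold Matrix.mulVec dotProduct
  rw [Finset.sum_eq_single (up j φ)]
  · simp [Mcm]
  · intro I _ hI
    simp [Mcm, hI]
  · intro hI
    exact absurd (Finset.mem_univ _) hI

omit [IsAlgClosed κ] [CharZero κ] in
theorem Mch_eq (H : Fin n → κ) : ((Mch (d := d) H).map (algebraMap κ L)).mulVecLin =
    ch fun j => algebraMap κ L (H j) := by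
  refine LinearMap.ext fun u => ?_
  funext φ
  rw [Matrix.mulVecLin_apply, ch_apply]
  unfold Matrix.mulVec dotProduct
  have h1 : ∀ I : EX n (d + 1), ((Mch (d := d) H).map (algebraMap κ L)) φ I * u I =
      ∑ j, if I = up j φ then algebraMap κ L (H j) * u I else 0 := by
    intro I
    simp only [Mch, Matrix.map_apply, Matrix.of_apply, map_sum, Finset.sum_mul]
    refine Finset.sum_congr rfl fun j _ => ?_
    split_ifs <;> simp
  rw [Finset.sum_congr rfl fun I _ => h1 I, Finset.sum_comm]
  refine Finset.sum_congr rfl fun j _ => ?_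
  rw [Finset.sum_eq_single (up j φ)]
  · rw [if_pos rfl, cm_apply]
  · intro I _ hI
    rw [if_neg hI]
  · intro hI
    exact absurd (Finset.mem_univ _) hI

/-- **The basic inequality** for a constant matrix. -/
theorem ht_contr (h : IsFF κ L) {ι ι' : Type*} [Fintype ι] [Fintype ι'] (T : Matrix ι' ι κ)
    {f : (ι → L) →ₗ[L] (ι' → L)} (hf : (T.map (algebraMap κ L)).mulVecLin = f)
    (V : Submodule L (ι → L)) (E : Submodule L (ι' → L)) :
    ht κ (E ⊔ V.map f) + ht κ (V ⊓ E.comap f) ≤ ht κ V + ht κ E := by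
  subst hf
  refine ht_map_const h T inf_le_left ?_ ?_
  · rintro _ ⟨u, hu, rfl⟩
    exact hu.2
  · intro b hb hb'
    exact ⟨hb, hb'⟩

omit [IsAlgClosed κ] [CharZero κ] [Field κ] [Algebra κ L] in
theorem rank_contr {ι ι' : Type*} [Fintype ι] [Fintype ι'] (f : (ι → L) →ₗ[L] (ι' → L))
    (V : Submodule L (ι → L)) (E : Submodule L (ι' → L)) :
    finrank L (E ⊔ V.map f : Submodule L (ι' → L)) +
      finrank L (V ⊓ E.comap f : Submodule L (ι → L)) = finrank L E + finrank L V := by
  refine finrank_sup_map inf_le_left f ?_ ?_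
  · rintro _ ⟨u, hu, rfl⟩
    exact hu.2
  · intro b hb hb'
    exact ⟨hb, hb'⟩

end

end Pool.Agent.Lib.MP_44a246_ntF
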