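import Mathlib
import Pool.Agent.Lib.MP_44a246_ntF.F01

/-!
A line of small height through a point, from a space of small height which contains the vector of
the monomials; the part of a space which is supported on a line.
-/

namespace Pool.Agent.Lib.MP_44a246_ntF

open Pool.Agent.Lib.MP_44a246_nt
open Pool.Agent.Lib.MP_44a246_ntL
open Pool.Agent.Lib.MP_44a246_ntS
open Pool.Agent.Lib.MP_e52354_nt
open WithZero Module

section

variable {L : Type*} [Field L] {n d : ℕ}

/-- a functional all of whose contractions are multiples of `x` is a multiple of the vector of the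
monomials -/
theorem mem_span_xm {x : Fin n → L} (hx : x ≠ 0) : ∀ {d : ℕ} {u : EX n (d + 1) → L},
    (∀ φ : EX n d, cm φ u ∈ Submodule.span L {x}) → u ∈ Submodule.span L {xm (d + 1) x} := by
  intro d u hu
  obtain ⟨k, hk⟩ := Function.ne_iff.1 hx
  rw [Pi.zero_apply] at hk
  -- `u (up j φ) = x j * b φ`
  choose b hb using fun φ => Submodule.mem_span_singleton.1 (hu φ)
  have hb' : ∀ j φ, u (up j φ) = b φ * x j := by
    intro j φ
    have := congrFun (hb φ) j
    rw [Pi.smul_apply, smul_eq_mul] at this
    rw [this, cm_apply]
  have key : ∀ d (b : EX n d → L), (∀ (j : Fin n) (φ : EX n d) (j' : Fin n) (φ' : EX n d),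
      up j φ = up j' φ' → b φ * x j = b φ' * x j') → ∃ c, ∀ φ, b φ = c * xm d x φ := by
    intro d
    induction d with
    | zero =>
      intro b _
      obtain ⟨I⟩ := (inferInstance : Nonempty (EX n 0))
      refine ⟨b I, fun φ => ?_⟩
      rw [xm_zero, mul_one, Subsingleton.elim φ I]
    | succ d ih =>
      intro b hb
      have h1 : ∀ (j : Fin n) (ψ : EX n d), b (up j ψ) = b (up k ψ) / x k * x j := by
        intro j ψ
        have h2 := hb k (up j ψ) j (up k ψ) (up_comm k j ψ)
        field_simp
        exact h2
      obtain ⟨c, hc⟩ := ih (fun ψ => b (up k ψ) / x k) (by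
        intro j φ j' φ' hφ
        rw [← h1, ← h1, hφ])
      refine ⟨c, fun φ => ?_⟩
      obtain ⟨j, ψ, rfl⟩ := exists_up φ
      rw [h1, hc, xm_up]
      ring
  obtain ⟨c, hc⟩ := key d b (fun j φ j' φ' hφ => by rw [← hb', ← hb', hφ])
  rw [Submodule.mem_span_singleton]
  refine ⟨c, ?_⟩
  funext I
  obtain ⟨j, φ, rfl⟩ := exists_up I
  rw [Pi.smul_apply, smul_eq_mul, xm_up, hb', hc]
  ring

end

section

variable {κ L : Type*} [Field κ] [IsAlgClosed κ] [CharZero κ] [Field L] [Algebra κ L] {n d : ℕ}

/-- **A line of small height through the point.** -/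
theorem exists_line (h : IsFF κ L) {x : Fin n → L} (hx : x ≠ 0) {ν : ℤ}
    (hν : height κ x ≤ ν) : ∀ (r : ℕ) (V : Submodule L (EX n (d + 1) → L)),
    finrank L V = r → xm (d + 1) x ∈ V →
    2 * ht κ V + ((r : ℤ) - 1) * ν < 2 * ((d + 1 : ℕ) * height κ x) →
    ∃ E : Submodule L (Fin n → L), x ∈ E ∧ finrank L E = 2 ∧
      2 * ht κ E + ν < 2 * height κ x := by
  intro r
  induction r using Nat.strong_induction_on with
  | _ r ih =>
    intro V hr hxV hV
    have hxm : xm (d + 1) x ≠ 0 := xm_ne_zero hx
    have hh := h.height_nonneg hx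
    by_cases hall : ∀ φ : EX n d, V.map (cm φ) ≤ Submodule.span L {x}
    · -- then `V` is the line spanned by the vector of the monomials
      exfalso
      have h1 : V = Submodule.span L {xm (d + 1) x} := by
        refine le_antisymm (fun u hu => mem_span_xm hx fun φ => hall φ ⟨u, hu, rfl⟩) ?_
        rwa [Submodule.span_singleton_le_iff_mem]
      have h2 : r = 1 := by
        rw [← hr, h1]
        exact finrank_span_singleton hxm
      rw [h1, ht_single h hxm, height_xm h (d + 1) hx, h2] at hV
      simp at hV
    · push Not at hall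
      obtain ⟨φ, hφ⟩ := hall
      set F : Submodule L (Fin n → L) := Submodule.span L {x} ⊔ V.map (cm φ) with hF
      set V₁ : Submodule L (EX n (d + 1) → L) := V ⊓ (Submodule.span L {x}).comap (cm φ) with hV₁
      have h1 := ht_contr h (Mcm κ φ) (Mcm_eq φ) V (Submodule.span L {x})
      have h2 := rank_contr (cm φ) V (Submodule.span L {x})
      rw [← hF, ← hV₁, ht_single h hx] at h1
      rw [← hF, ← hV₁, finrank_span_singleton hx, hr] at h2
      have hxF : x ∈ F := Submodule.mem_sup_left (Submodule.mem_span_singleton_self x)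
      have hFr : 2 ≤ finrank L F := by
        have h3 : Submodule.span L {x} < F := by
          refine lt_of_le_of_ne le_sup_left fun h4 => hφ ?_
          rw [h4]
          exact le_sup_right
        have h4 := Submodule.finrank_lt_finrank_of_lt h3
        rw [finrank_span_singleton hx] at h4
        omega
      have hxV₁ : xm (d + 1) x ∈ V₁ := by
        refine ⟨hxV, ?_⟩
        rw [SetLike.mem_coe, Submodule.mem_comap, cm_xm]
        exact Submodule.smul_mem _ _ (Submodule.mem_span_singleton_self x)
      by_cases hc : finrank L F = 2 ∧ 2 * ht κ F + ν < 2 * height κ x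
      · exact ⟨F, hxF, hc.1, hc.2⟩
      · -- the height of `F` is large
        have hFh : 2 * height κ x ≤ 2 * ht κ F + ((finrank L F : ℤ) - 1) * ν := by
          rcases eq_or_ne (finrank L F) 2 with h3 | h3
          · have h4 : ¬ 2 * ht κ F + ν < 2 * height κ x := fun h4 => hc ⟨h3, h4⟩
            rw [h3]
            push_cast
            linarith
          · have h4 : (3 : ℤ) ≤ finrank L F := by
              have : 3 ≤ finrank L F := by omega
              exact_mod_cast this
            have h5 := ht_nonneg h F
            have h6 : 0 ≤ ν := by linarith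
            nlinarith
        have h3 : finrank L V₁ < r := by omega
        refine ih _ h3 V₁ rfl hxV₁ ?_
        have h4 : (finrank L V₁ : ℤ) = 1 + r - finrank L F := by
          have : (finrank L F : ℤ) + finrank L V₁ = 1 + r := by exact_mod_cast h2
          linarith
        rw [h4]
        linarith [mul_comm ((r : ℤ) - 1) ν]

/-- **The part supported on a linear space.** -/
theorem ht_on_le (h : IsFF κ L) (E : Submodule L (Fin n → L)) :
    ∀ (r : ℕ) (V : Submodule L (EX n (d + 1) → L)), finrank L V = r →
    ht κ (V ⊓ Sd E (d + 1)) ≤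
      ht κ V + ((r : ℤ) - finrank L (V ⊓ Sd E (d + 1) : Submodule L (EX n (d + 1) → L))) *
        ht κ E := by
  intro r
  induction r using Nat.strong_induction_on with
  | _ r ih =>
    intro V hr
    have hE := ht_nonneg h E
    by_cases hall : ∀ φ : EX n d, V.map (cm φ) ≤ E
    · have h1 : V ⊓ Sd E (d + 1) = V := by
        rw [inf_eq_left]
        intro u hu
        rw [mem_Sd]
        exact fun φ => hall φ ⟨u, hu, rfl⟩
      rw [h1, hr, sub_self, zero_mul, add_zero]
    · push Not at hall
      obtain ⟨φ, hφ⟩ := hall
      set V₁ : Submodule L (EX n (d + 1) → L) := V ⊓ E.comap (cm φ) with hV₁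
      have h1 := ht_contr h (Mcm κ φ) (Mcm_eq φ) V E
      have h2 := rank_contr (cm φ) V E
      have h3 : finrank L E < finrank L (E ⊔ V.map (cm φ) : Submodule L (Fin n → L)) := by
        refine Submodule.finrank_lt_finrank_of_lt (lt_of_le_of_ne le_sup_left fun h4 => hφ ?_)
        rw [h4]
        exact le_sup_right
      have h4 : finrank L V₁ < r := by
        rw [← hr]
        rw [← hV₁] at h2
        omega
      have h5 : V₁ ⊓ Sd E (d + 1) = V ⊓ Sd E (d + 1) := by
        rw [hV₁, inf_assoc]
        congr 1
        rw [inf_eq_right]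
        intro u hu
        exact mem_Sd.1 hu φ
      have h6 := ih _ h4 V₁ rfl
      rw [h5] at h6
      have h7 := ht_nonneg h (E ⊔ V.map (cm φ))
      rw [← hV₁] at h1
      have h8 : (finrank L V₁ : ℤ) + 1 ≤ r := by exact_mod_cast h4
      nlinarith [mul_le_mul_of_nonneg_right h8 hE]

end

end Pool.Agent.Lib.MP_44a246_ntF
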