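import Mathlib
import Pool.Agent.Lib.MP_44a246_ntF.F02

/-!
Charts of a line, the space of the functionals supported on a line.
-/

namespace Pool.Agent.Lib.MP_44a246_ntF

open Pool.Agent.Lib.MP_44a246_nt
open Pool.Agent.Lib.MP_44a246_ntL
open Pool.Agent.Lib.MP_44a246_ntS
open Pool.Agent.Lib.MP_e52354_nt
open WithZero Module

section

variable {L : Type*} [Field L] {ι : Type*}

/-- `e, f` is the basis of `E` which is dual to the coordinates `k, l` -/
structure Chart (E : Submodule L (ι → L)) (k l : ι) (e f : ι → L) : Prop where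
  ek : e k = 1
  el : e l = 0
  fk : f k = 0
  fl : f l = 1
  eE : e ∈ E
  fE : f ∈ E
  mem : ∀ v ∈ E, v = v k • e + v l • f

theorem Chart.mem_apply {E : Submodule L (ι → L)} {k l : ι} {e f : ι → L} (h : Chart E k l e f)
    {v : ι → L} (hv : v ∈ E) (j : ι) : v j = v k * e j + v l * f j := by
  have h1 := congrFun (h.mem v hv) j
  rwa [Pi.add_apply, Pi.smul_apply, Pi.smul_apply, smul_eq_mul, smul_eq_mul] at h1

theorem Chart.ne {E : Submodule L (ι → L)} {k l : ι} {e f : ι → L} (h : Chart E k l e f) :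
    k ≠ l := by
  intro hkl
  have h1 := h.ek
  rw [hkl, h.el] at h1
  exact zero_ne_one h1

/-- a chart at a coordinate which does not vanish at a given point -/
theorem exists_chart_at [Fintype ι] {E : Submodule L (ι → L)} (hE : finrank L E = 2) {x : ι → L}
    (hx : x ∈ E) {k : ι} (hk : x k ≠ 0) : ∃ l e f, Chart E k l e f := by
  obtain ⟨v, hvE, hv⟩ : ∃ v ∈ E, v ∉ Submodule.span L {x} := by
    by_contra hcon
    push Not at hcon
    have h1 : finrank L E ≤ finrank L (Submodule.span L {x}) := Submodule.finrank_mono hcon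
    have h2 := finrank_span_singleton (K := L) (show x ≠ 0 from fun h0 => hk (by rw [h0]; rfl))
    omega
  set f₀ : ι → L := v - (v k / x k) • x with hf₀
  have hf₀E : f₀ ∈ E := E.sub_mem hvE (E.smul_mem _ hx)
  have hf₀k : f₀ k = 0 := by
    rw [hf₀, Pi.sub_apply, Pi.smul_apply, smul_eq_mul, div_mul_cancel₀ _ hk, sub_self]
  have hf₀0 : f₀ ≠ 0 := by
    intro h0
    apply hv
    rw [Submodule.mem_span_singleton]
    exact ⟨v k / x k, (sub_eq_zero.1 h0).symm⟩
  obtain ⟨l, hl⟩ := Function.ne_iff.1 hf₀0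
  rw [Pi.zero_apply] at hl
  set f : ι → L := (f₀ l)⁻¹ • f₀ with hf
  have hfE : f ∈ E := E.smul_mem _ hf₀E
  have hfk : f k = 0 := by rw [hf, Pi.smul_apply, hf₀k, smul_zero]
  have hfl : f l = 1 := by rw [hf, Pi.smul_apply, smul_eq_mul, inv_mul_cancel₀ hl]
  set e₀ : ι → L := (x k)⁻¹ • x with he₀
  set e : ι → L := e₀ - e₀ l • f with he
  have he₀E : e₀ ∈ E := E.smul_mem _ hx
  have heE : e ∈ E := E.sub_mem he₀E (E.smul_mem _ hfE)
  have hek : e k = 1 := by
    rw [he, Pi.sub_apply, Pi.smul_apply, hfk, smul_zero, sub_zero, he₀, Pi.smul_apply,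
      smul_eq_mul, inv_mul_cancel₀ hk]
  have hel : e l = 0 := by
    rw [he, Pi.sub_apply, Pi.smul_apply, hfl, smul_eq_mul, mul_one, sub_self]
  refine ⟨l, e, f, hek, hel, hfk, hfl, heE, hfE, ?_⟩
  have hli : LinearIndependent L ![e, f] := by
    rw [LinearIndependent.pair_iff]
    intro a b hab
    have h1 := congrFun hab k
    have h2 := congrFun hab l
    simp only [Pi.add_apply, Pi.smul_apply, smul_eq_mul, hek, hel, hfk, hfl, mul_one, mul_zero,
      add_zero, zero_add, Pi.zero_apply] at h1 h2
    exact ⟨h1, h2⟩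
  have hsp : Submodule.span L (Set.range ![e, f]) = E := by
    apply Submodule.eq_of_le_of_finrank_eq
    · rw [Submodule.span_le]
      rintro _ ⟨i, rfl⟩
      fin_cases i
      · exact heE
      · exact hfE
    · rw [finrank_span_eq_card hli, hE, Fintype.card_fin]
  intro w hw
  rw [← hsp, Matrix.range_cons, Matrix.range_cons, Matrix.range_empty, Set.union_empty,
    Set.singleton_union, Submodule.mem_span_pair] at hw
  obtain ⟨a, b, rfl⟩ := hw
  simp only [Pi.add_apply, Pi.smul_apply, smul_eq_mul, hek, hel, hfk, hfl, mul_one, mul_zero,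
    add_zero, zero_add]

/-- a chart of a line -/
theorem exists_chart [Fintype ι] {E : Submodule L (ι → L)} (hE : finrank L E = 2) :
    ∃ k l e f, Chart E k l e f := by
  have h0 : E ≠ ⊥ := by
    intro h0
    rw [h0, finrank_bot] at hE
    omega
  obtain ⟨x, hx, hx0⟩ := Submodule.exists_mem_ne_zero_of_ne_bot h0
  obtain ⟨k, hk⟩ := Function.ne_iff.1 hx0
  obtain ⟨l, e, f, h⟩ := exists_chart_at hE hx hk
  exact ⟨k, l, e, f, h⟩

theorem Chart.finrank_eq [Fintype ι] {E : Submodule L (ι → L)} {k l : ι} {e f : ι → L}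
    (h : Chart E k l e f) : LinearIndependent L ![e, f] ∧
      Submodule.span L (Set.range ![e, f]) = E ∧ finrank L E = 2 := by
  have hli : LinearIndependent L ![e, f] := by
    rw [LinearIndependent.pair_iff]
    intro a b hab
    have h1 := congrFun hab k
    have h2 := congrFun hab l
    simp only [Pi.add_apply, Pi.smul_apply, smul_eq_mul, h.ek, h.el, h.fk, h.fl, mul_one,
      mul_zero, add_zero, zero_add, Pi.zero_apply] at h1 h2
    exact ⟨h1, h2⟩
  have hsp : Submodule.span L (Set.range ![e, f]) = E := by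
    apply le_antisymm
    · rw [Submodule.span_le]
      rintro _ ⟨i, rfl⟩
      fin_cases i
      · exact h.eE
      · exact h.fE
    · intro v hv
      rw [h.mem v hv, Matrix.range_cons, Matrix.range_cons, Matrix.range_empty, Set.union_empty,
        Set.singleton_union, Submodule.mem_span_pair]
      exact ⟨_, _, rfl⟩
  refine ⟨hli, hsp, ?_⟩
  rw [← hsp, finrank_span_eq_card hli, Fintype.card_fin]

end

section

variable {L : Type*} [Field L] {n d : ℕ}

/-- the kernel of the contraction by a linear form, on the functionals supported on a line -/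
theorem mem_of_ch_eq_zero {E : Submodule L (Fin n → L)} {H g : Fin n → L} (hg : g ≠ 0)
    (hH : ∀ v ∈ E, ∑ j, H j * v j = 0 → v ∈ Submodule.span L {g}) {u : EX n (d + 1) → L}
    (hu : u ∈ Sd E (d + 1)) (h0 : ch H u = 0) : u ∈ Submodule.span L {xm (d + 1) g} :=
  mem_span_xm hg fun φ => hH _ (mem_Sd.1 hu φ) (congrFun h0 φ)

variable {E : Submodule L (Fin n → L)} {k l : Fin n} {e f : Fin n → L}

/-- the linear form which vanishes at `e + t f` -/
noncomputable def Ht (k l : Fin n) (t : L) : Fin n → L := Pi.single l 1 - t • Pi.single k 1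

theorem Ht_apply (k l : Fin n) (t : L) (v : Fin n → L) : ∑ j, Ht k l t j * v j = v l - t * v k := by
  unfold Ht
  simp only [Pi.sub_apply, Pi.smul_apply, smul_eq_mul, sub_mul, Finset.sum_sub_distrib,
    Pi.single_apply, ite_mul, one_mul, zero_mul, mul_ite, mul_one, mul_zero]
  simp

theorem Chart.ht_ker (h : Chart E k l e f) (t : L) : ∀ v ∈ E, ∑ j, Ht k l t j * v j = 0 →
    v ∈ Submodule.span L {e + t • f} := by
  intro v hv h0
  rw [Ht_apply, sub_eq_zero] at h0
  rw [Submodule.mem_span_singleton]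
  refine ⟨v k, ?_⟩
  conv_rhs => rw [h.mem v hv, h0]
  rw [smul_add, smul_smul, mul_comm t]

theorem Chart.ft_ne (h : Chart E k l e f) (t : L) : e + t • f ≠ 0 := by
  intro h0
  have h1 := congrFun h0 k
  rw [Pi.add_apply, Pi.smul_apply, h.ek, h.fk, smul_zero, add_zero, Pi.zero_apply] at h1
  exact one_ne_zero h1

theorem Chart.ft_mem (h : Chart E k l e f) (t : L) : e + t • f ∈ E :=
  E.add_mem h.eE (E.smul_mem _ h.fE)

/-- the rank of the space of the functionals supported on a line -/
theorem Chart.finrank_Sd_le (h : Chart E k l e f) (d : ℕ) : finrank L (Sd E d) ≤ d + 1 := by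
  induction d with
  | zero =>
    have h1 : Fintype.card (EX n 0) ≤ 1 := Fintype.card_le_one_iff_subsingleton.2 inferInstance
    have h2 := Submodule.finrank_le (Sd E 0)
    rw [Module.finrank_fintype_fun_eq_card] at h2
    omega
  | succ d ih =>
    have h1 := rank_contr (ch (Ht k l 0)) (Sd E (d + 1)) (⊥ : Submodule L (EX n d → L))
    have h2 : finrank L ((⊥ : Submodule L (EX n d → L)) ⊔ (Sd E (d + 1)).map (ch (Ht k l 0)) :
        Submodule L (EX n d → L)) ≤ d + 1 := by
      refine le_trans (Submodule.finrank_mono ?_) ih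
      rw [bot_sup_eq]
      rintro _ ⟨u, hu, rfl⟩
      exact ch_mem_Sd hu _
    have h3 : finrank L (Sd E (d + 1) ⊓ (⊥ : Submodule L (EX n d → L)).comap (ch (Ht k l 0)) :
        Submodule L (EX n (d + 1) → L)) ≤ 1 := by
      refine le_trans (Submodule.finrank_mono (t := Submodule.span L {xm (d + 1) (e + (0 : L) • f)})
        ?_) (finrank_span_singleton (xm_ne_zero (h.ft_ne 0))).le
      rintro u ⟨hu, hu'⟩
      exact mem_of_ch_eq_zero (h.ft_ne 0) (h.ht_ker 0) hu ((Submodule.mem_bot L).1 hu')
    rw [finrank_bot] at h1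
    omega

/-- the monomial `X k ^ (d - i) * X l ^ i` -/
noncomputable def kl (k l : Fin n) (d : ℕ) (i : Fin (d + 1)) : EX n d :=
  ⟨Finsupp.single k (d - (i : ℕ)) + Finsupp.single l (i : ℕ), by
    rw [mem_expo, map_add, Finsupp.degree_single, Finsupp.degree_single]
    omega⟩

theorem xm_kl (k l : Fin n) (d : ℕ) (i : Fin (d + 1)) (x : Fin n → L) :
    xm d x (kl k l d i) = x l ^ (i : ℕ) * x k ^ (d - (i : ℕ)) := by
  unfold xm kl
  rw [mon_add, mon_single, mon_single, mul_comm]

theorem det_kl (k l : Fin n) (d : ℕ) (e f : Fin n → L) (t : Fin (d + 1) → L) :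
    (Matrix.of fun i j => xm d (e + t i • f) (kl k l d j)).det =
      ∏ i, ∏ j ∈ Finset.Ioi i, ((t j - t i) * (e k * f l - e l * f k)) := by
  have h1 : (Matrix.of fun i j => xm d (e + t i • f) (kl k l d j)) =
      Matrix.projVandermonde (fun i => (e + t i • f) l) (fun i => (e + t i • f) k) := by
    ext i j
    rw [Matrix.of_apply, xm_kl, Matrix.projVandermonde_apply]
    congr 2
    have := j.2
    rw [Fin.val_rev]
    omega
  rw [h1, Matrix.det_projVandermonde]
  refine Finset.prod_congr rfl fun i _ => Finset.prod_congr rfl fun j _ => ?_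
  simp only [Pi.add_apply, Pi.smul_apply, smul_eq_mul]
  ring

theorem Chart.linearIndependent (h : Chart E k l e f) {t : Fin (d + 1) → L}
    (ht : Function.Injective t) : LinearIndependent L fun i => xm d (e + t i • f) := by
  have h1 := det_kl k l d e f t
  have h2 : (Matrix.of fun i j => xm d (e + t i • f) (kl k l d j)).det ≠ 0 := by
    rw [h1, h.ek, h.el, h.fl, Finset.prod_ne_zero_iff]
    intro i _
    rw [Finset.prod_ne_zero_iff]
    intro j hj
    rw [zero_mul, sub_zero, one_mul, mul_one]
    exact sub_ne_zero.2 fun h3 => (Finset.mem_Ioi.1 hj).ne' (ht h3)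
  have h3 := (Matrix.linearIndependent_rows_iff_isUnit.2
    ((Matrix.isUnit_iff_isUnit_det _).2 (isUnit_iff_ne_zero.2 h2)))
  exact LinearIndependent.of_comp (LinearMap.funLeft L L (kl k l d)) h3

theorem Chart.span_eq (h : Chart E k l e f) {t : Fin (d + 1) → L} (ht : Function.Injective t) :
    Submodule.span L (Set.range fun i => xm d (e + t i • f)) = Sd E d := by
  apply Submodule.eq_of_le_of_finrank_le
  · rw [Submodule.span_le]
    rintro _ ⟨i, rfl⟩
    exact xm_mem_Sd (h.ft_mem _)
  · rw [finrank_span_eq_card (h.linearIndependent ht), Fintype.card_fin]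
    exact h.finrank_Sd_le d

theorem Chart.finrank_Sd (h : Chart E k l e f) [Infinite L] (d : ℕ) :
    finrank L (Sd E d) = d + 1 := by
  have ht : Function.Injective fun i : Fin (d + 1) => Infinite.natEmbedding L (i : ℕ) :=
    fun i j hij => Fin.ext ((Infinite.natEmbedding L).injective hij)
  rw [← h.span_eq ht, finrank_span_eq_card (h.linearIndependent ht), Fintype.card_fin]

end

end Pool.Agent.Lib.MP_44a246_ntF
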