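import Mathlib

/-!
Change of charts of the Grassmannian of lines: the matrix of the derivatives of the coordinates of
one chart in terms of the derivatives of the coordinates of another chart.
-/

namespace Pool.Agent.Lib.MP_44a246_ntF

open Matrix

section

variable {R : Type*} [CommRing R] {σ : Type*} [Fintype σ] [DecidableEq σ]

/-- the basis of the line with the coordinates `Q` in the first chart -/
def BB (Q : Fin 2 → σ → R) (a : Fin 2) : Fin 2 ⊕ σ → R :=
  Sum.elim (fun b => if a = b then 1 else 0) (Q a)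

/-- another basis of the line -/
def BP (Q : Fin 2 → σ → R) (g : Matrix (Fin 2) (Fin 2) R) (a : Fin 2) (m : Fin 2 ⊕ σ) : R :=
  ∑ b, g a b * BB Q b m

/-- the submatrix which belongs to the second chart -/
def NN2 (Q : Fin 2 → σ → R) (k : Fin 2 → Fin 2 ⊕ σ) : Matrix (Fin 2) (Fin 2) R :=
  Matrix.of fun a b => BB Q a (k b)

variable {Q : Fin 2 → σ → R} {g : Matrix (Fin 2) (Fin 2) R} {k : Fin 2 → Fin 2 ⊕ σ}

theorem BP_inl (a b : Fin 2) : BP Q g a (Sum.inl b) = g a b := by
  unfold BP BB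
  simp

theorem BP_inr (a : Fin 2) (j : σ) : BP Q g a (Sum.inr j) = ∑ b, g a b * Q b j := rfl

theorem g_mul_NN2 (hk : ∀ a b, BP Q g a (k b) = if a = b then 1 else 0) :
    g * NN2 Q k = 1 := by
  ext a b
  rw [Matrix.mul_apply, Matrix.one_apply, ← hk a b]
  rfl

theorem BB_eq (hk : ∀ a b, BP Q g a (k b) = if a = b then 1 else 0) (a : Fin 2)
    (m : Fin 2 ⊕ σ) : BB Q a m = ∑ b, NN2 Q k a b * BP Q g b m := by
  have h1 : NN2 Q k * g = 1 := mul_eq_one_comm.1 (g_mul_NN2 hk)
  have h2 := congrFun (congrArg (fun M : Matrix (Fin 2) (Fin 2) R => M.mulVec fun b => BB Q b m)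
    h1) a
  simp only [Matrix.one_mulVec] at h2
  rw [← h2, ← Matrix.mulVec_mulVec]
  rfl

/-- the first factor of the matrix of the change of charts -/
def cp (Q : Fin 2 → σ → R) (k : Fin 2 → Fin 2 ⊕ σ) : Matrix (Fin 2 ⊕ σ) (Fin 2 ⊕ σ) R :=
  Matrix.fromBlocks (Matrix.of fun b b' => if k b = Sum.inl b' then 1 else 0)
    (Matrix.of fun b j => if k b = Sum.inr j then 1 else 0) (Matrix.of fun j b => - Q b j) 1

/-- its inverse -/
def cg (Q : Fin 2 → σ → R) (g : Matrix (Fin 2) (Fin 2) R) (k : Fin 2 → Fin 2 ⊕ σ) :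
    Matrix (Fin 2 ⊕ σ) (Fin 2 ⊕ σ) R :=
  Matrix.of fun m => Sum.elim (fun b => BP Q g b m)
    (fun j => (if m = Sum.inr j then 1 else 0) - ∑ b, (if k b = Sum.inr j then BP Q g b m else 0))

theorem det_cp : (cp Q k).det = (NN2 Q k).det := by
  unfold cp
  rw [Matrix.det_fromBlocks_one₂₂, ← Matrix.det_transpose (NN2 Q k)]
  congr 1
  ext b b'
  simp only [Matrix.sub_apply, Matrix.mul_apply, Matrix.of_apply, Matrix.transpose_apply, NN2,
    mul_neg, Finset.sum_neg_distrib, sub_neg_eq_add]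
  rcases hkb : k b with b'' | j
  · simp [BB, eq_comm]
  · simp [BB, eq_comm]

theorem cp_row_inl (b : Fin 2) (y : Fin 2 ⊕ σ → R) :
    ∑ m, cp Q k (Sum.inl b) m * y m = y (k b) := by
  rw [Fintype.sum_sum_type]
  simp only [cp, Matrix.fromBlocks_apply₁₁, Matrix.fromBlocks_apply₁₂, Matrix.of_apply]
  rcases hkb : k b with b'' | j
  · simp
  · simp

theorem cp_row_inr (j : σ) (y : Fin 2 ⊕ σ → R) :
    ∑ m, cp Q k (Sum.inr j) m * y m = y (Sum.inr j) - ∑ b, Q b j * y (Sum.inl b) := by
  rw [Fintype.sum_sum_type]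
  simp only [cp, Matrix.fromBlocks_apply₂₁, Matrix.fromBlocks_apply₂₂, Matrix.of_apply,
    Matrix.one_apply]
  simp only [neg_mul, Finset.sum_neg_distrib, ite_mul, one_mul, zero_mul, Finset.sum_ite_eq,
    Finset.mem_univ, if_true]
  ring

theorem cp_mul_cg (hk : ∀ a b, BP Q g a (k b) = if a = b then 1 else 0) :
    cp Q k * cg Q g k = 1 := by
  ext m m'
  rw [Matrix.mul_apply]
  rcases m with b | j
  · rw [cp_row_inl b (fun m => cg Q g k m m')]
    rcases m' with b' | j'
    · simp only [cg, Matrix.of_apply, Sum.elim_inl]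
      rw [hk b' b, Matrix.one_apply]
      by_cases hbb : b' = b
      · rw [if_pos hbb, if_pos (by rw [hbb])]
      · rw [if_neg hbb, if_neg (fun h => hbb (Sum.inl.inj h).symm)]
    · simp only [cg, Matrix.of_apply, Sum.elim_inr]
      rw [Matrix.one_apply, if_neg (show (Sum.inl b : Fin 2 ⊕ σ) ≠ Sum.inr j' by simp)]
      simp only [hk]
      have h1 : ∑ b' : Fin 2, (if k b' = Sum.inr j' then (if b' = b then (1 : R) else 0) else 0) =
          if k b = Sum.inr j' then 1 else 0 := by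
        rw [Finset.sum_eq_single b]
        · simp
        · intro b' _ hb'
          simp [hb']
        · intro h
          exact absurd (Finset.mem_univ _) h
      rw [h1, sub_self]
  · rw [cp_row_inr j (fun m => cg Q g k m m')]
    rcases m' with b' | j'
    · simp only [cg, Matrix.of_apply, Sum.elim_inl]
      rw [Matrix.one_apply, if_neg (show (Sum.inr j : Fin 2 ⊕ σ) ≠ Sum.inl b' by simp)]
      simp only [BP_inl, BP_inr]
      rw [sub_eq_zero]
      exact Finset.sum_congr rfl fun b _ => mul_comm _ _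
    · simp only [cg, Matrix.of_apply, Sum.elim_inr]
      rw [Matrix.one_apply]
      simp only [BP_inl, BP_inr, Sum.inr.injEq, reduceCtorEq, if_false, zero_sub, mul_neg,
        Finset.sum_neg_distrib, sub_neg_eq_add, Finset.mul_sum, mul_ite, mul_zero]
      rw [Finset.sum_comm, sub_add, ← Finset.sum_sub_distrib]
      rw [Finset.sum_eq_zero, sub_zero]
      intro b _
      split_ifs
      · rw [sub_eq_zero]
        exact Finset.sum_congr rfl fun b _ => mul_comm _ _
      · simp

/-- the matrix of the change of charts -/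
def AA (Q : Fin 2 → σ → R) (k : Fin 2 → Fin 2 ⊕ σ) :
    Matrix (Fin 2 × (Fin 2 ⊕ σ)) (Fin 2 × (Fin 2 ⊕ σ)) R :=
  Matrix.blockDiagonal (fun m : Fin 2 ⊕ σ => Sum.elim (fun _ => 1) (fun _ => NN2 Q k) m) *
    Matrix.kroneckerMap (· * ·) (1 : Matrix (Fin 2) (Fin 2) R) (cp Q k)

/-- the inverse of the matrix of the change of charts -/
def GG (Q : Fin 2 → σ → R) (g : Matrix (Fin 2) (Fin 2) R) (k : Fin 2 → Fin 2 ⊕ σ) :
    Matrix (Fin 2 × (Fin 2 ⊕ σ)) (Fin 2 × (Fin 2 ⊕ σ)) R :=
  Matrix.kroneckerMap (· * ·) (1 : Matrix (Fin 2) (Fin 2) R) (cg Q g k) *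
    Matrix.blockDiagonal (fun m : Fin 2 ⊕ σ => Sum.elim (fun _ => 1) (fun _ => g) m)

theorem AA_mul_GG (hk : ∀ a b, BP Q g a (k b) = if a = b then 1 else 0) :
    AA Q k * GG Q g k = 1 := by
  have h1 : NN2 Q k * g = 1 := mul_eq_one_comm.1 (g_mul_NN2 hk)
  have h2 : Matrix.kroneckerMap (· * ·) (1 : Matrix (Fin 2) (Fin 2) R) (cp Q k) *
      Matrix.kroneckerMap (· * ·) (1 : Matrix (Fin 2) (Fin 2) R) (cg Q g k) = 1 := by
    rw [← Matrix.mul_kronecker_mul, cp_mul_cg hk, one_mul, Matrix.one_kronecker_one]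
  unfold AA GG
  rw [Matrix.mul_assoc, ← Matrix.mul_assoc (Matrix.kroneckerMap _ _ (cp Q k)), h2, one_mul,
    ← Matrix.blockDiagonal_mul]
  have h3 : (fun m : Fin 2 ⊕ σ => Sum.elim (fun _ => (1 : Matrix (Fin 2) (Fin 2) R))
      (fun _ => NN2 Q k) m * Sum.elim (fun _ => 1) (fun _ => g) m) = 1 := by
    funext m
    rcases m with b | j
    · simp
    · simp [h1]
  rw [h3]
  exact Matrix.blockDiagonal_one

theorem det_AA : (AA Q k).det = (NN2 Q k).det ^ (Fintype.card σ + 2) := by
  unfold AA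
  rw [Matrix.det_mul, Matrix.det_blockDiagonal, Matrix.det_kronecker, Matrix.det_one, one_pow,
    one_mul, det_cp, Fintype.card_fin, Fintype.prod_sum_type, pow_add]
  simp

theorem AA_apply (y : Fin 2 × (Fin 2 ⊕ σ) → R) (a : Fin 2) (m : Fin 2 ⊕ σ) :
    ∑ p, AA Q k (a, m) p * y p =
      ∑ a', (Sum.elim (fun _ => (1 : Matrix (Fin 2) (Fin 2) R)) (fun _ => NN2 Q k) m) a a' *
        ∑ m', cp Q k m m' * y (a', m') := by
  have h1 : ∑ p, AA Q k (a, m) p * y p = ((AA Q k).mulVec y) (a, m) := rfl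
  rw [h1]
  unfold AA
  rw [← Matrix.mulVec_mulVec]
  have h2 : ∀ z : Fin 2 × (Fin 2 ⊕ σ) → R, (Matrix.blockDiagonal (fun m : Fin 2 ⊕ σ =>
      Sum.elim (fun _ => (1 : Matrix (Fin 2) (Fin 2) R)) (fun _ => NN2 Q k) m)).mulVec z (a, m) =
      ∑ a', (Sum.elim (fun _ => (1 : Matrix (Fin 2) (Fin 2) R)) (fun _ => NN2 Q k) m) a a' *
        z (a', m) := by
    intro z
    change ∑ p : Fin 2 × (Fin 2 ⊕ σ), Matrix.blockDiagonal (fun m : Fin 2 ⊕ σ =>
      Sum.elim (fun _ => (1 : Matrix (Fin 2) (Fin 2) R)) (fun _ => NN2 Q k) m) (a, m) p * z p = _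
    rw [Fintype.sum_prod_type]
    refine Finset.sum_congr rfl fun a' _ => ?_
    rw [Finset.sum_eq_single m]
    · rw [Matrix.blockDiagonal_apply, if_pos rfl]
    · intro m' _ hm'
      rw [Matrix.blockDiagonal_apply, if_neg (fun h => hm' h.symm), zero_mul]
    · intro h
      exact absurd (Finset.mem_univ _) h
  rw [h2]
  refine Finset.sum_congr rfl fun a' _ => ?_
  congr 1
  change ∑ p : Fin 2 × (Fin 2 ⊕ σ), Matrix.kroneckerMap (· * ·) (1 : Matrix (Fin 2) (Fin 2) R)
    (cp Q k) (a', m) p * y p = _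
  rw [Fintype.sum_prod_type, Finset.sum_eq_single a']
  · refine Finset.sum_congr rfl fun m' _ => ?_
    rw [Matrix.kroneckerMap_apply, Matrix.one_apply_eq, one_mul]
  · intro a'' _ ha''
    refine Finset.sum_eq_zero fun m' _ => ?_
    rw [Matrix.kroneckerMap_apply, Matrix.one_apply_ne (Ne.symm ha''), zero_mul, zero_mul]
  · intro h
    exact absurd (Finset.mem_univ _) h

/-- **The change of charts** for the derivatives. -/
theorem der_AA (hk : ∀ a b, BP Q g a (k b) = if a = b then 1 else 0) (D : Derivation ℤ R R)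
    (a : Fin 2) (m : Fin 2 ⊕ σ) :
    D (BB Q a m) = ∑ p, AA Q k (a, m) p * D (BP Q g p.1 p.2) := by
  rw [AA_apply (fun p => D (BP Q g p.1 p.2))]
  rcases m with b | j
  · have h1 : D (BB Q a (Sum.inl b)) = 0 := by
      show D (if a = b then 1 else 0) = 0
      split_ifs
      · exact D.map_one_eq_zero
      · exact map_zero D
    rw [h1]
    symm
    refine Finset.sum_eq_zero fun a' _ => ?_
    rw [cp_row_inl b (fun m' => D (BP Q g a' m')), hk]
    have h2 : D (if a' = b then 1 else 0) = 0 := by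
      split_ifs
      · exact D.map_one_eq_zero
      · exact map_zero D
    rw [h2, mul_zero]
  · simp only [Sum.elim_inr]
    have h1 := BB_eq hk a (Sum.inr j)
    have h2 : ∀ b, 0 = ∑ a', (NN2 Q k a a' * D (g a' b) + g a' b * D (NN2 Q k a a')) := by
      intro b
      have h3 := congrArg D (BB_eq hk a (Sum.inl b))
      have h4 : D (BB Q a (Sum.inl b)) = 0 := by
        show D (if a = b then 1 else 0) = 0
        split_ifs
        · exact D.map_one_eq_zero
        · exact map_zero D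
      rw [h4, map_sum] at h3
      rw [h3]
      refine Finset.sum_congr rfl fun a' _ => ?_
      rw [Derivation.leibniz, smul_eq_mul, smul_eq_mul, BP_inl]
    rw [h1, map_sum]
    have h5 : ∑ a', NN2 Q k a a' * ∑ m', cp Q k (Sum.inr j) m' * D (BP Q g a' m') =
        ∑ a', NN2 Q k a a' * D (BP Q g a' (Sum.inr j)) -
          ∑ b, Q b j * ∑ a', NN2 Q k a a' * D (g a' b) := by
      have h6 : ∀ a', NN2 Q k a a' * ∑ m', cp Q k (Sum.inr j) m' * D (BP Q g a' m') =
          NN2 Q k a a' * D (BP Q g a' (Sum.inr j)) -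
            ∑ b, Q b j * (NN2 Q k a a' * D (g a' b)) := by
        intro a'
        rw [cp_row_inr j (fun m' => D (BP Q g a' m')), mul_sub, Finset.mul_sum]
        congr 1
        refine Finset.sum_congr rfl fun b _ => ?_
        rw [BP_inl]
        ring
      rw [Finset.sum_congr rfl fun a' _ => h6 a', Finset.sum_sub_distrib, Finset.sum_comm]
      congr 1
      exact Finset.sum_congr rfl fun b _ => (Finset.mul_sum _ _ _).symm
    rw [h5]
    have h7 : ∑ b, Q b j * ∑ a', NN2 Q k a a' * D (g a' b) =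
        - ∑ a', BP Q g a' (Sum.inr j) * D (NN2 Q k a a') := by
      have h8 : ∀ b, Q b j * ∑ a', NN2 Q k a a' * D (g a' b) =
          - ∑ a', g a' b * Q b j * D (NN2 Q k a a') := by
        intro b
        have h9 := h2 b
        rw [Finset.sum_add_distrib] at h9
        have h10 : ∑ a', NN2 Q k a a' * D (g a' b) = - ∑ a', g a' b * D (NN2 Q k a a') :=
          eq_neg_of_add_eq_zero_left h9.symm
        rw [h10, mul_neg, Finset.mul_sum]
        congr 1
        refine Finset.sum_congr rfl fun a' _ => ?_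
        ring
      rw [Finset.sum_congr rfl fun b _ => h8 b, Finset.sum_neg_distrib, Finset.sum_comm]
      congr 1
      refine Finset.sum_congr rfl fun a' _ => ?_
      rw [BP_inr, Finset.sum_mul]
    rw [h7, sub_neg_eq_add, ← Finset.sum_add_distrib]
    refine Finset.sum_congr rfl fun a' _ => ?_
    rw [Derivation.leibniz, smul_eq_mul, smul_eq_mul]

end

end Pool.Agent.Lib.MP_44a246_ntF
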