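import Mathlib
import Pool.Agent.Lib.MP_44a246_ntF.F05
import Pool.Agent.Lib.MP_44a246_ntS.SA3c
import Pool.Agent.Lib.MP_44a246_ntS.SB1b
import Pool.Agent.Lib.MP_44a246_ntX.X0

/-!
The local bound for the minors of the rows of the coordinates of a line in a chart.
-/

namespace Pool.Agent.Lib.MP_44a246_ntF

open Pool.Agent.Lib.MP_44a246_nt
open Pool.Agent.Lib.MP_44a246_ntL
open Pool.Agent.Lib.MP_44a246_ntS
open Pool.Agent.Lib.MP_44a246_ntX
open Pool.Agent.Lib.MP_e52354_nt
open WithZero Module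

section

variable {L : Type*} [Field L] (v : Valuation L ℤᵐ⁰)

/-- the minors of a part of the rows of a product -/
theorem pl_sub_le {m E ρ : Type*} [Fintype m] [DecidableEq m] [Fintype E] [Fintype ρ]
    [DecidableEq ρ] {A G : Matrix m m L} (hAG : A * G = 1) (hG : ∀ i j, v (G i j) ≤ 1)
    {Y : m → E → L} {c : ℤᵐ⁰}
    (hY : ∀ (t : ρ → m) (K : ρ → E), v (Matrix.of fun i j => Y (t i) (K j)).det ≤ c)
    (s : ρ → m) : pl v (fun i K => ∑ j, A (s i) j * Y j K) ≤ v A.det * c := by
  classical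
  unfold pl
  refine vmax_le v fun K => ?_
  set M : Matrix ρ ρ L := Matrix.of fun i j => ∑ l, A (s i) l * Y l (K j) with hM
  change v M.det ≤ _
  by_cases hs : Function.Injective s
  swap
  · obtain ⟨i, j, hij, hne⟩ : ∃ i j, s i = s j ∧ i ≠ j := by
      unfold Function.Injective at hs
      push Not at hs
      exact hs
    have h1 : M.det = 0 := by
      refine Matrix.det_zero_of_row_eq hne ?_
      funext l
      simp only [hM, Matrix.of_apply, hij]
    rw [h1, map_zero]
    exact zero_le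
  let C : Type _ := ↥(Set.range s)ᶜ
  let θ : ρ ⊕ C ≃ m := (Equiv.sumCongr (Equiv.ofInjective s hs) (Equiv.refl _)).trans
    (Equiv.Set.sumCompl (Set.range s))
  have hθl : ∀ i, θ (Sum.inl i) = s i := fun i => rfl
  have hθr : ∀ b : C, θ (Sum.inr b) = b.1 := fun b => rfl
  let Z₀ : Matrix (ρ ⊕ C) (ρ ⊕ C) L := Matrix.of fun q =>
    Sum.elim (fun j => Y (θ q) (K j)) (fun b => G (θ q) b.1)
  let A' : Matrix (ρ ⊕ C) (ρ ⊕ C) L := A.submatrix θ θ
  have hZ : A' * Z₀ = Matrix.fromBlocks M 0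
      (Matrix.of fun b j => ∑ l, A b.1 l * Y l (K j)) (1 : Matrix C C L) := by
    ext p q
    rw [Matrix.mul_apply]
    have h1 : ∑ x, A' p x * Z₀ x q = ∑ l, A (θ p) l *
        (Sum.elim (fun j => Y l (K j)) (fun b : C => G l b.1) : ρ ⊕ C → L) q := by
      rw [← Equiv.sum_comp θ]
      rfl
    rw [h1]
    have h2 : ∀ b : C, ∑ l, A (θ p) l * G l b.1 = if θ p = b.1 then 1 else 0 := by
      intro b
      have h3 := congrFun (congrFun hAG (θ p)) b.1
      rwa [Matrix.mul_apply, Matrix.one_apply] at h3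
    rcases p with i | b
    · rcases q with j | b'
      · rfl
      · rw [Matrix.fromBlocks_apply₁₂, Matrix.zero_apply]
        refine (h2 b').trans (if_neg ?_)
        rw [hθl]
        intro h3
        exact b'.2 ⟨i, h3⟩
    · rcases q with j | b'
      · rfl
      · rw [Matrix.fromBlocks_apply₂₂, Matrix.one_apply]
        refine (h2 b').trans ?_
        rw [hθr]
        by_cases hbb : b = b'
        · rw [if_pos hbb, if_pos (by rw [hbb])]
        · rw [if_neg hbb, if_neg (fun h3 => hbb (Subtype.ext h3))]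
  have h1 : M.det = A.det * Z₀.det := by
    have h2 := congrArg Matrix.det hZ
    rw [Matrix.det_mul, Matrix.det_fromBlocks_zero₁₂, Matrix.det_one, mul_one,
      Matrix.det_submatrix_equiv_self] at h2
    exact h2.symm
  rw [h1, map_mul]
  refine mul_le_mul' le_rfl ?_
  have h2 : v Z₀.det ≤ pl v (Sum.elim (fun (j : ρ) (q : ρ ⊕ C) => Z₀ q (Sum.inl j))
      (fun (b : C) (q : ρ ⊕ C) => Z₀ q (Sum.inr b))) := by
    rw [← Matrix.det_transpose]
    refine le_trans (le_of_eq ?_) (le_vmax v (fun e : ρ ⊕ C → ρ ⊕ C => (Matrix.of fun i j =>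
      (Sum.elim (fun (j : ρ) (q : ρ ⊕ C) => Z₀ q (Sum.inl j))
        (fun (b : C) (q : ρ ⊕ C) => Z₀ q (Sum.inr b))) i (e j)).det) id)
    congr 2
    ext i j
    rcases i with i | b
    · rfl
    · rfl
  have h3 : pl v (fun (j : ρ) (q : ρ ⊕ C) => Z₀ q (Sum.inl j)) ≤ c := by
    refine vmax_le v fun e => ?_
    refine le_trans (le_of_eq ?_) (hY (fun i => θ (e i)) K)
    rw [← Matrix.det_transpose]
    rfl
  have h4 : pl v (fun (b : C) (q : ρ ⊕ C) => Z₀ q (Sum.inr b)) ≤ 1 :=
    pl_le_one v fun b q => hG _ _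
  refine h2.trans ((pl_sum_le v _ _).trans ?_)
  calc _ ≤ c * 1 := mul_le_mul' h3 h4
    _ = c := mul_one c

theorem val_mul_le {m : Type*} [Fintype m] {M N : Matrix m m L} (hM : ∀ i j, v (M i j) ≤ 1)
    (hN : ∀ i j, v (N i j) ≤ 1) (i j : m) : v ((M * N) i j) ≤ 1 := by
  rw [Matrix.mul_apply]
  refine Valuation.map_sum_le v fun l _ => ?_
  rw [map_mul]
  exact mul_le_one' (hM _ _) (hN _ _)

variable {σ : Type*} [Fintype σ] [DecidableEq σ] {Q : Fin 2 → σ → L}
  {g : Matrix (Fin 2) (Fin 2) L} {k : Fin 2 → Fin 2 ⊕ σ}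

theorem val_cg_le (hB : ∀ a m, v (BP Q g a m) ≤ 1) (m m' : Fin 2 ⊕ σ) :
    v (cg Q g k m m') ≤ 1 := by
  rcases m' with b | j
  · exact hB b m
  · show v ((if m = Sum.inr j then 1 else 0) -
      ∑ b, (if k b = Sum.inr j then BP Q g b m else 0)) ≤ 1
    refine (v.map_sub _ _).trans (max_le ?_ ?_)
    · split_ifs
      · rw [map_one]
      · rw [map_zero]; exact zero_le
    · refine Valuation.map_sum_le v fun b _ => ?_
      split_ifs
      · exact hB b m
      · rw [map_zero]; exact zero_le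

theorem val_GG_le (hB : ∀ a m, v (BP Q g a m) ≤ 1) (p q : Fin 2 × (Fin 2 ⊕ σ)) :
    v (GG Q g k p q) ≤ 1 := by
  unfold GG
  refine val_mul_le v (fun p q => ?_) (fun p q => ?_) p q
  · rw [Matrix.kroneckerMap_apply, map_mul]
    refine mul_le_one' ?_ (val_cg_le v hB _ _)
    rw [Matrix.one_apply]
    split_ifs
    · rw [map_one]
    · rw [map_zero]; exact zero_le
  · rw [Matrix.blockDiagonal_apply]
    split_ifs
    · rcases p.2 with b | j
      · simp only [Sum.elim_inl]
        rw [Matrix.one_apply]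
        split_ifs
        · rw [map_one]
        · rw [map_zero]; exact zero_le
      · simp only [Sum.elim_inr]
        have h3 := hB p.1 (Sum.inl q.1)
        rw [BP_inl] at h3
        exact h3
    · rw [map_zero]; exact zero_le

theorem BB_indep : LinearIndependent L (BB Q) := by
  rw [Fintype.linearIndependent_iff]
  intro c hc i
  have h1 := congrFun hc (Sum.inl i)
  rw [Finset.sum_apply] at h1
  simpa [BB] using h1

/-- **The local bound** for the minors of the rows of the coordinates of a line in a chart and of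
further elements. -/
theorem pl_chart_le {E γ : Type*} [Fintype E] [Fintype γ] [DecidableEq γ] {r : ℕ}
    (Q : Fin 2 → σ → L) {D : E → Derivation ℤ L L} {c : ℤᵐ⁰}
    (hD : ∀ (K : Fin r → E) (y : Fin r → L), (∀ j, v (y j) ≤ 1) →
      v (Matrix.det (Matrix.of fun i j => D (K i) (y j))) ≤ c) {β : γ → L} {b : γ → ℤᵐ⁰}
    (hb : ∀ t, 1 ≤ b t) (hβ : ∀ t, v (β t) ≤ b t)
    (s : Fin r → (Fin 2 × (Fin 2 ⊕ σ)) ⊕ γ) :
    pl v (fun i K => D K (Sum.elim (fun p : Fin 2 × (Fin 2 ⊕ σ) => BB Q p.1 p.2) β (s i))) ≤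
      pl v (BB Q) ^ (Fintype.card σ + 2) * (∏ t, b t ^ 2) * c := by
  obtain ⟨g, k, hg, hred⟩ := exists_red v (BB_indep (Q := Q))
  have hk : ∀ a b, BP Q g a (k b) = if a = b then 1 else 0 := hred.piv
  have hint : ∀ a m, v (BP Q g a m) ≤ 1 := hred.int
  -- the further elements
  set β' : γ → L := fun t => if v (β t) ≤ 1 then β t else (β t)⁻¹ with hβ'
  set u : γ → L := fun t => if v (β t) ≤ 1 then 1 else - β t ^ 2 with hu
  have hβ'1 : ∀ t, v (β' t) ≤ 1 := by
    intro t
    by_cases h : v (β t) ≤ 1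
    · simp only [hβ', if_pos h]
      exact h
    · simp only [hβ', if_neg h]
      rw [map_inv₀]
      exact inv_le_one_of_one_le₀ (not_le.1 h).le
  have hu1 : ∀ t, v (u t) ≤ b t ^ 2 := by
    intro t
    by_cases h : v (β t) ≤ 1
    · simp only [hu, if_pos h]
      rw [map_one]
      exact one_le_pow₀ (hb t)
    · simp only [hu, if_neg h]
      rw [Valuation.map_neg, map_pow]
      exact pow_le_pow_left' (hβ t) 2
  have hu2 : ∀ t, 1 ≤ v (u t) := by
    intro t
    by_cases h : v (β t) ≤ 1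
    · simp only [hu, if_pos h]
      rw [map_one]
    · simp only [hu, if_neg h]
      rw [Valuation.map_neg, map_pow]
      exact one_le_pow₀ (not_le.1 h).le
  have hu0 : ∀ t, u t ≠ 0 := by
    intro t h0
    have h1 := hu2 t
    rw [h0, map_zero] at h1
    exact absurd h1 (by simp)
  have hDβ : ∀ t K, D K (β t) = u t * D K (β' t) := by
    intro t K
    by_cases h : v (β t) ≤ 1
    · simp only [hu, hβ', if_pos h, one_mul]
    · have hc0 : β t ≠ 0 := by
        rintro h0
        apply h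
        rw [h0, map_zero]
        exact zero_le
      simp only [hu, hβ', if_neg h]
      have h4 : D K (β t * (β t)⁻¹) = 0 := by
        rw [mul_inv_cancel₀ hc0]
        exact (D K).map_one_eq_zero
      rw [Derivation.leibniz, smul_eq_mul, smul_eq_mul] at h4
      have h5 : (β t)⁻¹ * D K (β t) = - (β t * D K (β t)⁻¹) := eq_neg_of_add_eq_zero_right h4
      calc D K (β t) = β t * ((β t)⁻¹ * D K (β t)) := by
            rw [← mul_assoc, mul_inv_cancel₀ hc0, one_mul]
        _ = - β t ^ 2 * D K (β t)⁻¹ := by rw [h5]; ring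
  set A : Matrix ((Fin 2 × (Fin 2 ⊕ σ)) ⊕ γ) ((Fin 2 × (Fin 2 ⊕ σ)) ⊕ γ) L :=
    Matrix.fromBlocks (AA Q k) 0 0 (Matrix.diagonal u) with hA
  set G : Matrix ((Fin 2 × (Fin 2 ⊕ σ)) ⊕ γ) ((Fin 2 × (Fin 2 ⊕ σ)) ⊕ γ) L :=
    Matrix.fromBlocks (GG Q g k) 0 0 (Matrix.diagonal fun t => (u t)⁻¹) with hG
  have hAG : A * G = 1 := by
    rw [hA, hG, Matrix.fromBlocks_multiply, AA_mul_GG hk, Matrix.diagonal_mul_diagonal]
    have h1 : (Matrix.diagonal fun t => u t * (u t)⁻¹) = (1 : Matrix γ γ L) := by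
      rw [← Matrix.diagonal_one]
      congr 1
      funext t
      exact mul_inv_cancel₀ (hu0 t)
    rw [h1]
    simp
  have hGi : ∀ i j, v (G i j) ≤ 1 := by
    rintro (p | t) (q | t')
    · exact val_GG_le v hint p q
    · rw [hG, Matrix.fromBlocks_apply₁₂, Matrix.zero_apply, map_zero]; exact zero_le
    · rw [hG, Matrix.fromBlocks_apply₂₁, Matrix.zero_apply, map_zero]; exact zero_le
    · rw [hG, Matrix.fromBlocks_apply₂₂, Matrix.diagonal_apply]
      split_ifs
      · rw [map_inv₀]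
        exact inv_le_one_of_one_le₀ (hu2 t)
      · rw [map_zero]; exact zero_le
  have hdet : v A.det ≤ pl v (BB Q) ^ (Fintype.card σ + 2) * (∏ t, b t ^ 2) := by
    rw [hA, Matrix.det_fromBlocks_zero₂₁, Matrix.det_diagonal, det_AA, map_mul, map_pow, map_prod]
    refine mul_le_mul' (le_of_eq ?_) (Finset.prod_le_prod' fun t _ => hu1 t)
    congr 1
    have h1 := congrArg Matrix.det (g_mul_NN2 hk)
    rw [Matrix.det_mul, Matrix.det_one] at h1
    have h2 := congrArg v h1
    rw [map_mul, map_one] at h2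
    have h3 : pl v (fun i m => ∑ j, g i j * BB Q j m) = 1 := hred.pl_eq
    rw [pl_mul] at h3
    have h4 : v g.det ≠ 0 := (v.ne_zero_iff).mpr hg
    exact mul_left_cancel₀ h4 (h2.trans h3.symm)
  have hfun : (fun (i : Fin r) (K : E) => D K (Sum.elim (fun p : Fin 2 × (Fin 2 ⊕ σ) =>
      BB Q p.1 p.2) β (s i))) = fun i K => ∑ j, A (s i) j *
        (fun (j : (Fin 2 × (Fin 2 ⊕ σ)) ⊕ γ) (K : E) => D K (Sum.elim
          (fun p : Fin 2 × (Fin 2 ⊕ σ) => BP Q g p.1 p.2) β' j)) j K := by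
    funext i K
    rw [Fintype.sum_sum_type]
    rcases s i with p | t
    · simp only [Sum.elim_inl, Sum.elim_inr, hA, Matrix.fromBlocks_apply₁₁,
        Matrix.fromBlocks_apply₁₂, Matrix.zero_apply, zero_mul, Finset.sum_const_zero, add_zero]
      exact der_AA hk (D K) p.1 p.2
    · simp only [Sum.elim_inl, Sum.elim_inr, hA, Matrix.fromBlocks_apply₂₁,
        Matrix.fromBlocks_apply₂₂, Matrix.zero_apply, zero_mul, Finset.sum_const_zero, zero_add,
        Matrix.diagonal_apply, ite_mul, Finset.sum_ite_eq, Finset.mem_univ, if_true]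
      exact hDβ t K
  rw [hfun]
  refine le_trans (pl_sub_le v hAG hGi (c := c) (fun t K => ?_) s) (mul_le_mul' hdet le_rfl)
  rw [← Matrix.det_transpose]
  refine hD K (fun j => Sum.elim (fun p : Fin 2 × (Fin 2 ⊕ σ) => BP Q g p.1 p.2) β' (t j))
    fun j => ?_
  rcases t j with p | t
  · exact hint _ _
  · exact hβ'1 t

end

end Pool.Agent.Lib.MP_44a246_ntF
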