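import Mathlib
import Pool.Agent.Lib.MP_44a246_ntF.F03
import Pool.Agent.Lib.MP_44a246_ntF.F06
import Pool.Agent.Lib.MP_44a246_ntL.LPol

/-!
Upper bounds for the heights of the spaces spanned by rows.
-/

namespace Pool.Agent.Lib.MP_44a246_ntF

open Pool.Agent.Lib.MP_44a246_nt
open Pool.Agent.Lib.MP_44a246_ntL
open Pool.Agent.Lib.MP_44a246_ntS
open Pool.Agent.Lib.MP_44a246_ntX
open Pool.Agent.Lib.MP_e52354_nt
open WithZero Module

section

variable {κ L : Type*} [Field κ] [IsAlgClosed κ] [CharZero κ] [Field L] [Algebra κ L]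
  {E : Type*} [Fintype E]

/-- the height of a space with a finite family of generators, from the local bounds for the
linearly independent families of generators -/
theorem ht_span_le (h : IsFF κ L) {Γ : Type*} [Finite Γ] (a : Γ → E → L)
    {g δ : Place κ L → ℤ} (hg : (Function.support g).Finite) (hδ : (Function.support δ).Finite)
    (hle : ∀ (w : Place κ L) (r : ℕ) (s : Fin r → Γ), LinearIndependent L (fun i => a (s i)) →
      pl w.1 (fun i => a (s i)) ≤ exp (g w + r * δ w)) :
    ht κ (Submodule.span L (Set.range a)) ≤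
      ∑ᶠ w, g w + finrank L (Submodule.span L (Set.range a)) * ∑ᶠ w, δ w := by
  classical
  obtain ⟨τ, σ', hσ', hsp, hli⟩ := exists_linearIndependent' L a
  have : Finite τ := Finite.of_injective σ' hσ'
  have : Fintype τ := Fintype.ofFinite τ
  set r := Fintype.card τ with hr
  set s : Fin r → Γ := fun i => σ' ((Fintype.equivFin τ).symm i) with hs
  have hai : LinearIndependent L (fun i => a (s i)) :=
    hli.comp _ (Fintype.equivFin τ).symm.injective
  have has : Submodule.span L (Set.range fun i => a (s i)) = Submodule.span L (Set.range a) := by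
    have h1 : Set.range (fun i => a (s i)) = Set.range (a ∘ σ') := by
      ext y
      constructor
      · rintro ⟨i, rfl⟩
        exact ⟨_, rfl⟩
      · rintro ⟨t, rfl⟩
        refine ⟨Fintype.equivFin τ t, ?_⟩
        simp [hs]
    rw [h1, hsp]
  have hrk : finrank L (Submodule.span L (Set.range a)) = r := by
    rw [← has, finrank_span_eq_card hai, Fintype.card_fin]
  rw [hrk, ← has, ht_span h hai, mul_finsum, ← finsum_add_distrib hg
    (hδ.subset (Function.support_mul_subset_right _ _))]
  refine finsum_mono (pl_support h hai) ((hg.union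
    (hδ.subset (Function.support_mul_subset_right _ _))).subset (Function.support_add _ _))
    fun w => ?_
  have h1 := (log_le_log (pl_ne_zero w.1 hai) exp_ne_zero).mpr (hle w r s hai)
  rwa [log_exp] at h1

/-- the row of an element -/
def rowD (D : E → Derivation ℤ L L) (c : L) : E → L := fun K => D K c

omit [Fintype E] in
theorem rowD_add (D : E → Derivation ℤ L L) (c c' : L) :
    rowD D (c + c') = rowD D c + rowD D c' := by
  funext K
  exact map_add (D K) c c'

omit [Fintype E] in
theorem rowD_mul (D : E → Derivation ℤ L L) (c c' : L) :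
    rowD D (c * c') = c • rowD D c' + c' • rowD D c := by
  funext K
  exact Derivation.leibniz (D K) c c'

omit [Fintype E] in
theorem rowD_zero (D : E → Derivation ℤ L L) : rowD D 0 = 0 := by
  funext K
  exact map_zero (D K)

omit [Fintype E] in
theorem rowD_one (D : E → Derivation ℤ L L) : rowD D 1 = 0 := by
  funext K
  exact (D K).map_one_eq_zero

variable {D : E → Derivation ℤ L L} {δ ρ : Place κ L → ℕ}

/-- **The height of the space spanned by the rows of the coordinates of a line in a chart** and of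
further elements. -/
theorem ht_chart_le (h : IsFF κ L) (hδ : (Function.support δ).Finite)
    (hρ : (Function.support ρ).Finite) (hD : MinorBound κ D Set.univ δ ρ)
    {ι γ : Type*} [Fintype ι] [Fintype γ]
    {F : Submodule L (ι → L)} {i₀ i₁ : ι} {e f : ι → L} (hC : Chart F i₀ i₁ e f) {β : γ → L}
    {b : Place κ L → γ → ℤᵐ⁰} (hb : ∀ w t, 1 ≤ b w t) (hβ : ∀ w t, w.1 (β t) ≤ b w t)
    {g : Place κ L → ℤ} (hg : (Function.support g).Finite) (hbg : ∀ w, ∏ t, b w t ^ 2 ≤ exp (g w))
    {V : Submodule L (E → L)}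
    (hV : V = Submodule.span L (Set.range fun p : (Fin 2 × ι) ⊕ γ =>
      rowD D (Sum.elim (fun p : Fin 2 × ι => (![e, f] : Fin 2 → ι → L) p.1 p.2) β p))) :
    ht κ V ≤ Fintype.card ι * ht κ F + ∑ᶠ w, g w + finrank L V * ∑ᶠ w, (δ w : ℤ) +
      ∑ᶠ w, (ρ w : ℤ) := by
  classical
  subst hV
  obtain ⟨hef, hspan, -⟩ := hC.finrank_eq
  have hne := hC.ne
  -- the coordinates which are not in the chart
  let σ : Type _ := {j : ι // j ≠ i₀ ∧ j ≠ i₁}
  let θ : Fin 2 ⊕ σ → ι := Sum.elim ![i₀, i₁] Subtype.val
  have hθs : Function.Surjective θ := by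
    intro j
    by_cases h0 : j = i₀
    · exact ⟨Sum.inl 0, h0.symm⟩
    · by_cases h1 : j = i₁
      · exact ⟨Sum.inl 1, h1.symm⟩
      · exact ⟨Sum.inr ⟨j, h0, h1⟩, rfl⟩
  have hθi : Function.Injective θ := by
    rintro (a | a) (b | b) hab
    · fin_cases a <;> fin_cases b
      · rfl
      · exact absurd hab hne
      · exact absurd hab hne.symm
      · rfl
    · exfalso
      fin_cases a
      · exact b.2.1 hab.symm
      · exact b.2.2 hab.symm
    · exfalso
      fin_cases b
      · exact a.2.1 hab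
      · exact a.2.2 hab
    · exact congrArg Sum.inr (Subtype.ext hab)
  let θe : Fin 2 ⊕ σ ≃ ι := Equiv.ofBijective θ ⟨hθi, hθs⟩
  have hcard : Fintype.card σ + 2 = Fintype.card ι := by
    rw [← Fintype.card_congr θe, Fintype.card_sum, Fintype.card_fin]
    omega
  let Q : Fin 2 → σ → L := fun a j => (![e, f] : Fin 2 → ι → L) a j.1
  have hBB : ∀ a m, BB Q a m = (![e, f] : Fin 2 → ι → L) a (θe m) := by
    intro a m
    rcases m with b | j
    · fin_cases a <;> fin_cases b
      · exact hC.ek.symm
      · exact hC.el.symm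
      · exact hC.fk.symm
      · exact hC.fl.symm
    · rfl
  have hpl : ∀ w : Place κ L, pl w.1 (BB Q) ≤ pl w.1 ![e, f] := by
    intro w
    refine vmax_le w.1 fun p => ?_
    have h1 := le_vmax w.1 (fun p : Fin 2 → ι => (Matrix.of fun i j =>
      (![e, f] : Fin 2 → ι → L) i (p j)).det) (fun j => θe (p j))
    refine le_trans (le_of_eq ?_) h1
    congr 2
    ext i j
    exact hBB i (p j)
  have hF : ht κ F = ∑ᶠ w : Place κ L, log (pl w.1 ![e, f]) := by
    rw [← ht_span h hef, hspan]
  have s1 : (Function.support fun w : Place κ L => (Fintype.card ι : ℤ) *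
      log (pl w.1 ![e, f])).Finite := by
    refine (pl_support h hef).subset fun w hw h1 => hw ?_
    simp only at h1 ⊢
    rw [h1, mul_zero]
  have s2 : (Function.support fun w : Place κ L => (ρ w : ℤ)).Finite := by
    refine hρ.subset fun w hw h1 => hw ?_
    simp only
    rw [h1, Nat.cast_zero]
  have s3 : (Function.support fun w : Place κ L => (δ w : ℤ)).Finite := by
    refine hδ.subset fun w hw h1 => hw ?_
    simp only
    rw [h1, Nat.cast_zero]
  have s12 := (s1.union hg).subset (Function.support_add _ _)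
  have key := ht_span_le h (fun p : (Fin 2 × ι) ⊕ γ => rowD D (Sum.elim
    (fun p : Fin 2 × ι => (![e, f] : Fin 2 → ι → L) p.1 p.2) β p))
    (g := fun w => ((Fintype.card ι : ℤ) * log (pl w.1 ![e, f]) + g w) + (ρ w : ℤ))
    (δ := fun w => (δ w : ℤ)) ((s12.union s2).subset (Function.support_add _ _)) s3
    fun w r s hs => ?_
  · have e1 : ∑ᶠ w : Place κ L, (((Fintype.card ι : ℤ) * log (pl w.1 ![e, f]) + g w) +
        (ρ w : ℤ)) = Fintype.card ι * ht κ F + ∑ᶠ w, g w + ∑ᶠ w, (ρ w : ℤ) := by
      rw [finsum_add_distrib s12 s2, finsum_add_distrib s1 hg, hF, mul_finsum]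
    rw [e1] at key
    linarith
  · -- the local bound
    have h1 := pl_chart_le w.1 Q (D := D) (r := r) (c := exp ((r * δ w + ρ w : ℕ) : ℤ))
      (fun K y hy => hD w r K y (fun _ => Set.mem_univ _) hy) (hb w) (hβ w)
      (fun i => Sum.map (Prod.map id θe.symm) id (s i))
    have h2 : (fun (i : Fin r) (K : E) => D K (Sum.elim (fun p : Fin 2 × (Fin 2 ⊕ σ) =>
        BB Q p.1 p.2) β (Sum.map (Prod.map id θe.symm) id (s i)))) =
        fun i => rowD D (Sum.elim (fun p : Fin 2 × ι => (![e, f] : Fin 2 → ι → L) p.1 p.2) β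
          (s i)) := by
      funext i K
      rcases s i with p | t
      · simp only [Sum.map_inl, Sum.elim_inl, Prod.map_fst, Prod.map_snd, id, hBB,
          Equiv.apply_symm_apply]
        rfl
      · rfl
    rw [h2, hcard] at h1
    have n1 : pl w.1 ![e, f] ≠ 0 := pl_ne_zero w.1 hef
    refine h1.trans ?_
    have e1 : (exp ((Fintype.card ι : ℤ) * log (pl w.1 ![e, f])) : ℤᵐ⁰) =
        pl w.1 ![e, f] ^ Fintype.card ι := by
      rw [show (Fintype.card ι : ℤ) * log (pl w.1 ![e, f]) =
        Fintype.card ι • log (pl w.1 ![e, f]) by simp, exp_nsmul, exp_log n1]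
    calc pl w.1 (BB Q) ^ Fintype.card ι * (∏ t, b w t ^ 2) * exp ((r * δ w + ρ w : ℕ) : ℤ)
        ≤ pl w.1 ![e, f] ^ Fintype.card ι * exp (g w) * exp ((r * δ w + ρ w : ℕ) : ℤ) :=
          mul_le_mul' (mul_le_mul' (pow_le_pow_left' (hpl w) _) (hbg w)) le_rfl
      _ = exp (((Fintype.card ι : ℤ) * log (pl w.1 ![e, f]) + g w) + (ρ w : ℤ) +
          r * (δ w : ℤ)) := by
          rw [← e1, ← exp_add, ← exp_add]
          congr 1
          push_cast
          ring

omit [IsAlgClosed κ] [CharZero κ] [Field κ] [Algebra κ L] in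
/-- the rank of the space spanned by the rows of the coordinates of a line in a chart -/
theorem finrank_chart_le {ι γ : Type*} [Fintype ι] [Fintype γ]
    {F : Submodule L (ι → L)} {i₀ i₁ : ι} {e f : ι → L} (hC : Chart F i₀ i₁ e f) {β : γ → L}
    {V : Submodule L (E → L)}
    (hV : V = Submodule.span L (Set.range fun p : (Fin 2 × ι) ⊕ γ =>
      rowD D (Sum.elim (fun p : Fin 2 × ι => (![e, f] : Fin 2 → ι → L) p.1 p.2) β p))) :
    finrank L V + 4 ≤ 2 * Fintype.card ι + Fintype.card γ := by
  classical
  subst hV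
  have hne := hC.ne
  let σ : Type _ := {j : ι // j ≠ i₀ ∧ j ≠ i₁}
  have hcard : Fintype.card σ + 2 = Fintype.card ι := by
    have h1 : Fintype.card σ = (Finset.univ.filter fun j => j ≠ i₀ ∧ j ≠ i₁).card :=
      Fintype.card_subtype _
    have h2 : (Finset.univ.filter fun j => j ≠ i₀ ∧ j ≠ i₁) = ({i₀, i₁} : Finset ι)ᶜ := by
      ext j
      simp
    rw [h1, h2, Finset.card_compl, Finset.card_pair hne]
    have h3 : 2 ≤ Fintype.card ι := by
      rw [← Finset.card_pair hne]
      exact Finset.card_le_univ _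
    omega
  have h1 : Submodule.span L (Set.range fun p : (Fin 2 × ι) ⊕ γ =>
      rowD D (Sum.elim (fun p : Fin 2 × ι => (![e, f] : Fin 2 → ι → L) p.1 p.2) β p)) ≤
      Submodule.span L (Set.range fun p : (Fin 2 × σ) ⊕ γ =>
      rowD D (Sum.elim (fun p : Fin 2 × σ => (![e, f] : Fin 2 → ι → L) p.1 p.2.1) β p)) := by
    rw [Submodule.span_le]
    rintro _ ⟨p, rfl⟩
    rcases p with ⟨a, j⟩ | t
    · by_cases hj : j ≠ i₀ ∧ j ≠ i₁
      · exact Submodule.subset_span ⟨Sum.inl (a, ⟨j, hj⟩), rfl⟩
      · have h2 : rowD D ((![e, f] : Fin 2 → ι → L) a j) = 0 := by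
          rw [not_and_or, not_not, not_not] at hj
          rcases hj with rfl | rfl
          · fin_cases a
            · simp [hC.ek, rowD_one]
            · simp [hC.fk, rowD_zero]
          · fin_cases a
            · simp [hC.el, rowD_zero]
            · simp [hC.fl, rowD_one]
        simp only [Sum.elim_inl, SetLike.mem_coe]
        rw [h2]
        exact Submodule.zero_mem _
    · exact Submodule.subset_span ⟨Sum.inr t, rfl⟩
  have h2 := (Submodule.finrank_mono h1).trans (finrank_range_le_card _)
  rw [Fintype.card_sum, Fintype.card_prod, Fintype.card_fin] at h2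
  omega

end

end Pool.Agent.Lib.MP_44a246_ntF
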