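import Mathlib
import Pool.Agent.Lib.MP_44a246_ntF.F07

/-!
Upper bounds for the heights of the spaces spanned by the rows of the coordinates of a point.
-/

namespace Pool.Agent.Lib.MP_44a246_ntF

open Pool.Agent.Lib.MP_44a246_nt
open Pool.Agent.Lib.MP_44a246_ntL
open Pool.Agent.Lib.MP_44a246_ntS
open Pool.Agent.Lib.MP_44a246_ntX
open Pool.Agent.Lib.MP_e52354_nt
open WithZero Module

section

variable {L : Type*} [Field L] {E : Type*} [Fintype E] (D : E → Derivation ℤ L L)

omit [Fintype E] in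
theorem rowD_inv {c : L} (hc : c ≠ 0) : rowD D c = (- c ^ 2) • rowD D c⁻¹ := by
  funext K
  have h4 : rowD D (c * c⁻¹) K = 0 := by
    rw [mul_inv_cancel₀ hc, rowD_one, Pi.zero_apply]
  rw [rowD_mul] at h4
  simp only [Pi.add_apply, Pi.smul_apply, smul_eq_mul] at h4 ⊢
  have h5 : c⁻¹ * rowD D c K = - (c * rowD D c⁻¹ K) := eq_neg_of_add_eq_zero_right h4
  calc rowD D c K = c * (c⁻¹ * rowD D c K) := by
        rw [← mul_assoc, mul_inv_cancel₀ hc, one_mul]
    _ = - c ^ 2 * rowD D c⁻¹ K := by rw [h5]; ring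

/-- the local bound for the minors of the rows of the coordinates of a point and of integral
elements -/
theorem pl_rowD_le (v : Valuation L ℤᵐ⁰) {r : ℕ} {τ : ℤᵐ⁰}
    (hD : ∀ (K : Fin r → E) (y : Fin r → L), (∀ j, v (y j) ≤ 1) →
      v (Matrix.det (Matrix.of fun i j => D (K i) (y j))) ≤ τ)
    {n : ℕ} {x : Fin n → L} (hx : 1 ≤ vmax v x) {J : Finset (Fin n)} {γ : Type*} {β : γ → L}
    (hβ : ∀ t, v (β t) ≤ 1) {s : Fin r → ↥J ⊕ γ} (hs : Function.Injective s) :
    pl v (fun i => rowD D (Sum.elim (fun j : ↥J => x j.1) β (s i))) ≤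
      vmax v x ^ (J.card + 1) * τ := by
  classical
  have hx0 : x ≠ 0 := by
    intro h0
    rw [(vmax_eq_zero_iff v).2 h0] at hx
    exact absurd hx (by simp)
  obtain ⟨l, hl0, hlmax, hle⟩ := exists_vmax v hx0
  have hvl0 : v (x l) ≠ 0 := (Valuation.ne_zero_iff _).2 hl0
  have hone : 1 ≤ v (x l) := by rw [← hlmax]; exact hx
  have hy' : v (x l)⁻¹ ≤ 1 := by
    rw [map_inv₀]
    exact inv_le_one_of_one_le₀ hone
  have hyi : ∀ i, v (x i * (x l)⁻¹) ≤ 1 := by
    intro i
    rw [map_mul, map_inv₀]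
    calc v (x i) * (v (x l))⁻¹ ≤ v (x l) * (v (x l))⁻¹ := mul_le_mul_left (hle i) _
      _ = 1 := mul_inv_cancel₀ hvl0
  have hp : (x l)⁻¹ ≠ 0 := inv_ne_zero hl0
  -- the relation between the rows
  have hrel : ∀ i K, rowD D (x i) K = x l * (rowD D (x i * (x l)⁻¹) K -
      (x i * (x l)⁻¹) / (x l)⁻¹ * rowD D (x l)⁻¹ K) := by
    intro i K
    have h1 : x i = (x i * (x l)⁻¹) * x l := by
      rw [mul_assoc, inv_mul_cancel₀ hl0, mul_one]
    have h2 : rowD D (x i) K = (x i * (x l)⁻¹) * rowD D (x l) K +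
        x l * rowD D (x i * (x l)⁻¹) K := by
      conv_lhs => rw [h1]
      rw [rowD_mul]
      simp [Pi.add_apply, Pi.smul_apply, smul_eq_mul]
    have h3 : rowD D (x l) K = - x l ^ 2 * rowD D (x l)⁻¹ K := congrFun (rowD_inv D hl0) K
    rw [h2, h3, div_inv_eq_mul]
    ring
  set q : Fin r → L := fun i => Sum.elim (fun j : ↥J => x j.1 * (x l)⁻¹) (fun _ => 0) (s i)
    with hq
  set y : Fin r → L := fun i => Sum.elim (fun j : ↥J => x j.1 * (x l)⁻¹) β (s i) with hy
  set c : Fin r → L := fun i => Sum.elim (fun _ : ↥J => x l) (fun _ => 1) (s i) with hc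
  have hrow : ∀ i K, rowD D (Sum.elim (fun j : ↥J => x j.1) β (s i)) K =
      c i * (rowD D (y i) K - q i / (x l)⁻¹ * rowD D (x l)⁻¹ K) := by
    intro i K
    simp only [hq, hy, hc]
    rcases s i with j | t
    · exact hrel j.1 K
    · simp
  unfold pl
  refine vmax_le v fun K => ?_
  set M : Matrix (Fin (r + 1)) (Fin (r + 1)) L := Matrix.of (Fin.cons
    (Fin.cons (x l)⁻¹ (fun j => rowD D (x l)⁻¹ (K j)))
    (fun i => (Fin.cons (q i) (fun j => rowD D (y i) (K j)) : Fin (r + 1) → L))) with hM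
  have hdet := det_border hp q (fun j => rowD D (x l)⁻¹ (K j)) (fun i j => rowD D (y i) (K j))
  have hdet' : M.det = (x l)⁻¹ * (Matrix.of fun i j => rowD D (y i) (K j) -
      q i / (x l)⁻¹ * rowD D (x l)⁻¹ (K j)).det := hdet
  have hbound : v M.det ≤ τ := by
    rw [← one_mul τ]
    refine det_column_le v M (fun i => ?_) (fun i => ?_)
    · refine Fin.cases ?_ (fun i => ?_) i
      · exact hy'
      · simp only [hM, Matrix.of_apply, Fin.cons_succ, Fin.cons_zero, hq]
        rcases s i with j' | t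
        · exact hyi _
        · simp
    · set z : Fin (r + 1) → L := Fin.cons (x l)⁻¹ y with hz
      have h1 : M.submatrix i.succAbove Fin.succ =
          (Matrix.of fun i' j => D (K i') (z (i.succAbove j))).transpose := by
        ext i' j
        rw [Matrix.submatrix_apply, Matrix.transpose_apply, Matrix.of_apply, hM, Matrix.of_apply]
        refine Fin.cases ?_ (fun i₂ => ?_) (i.succAbove i')
        · rfl
        · rfl
      rw [h1, Matrix.det_transpose]
      refine hD K _ fun j => ?_
      refine Fin.cases ?_ (fun i₂ => ?_) (i.succAbove j)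
      · exact hy'
      · simp only [hz, hy, Fin.cons_succ]
        rcases s i₂ with j' | t
        · exact hyi _
        · exact hβ t
  have hfinal : (Matrix.of fun i j => rowD D (Sum.elim (fun j : ↥J => x j.1) β (s i)) (K j)).det =
      (∏ i, c i) * (x l * M.det) := by
    have h1 : (Matrix.of fun i j => rowD D (Sum.elim (fun j : ↥J => x j.1) β (s i)) (K j)) =
        Matrix.of fun i j => c i * (Matrix.of fun i j => rowD D (y i) (K j) -
          q i / (x l)⁻¹ * rowD D (x l)⁻¹ (K j)) i j := by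
      ext i j
      rw [Matrix.of_apply, Matrix.of_apply, hrow, Matrix.of_apply]
    rw [h1, Matrix.det_mul_column, hdet', ← mul_assoc (x l), mul_inv_cancel₀ hl0, one_mul]
  rw [hfinal, map_mul, map_prod, map_mul, pow_succ, mul_assoc, hlmax]
  refine mul_le_mul' ?_ (mul_le_mul' le_rfl hbound)
  -- the number of the factors
  have h1 : ∀ i, v (c i) = if (s i).isLeft then v (x l) else 1 := by
    intro i
    simp only [hc]
    rcases s i with j | t
    · simp
    · simp
  rw [Finset.prod_congr rfl fun i _ => h1 i, Finset.prod_ite, Finset.prod_const,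
    Finset.prod_const_one, mul_one]
  refine pow_le_pow_right' hone ?_
  have h2 : (Finset.univ.filter fun i => (s i).isLeft = true).card ≤
      (Finset.univ.map (Function.Embedding.inl : ↥J ↪ ↥J ⊕ γ)).card := by
    refine Finset.card_le_card_of_injOn s ?_ hs.injOn
    intro i hi
    rw [Finset.mem_coe, Finset.mem_filter] at hi
    obtain ⟨j, hj⟩ := Sum.isLeft_iff.1 hi.2
    rw [Finset.mem_coe, Finset.mem_map]
    exact ⟨j, Finset.mem_univ _, hj.symm⟩
  rwa [Finset.card_map, Finset.card_univ, Fintype.card_coe] at h2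

end

section

variable {κ L : Type*} [Field κ] [IsAlgClosed κ] [CharZero κ] [Field L] [Algebra κ L]
  {E : Type*} [Fintype E] {D : E → Derivation ℤ L L} {δ ρ : Place κ L → ℕ}

/-- **The height of the space spanned by the rows of the coordinates of a point.** -/
theorem ht_rows_le (h : IsFF κ L) (hδ : (Function.support δ).Finite)
    (hρ : (Function.support ρ).Finite) (hD : MinorBound κ D Set.univ δ ρ) {n : ℕ} {x : Fin n → L}
    (hx : ∀ w : Place κ L, 1 ≤ vmax w.1 x) (hx0 : x ≠ 0) {J : Finset (Fin n)} {γ : Type*}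
    [Finite γ] {β : γ → L} (hβ : ∀ t, ∀ w : Place κ L, w.1 (β t) ≤ 1) :
    ht κ (Submodule.span L (Set.range fun p : ↥J ⊕ γ =>
      rowD D (Sum.elim (fun j : ↥J => x j.1) β p))) ≤
      (J.card + 1) * height κ x + finrank L (Submodule.span L (Set.range fun p : ↥J ⊕ γ =>
        rowD D (Sum.elim (fun j : ↥J => x j.1) β p))) * ∑ᶠ w, (δ w : ℤ) +
        ∑ᶠ w, (ρ w : ℤ) := by
  have s1 : (Function.support fun w : Place κ L => ((J.card : ℤ) + 1) *
      log (vmax w.1 x)).Finite := by
    refine (h.vmax_support hx0).subset fun w hw h1 => hw ?_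
    simp only at h1 ⊢
    rw [h1, mul_zero]
  have s2 : (Function.support fun w : Place κ L => (ρ w : ℤ)).Finite := by
    refine hρ.subset fun w hw h1 => hw ?_
    simp only
    rw [h1, Nat.cast_zero]
  have h1 := ht_span_le h (fun p : ↥J ⊕ γ => rowD D (Sum.elim (fun j : ↥J => x j.1) β p))
    (g := fun w => ((J.card : ℤ) + 1) * log (vmax w.1 x) + (ρ w : ℤ)) (δ := fun w => (δ w : ℤ))
    ((s1.union s2).subset (Function.support_add _ _)) (by
      refine hδ.subset fun w hw h1 => hw ?_
      simp only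
      rw [h1, Nat.cast_zero]) (by
      intro w r s hs
      have hinj : Function.Injective s := by
        intro i j hij
        exact hs.injective (by simp only [hij])
      refine (pl_rowD_le D w.1 (τ := exp ((r * δ w + ρ w : ℕ) : ℤ))
        (fun K y hy => hD w r K y (fun _ => Set.mem_univ _) hy) (hx w) (fun t => hβ t w)
        hinj).trans (le_of_eq ?_)
      have n1 : vmax w.1 x ≠ 0 := by
        rw [Ne, vmax_eq_zero_iff]
        exact hx0
      have e1 : (exp (((J.card : ℤ) + 1) * log (vmax w.1 x)) : ℤᵐ⁰) =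
          vmax w.1 x ^ (J.card + 1) := by
        rw [show ((J.card : ℤ) + 1) * log (vmax w.1 x) = (J.card + 1) • log (vmax w.1 x) by simp,
          exp_nsmul, exp_log n1]
      rw [← e1, ← exp_add]
      congr 1
      push_cast
      ring)
  have e1 : ∑ᶠ w : Place κ L, (((J.card : ℤ) + 1) * log (vmax w.1 x) + (ρ w : ℤ)) =
      (J.card + 1) * height κ x + ∑ᶠ w, (ρ w : ℤ) := by
    rw [finsum_add_distrib s1 s2, ← mul_finsum]
    rfl
  rw [e1] at h1
  linarith

end

end Pool.Agent.Lib.MP_44a246_ntF
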