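import Mathlib
import Pool.Agent.Lib.MP_44a246_ntF.F08
import Pool.Agent.Lib.MP_44a246_ntL.LSum

/-!
The local bounds for the minors of rows and logarithmic rows.
-/

namespace Pool.Agent.Lib.MP_44a246_ntF

open Pool.Agent.Lib.MP_44a246_nt
open Pool.Agent.Lib.MP_44a246_ntL
open Pool.Agent.Lib.MP_44a246_ntS
open Pool.Agent.Lib.MP_44a246_ntX
open Pool.Agent.Lib.MP_e52354_nt
open WithZero Module

section

variable {L : Type*} [Field L] (v : Valuation L ℤᵐ⁰)

/-- the determinant of integral combinations of rows -/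
theorem det_comb_le {r : ℕ} {E Λ : Type*} [Fintype Λ] {T : Fin r → Λ → L} {Y : Λ → E → L}
    {c : ℤᵐ⁰} (hT : ∀ i l, v (T i l) ≤ 1) (K : Fin r → E)
    (hY : ∀ φ : Fin r → Λ, v (Matrix.of fun i j => Y (φ i) (K j)).det ≤ c) :
    v (Matrix.of fun i j => ∑ l, T i l * Y l (K j)).det ≤ c := by
  classical
  have h1 : (Matrix.of fun i j => ∑ l, T i l * Y l (K j)).det =
      (Matrix.detRowAlternating (R := L) (n := Fin r)).toMultilinearMap
        (fun i => ∑ l, T i l • (fun j => Y l (K j))) := by
    change Matrix.det _ = Matrix.det _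
    congr 1
    ext i j
    rw [Matrix.of_apply, Finset.sum_apply]
    rfl
  rw [h1, MultilinearMap.map_sum]
  refine Valuation.map_sum_le v fun φ _ => ?_
  rw [MultilinearMap.map_smul_univ, smul_eq_mul, map_mul, map_prod]
  calc _ ≤ 1 * c := mul_le_mul' (Finset.prod_le_one' fun i _ => hT i _) (hY φ)
    _ = c := one_mul c

variable {E : Type*}

/-- the row of the logarithmic derivatives of an element -/
noncomputable def lrowD (D : E → Derivation ℤ L L) (u : L) : E → L := u⁻¹ • rowD D u

theorem lrowD_mul (D : E → Derivation ℤ L L) {a b : L} (ha : a ≠ 0) (hb : b ≠ 0) :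
    lrowD D (a * b) = lrowD D a + lrowD D b := by
  unfold lrowD
  rw [rowD_mul, smul_add, smul_smul, smul_smul, mul_inv]
  rw [show a⁻¹ * b⁻¹ * a = b⁻¹ by field_simp, show a⁻¹ * b⁻¹ * b = a⁻¹ by field_simp, add_comm]

theorem lrowD_inv (D : E → Derivation ℤ L L) {a : L} (ha : a ≠ 0) :
    lrowD D a⁻¹ = - lrowD D a := by
  have h1 := lrowD_mul D ha (inv_ne_zero ha)
  rw [mul_inv_cancel₀ ha] at h1
  have h2 : lrowD D (1 : L) = 0 := by
    unfold lrowD
    rw [rowD_one, smul_zero]
  rw [h2] at h1
  exact (neg_eq_of_add_eq_zero_right h1.symm).symm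

theorem lrowD_pow (D : E → Derivation ℤ L L) {a : L} (ha : a ≠ 0) (k : ℕ) :
    lrowD D (a ^ k) = (k : L) • lrowD D a := by
  induction k with
  | zero =>
    unfold lrowD
    rw [pow_zero, rowD_one, smul_zero, Nat.cast_zero, zero_smul]
  | succ k ih =>
    rw [pow_succ, lrowD_mul D (pow_ne_zero _ ha) ha, ih, Nat.cast_succ, add_smul, one_smul]

theorem lrowD_zpow (D : E → Derivation ℤ L L) {a : L} (ha : a ≠ 0) (k : ℤ) :
    lrowD D (a ^ k) = (k : L) • lrowD D a := by
  cases k with
  | ofNat k =>
    rw [Int.ofNat_eq_natCast, zpow_natCast, lrowD_pow D ha, Int.cast_natCast]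
  | negSucc k =>
    rw [zpow_negSucc, lrowD_inv D (pow_ne_zero _ ha), lrowD_pow D ha, Int.cast_negSucc, neg_smul]

end

section

variable {κ L : Type*} [Field κ] [Field L] [Algebra κ L] {E : Type*}
  {D : E → Derivation ℤ L L}

/-- the minors of the rows of integral elements and of logarithmic rows -/
theorem minor_log_le (w : Place κ L) {r : ℕ} {τ : ℤᵐ⁰}
    (hD : ∀ (K : Fin r → E) (y : Fin r → L), (∀ j, w.1 (y j) ≤ 1) →
      w.1 (Matrix.det (Matrix.of fun i j => D (K i) (y j))) ≤ τ)
    (K : Fin r → E) (s : Fin r → L ⊕ L) (h1 : ∀ i y, s i = Sum.inl y → w.1 y ≤ 1)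
    (h2 : ∀ i u, s i = Sum.inr u → u ≠ 0) {ε : ℕ}
    (hε : (∀ i u, s i = Sum.inr u → w.1 u = 1) ∨ 1 ≤ ε) :
    w.1 (Matrix.det (Matrix.of fun i j => Sum.elim (rowD D) (lrowD D) (s i) (K j))) ≤
      τ * exp (ε : ℤ) := by
  classical
  -- integral elements and factors
  have hD' : ∀ y : Fin r → L, (∀ j, w.1 (y j) ≤ 1) →
      w.1 (Matrix.det (Matrix.of fun i j => rowD D (y i) (K j))) ≤ τ := by
    intro y hy
    rw [← Matrix.det_transpose]
    exact hD K y hy
  have hone : τ ≤ τ * exp (ε : ℤ) := by
    calc τ = τ * 1 := (mul_one τ).symm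
      _ ≤ τ * exp (ε : ℤ) := mul_le_mul' le_rfl (by
        rw [← exp_zero, exp_le_exp]
        positivity)
  rcases hε with hε | hε
  · -- all elements are units
    set y : Fin r → L := fun i => Sum.elim id id (s i) with hy
    set c : Fin r → L := fun i => Sum.elim (fun _ => 1) (fun u => u⁻¹) (s i) with hc
    have h3 : (Matrix.of fun i j => Sum.elim (rowD D) (lrowD D) (s i) (K j)) =
        Matrix.of fun i j => c i * (Matrix.of fun i j => rowD D (y i) (K j)) i j := by
      ext i j
      rw [Matrix.of_apply, Matrix.of_apply, Matrix.of_apply]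
      simp only [hc, hy]
      rcases s i with a | u
      · simp
      · simp [lrowD]
    rw [h3, Matrix.det_mul_column, map_mul, map_prod]
    refine le_trans ?_ hone
    calc _ ≤ 1 * τ := by
          refine mul_le_mul' (Finset.prod_le_one' fun i _ => ?_) (hD' y fun i => ?_)
          · simp only [hc]
            rcases hs : s i with a | u
            · simp
            · simp only [Sum.elim_inr]
              rw [map_inv₀, hε i u hs, inv_one]
          · simp only [hy]
            rcases hs : s i with a | u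
            · exact h1 i a hs
            · exact (hε i u hs).le
      _ = τ := one_mul τ
  · obtain ⟨π, hπ0, hπ⟩ := exists_pi w
    have hπ1 : w.1 π ≤ 1 := by
      rw [hπ, ← exp_zero, exp_le_exp]
      norm_num
    -- the unit parts
    let k : Fin r → ℤ := fun i => Sum.elim (fun _ => 0) (fun u => - log (w.1 u)) (s i)
    let y : Fin r → L := fun i => Sum.elim id (fun u => u * (π ^ (- log (w.1 u)))⁻¹) (s i)
    let c : Fin r → L := fun i => Sum.elim (fun _ => 1)
      (fun u => (u * (π ^ (- log (w.1 u)))⁻¹)⁻¹) (s i)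
    have hunit : ∀ u : L, u ≠ 0 → w.1 (u * (π ^ (- log (w.1 u)))⁻¹) = 1 := by
      intro u hu
      have hwu : w.1 u ≠ 0 := (Valuation.ne_zero_iff _).2 hu
      have hwk : w.1 (π ^ (- log (w.1 u))) = w.1 u := by
        rw [map_zpow₀, hπ, ← exp_zsmul, smul_eq_mul, mul_neg, mul_one, neg_neg, exp_log hwu]
      rw [map_mul, map_inv₀, hwk, mul_inv_cancel₀ hwu]
    have hyi : ∀ i, w.1 (y i) ≤ 1 := by
      intro i
      simp only [y]
      rcases hs : s i with a | u
      · exact h1 i a hs
      · exact (hunit u (h2 i u hs)).le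
    let z : Option (Fin r) → L := fun o => o.elim π y
    let a : Option (Fin r) → L := fun o => o.elim π⁻¹ c
    have hz : ∀ o, w.1 (z o) ≤ 1 := by
      rintro (_ | i)
      · exact hπ1
      · exact hyi i
    have ha : ∀ i, w.1 (a (some i)) ≤ 1 := by
      intro i
      simp only [a, Option.elim_some, c]
      rcases hs : s i with b | u
      · simp
      · simp only [Sum.elim_inr]
        rw [map_inv₀, hunit u (h2 i u hs), inv_one]
    have ha' : w.1 (a none) = exp 1 := by
      simp only [a, Option.elim_none]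
      rw [map_inv₀, hπ, ← exp_neg, neg_neg]
    have h3 : (Matrix.of fun i j => Sum.elim (rowD D) (lrowD D) (s i) (K j)) =
        Matrix.of fun i j => ∑ o : Option (Fin r),
          (fun (i : Fin r) (o : Option (Fin r)) =>
            o.elim ((k i : ℤ) : L) fun i' => if i' = i then 1 else 0) i o *
          (fun (o : Option (Fin r)) (e : E) => a o * rowD D (z o) e) o (K j) := by
      ext i j
      rw [Matrix.of_apply, Matrix.of_apply, Fintype.sum_option]
      simp only [Option.elim_none, Option.elim_some, ite_mul, one_mul, zero_mul,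
        Finset.sum_ite_eq', Finset.mem_univ, if_true, a, z, k, y, c]
      rcases hs : s i with b | u
      · simp
      · simp only [Sum.elim_inr]
        have hu := h2 i u hs
        have hπk : π ^ (- log (w.1 u)) ≠ 0 := zpow_ne_zero _ hπ0
        set u' := u * (π ^ (- log (w.1 u)))⁻¹ with hu'
        have hu'0 : u' ≠ 0 := mul_ne_zero hu (inv_ne_zero hπk)
        have huu : u = u' * π ^ (- log (w.1 u)) := by
          rw [hu', mul_assoc, inv_mul_cancel₀ hπk, mul_one]
        have h4 : lrowD D u = lrowD D u' + ((- log (w.1 u) : ℤ) : L) • lrowD D π := by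
          conv_lhs => rw [huu]
          rw [lrowD_mul D hu'0 hπk, lrowD_zpow D hπ0]
        rw [h4]
        simp only [lrowD, Pi.add_apply, Pi.smul_apply, smul_eq_mul]
        ring
    rw [h3]
    refine det_comb_le w.1 (Λ := Option (Fin r))
      (T := fun (i : Fin r) (o : Option (Fin r)) =>
        o.elim ((k i : ℤ) : L) fun i' => if i' = i then 1 else 0)
      (Y := fun (o : Option (Fin r)) (e : E) => a o * rowD D (z o) e)
      (fun i o => ?_) K fun φ => ?_
    · rcases o with _ | i'
      · exact int_le_one w _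
      · simp only [Option.elim_some]
        split_ifs
        · rw [map_one]
        · rw [map_zero]; exact zero_le
    · by_cases hφ : Function.Injective φ
      · have h4 : (Matrix.of fun i j => a (φ i) * rowD D (z (φ i)) (K j)) =
            Matrix.of fun i j => a (φ i) *
              (Matrix.of fun i j => rowD D (z (φ i)) (K j)) i j := by
          ext i j
          rfl
        rw [h4, Matrix.det_mul_column, map_mul, map_prod, mul_comm τ]
        refine mul_le_mul' ?_ (hD' (fun i => z (φ i)) fun i => hz _)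
        have hexp : (1 : ℤᵐ⁰) ≤ exp (ε : ℤ) := by
          rw [← exp_zero, exp_le_exp]
          positivity
        by_cases hn : ∃ i₀, φ i₀ = none
        · obtain ⟨i₀, hi₀⟩ := hn
          rw [← Finset.mul_prod_erase _ _ (Finset.mem_univ i₀), hi₀, ha']
          calc exp 1 * ∏ i ∈ Finset.univ.erase i₀, w.1 (a (φ i)) ≤ exp 1 * 1 := by
                refine mul_le_mul' le_rfl (Finset.prod_le_one' fun i hi => ?_)
                rcases hφi : φ i with _ | i'
                · exact absurd (hφ (hφi.trans hi₀.symm)) (Finset.ne_of_mem_erase hi)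
                · exact ha i'
            _ ≤ exp (ε : ℤ) := by
                rw [mul_one, exp_le_exp]
                exact_mod_cast hε
        · refine le_trans (Finset.prod_le_one' fun i _ => ?_) hexp
          rcases hφi : φ i with _ | i'
          · exact absurd ⟨i, hφi⟩ hn
          · exact ha i'
      · obtain ⟨i, j, hij, hne⟩ : ∃ i j, φ i = φ j ∧ i ≠ j := by
          unfold Function.Injective at hφ
          push Not at hφ
          exact hφ
        have h4 : (Matrix.of fun i j => a (φ i) * rowD D (z (φ i)) (K j)).det = 0 := by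
          refine Matrix.det_zero_of_row_eq hne ?_
          funext l
          simp only [Matrix.of_apply, hij]
        rw [h4, map_zero]
        exact zero_le

/-- **The local bound** for the minors of rows of integral elements, rows of coordinates of a point
and logarithmic rows. -/
theorem mix_le (w : Place κ L) {r : ℕ} {τ : ℤᵐ⁰}
    (hD : ∀ (K : Fin r → E) (y : Fin r → L), (∀ j, w.1 (y j) ≤ 1) →
      w.1 (Matrix.det (Matrix.of fun i j => D (K i) (y j))) ≤ τ)
    {n : ℕ} {x : Fin n → L} (hx : 1 ≤ vmax w.1 x) {J : Finset (Fin n)} {Λ : Type*} {η : Λ → L}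
    (hη : ∀ k, η k ≠ 0) {t : Λ → ℕ} {ε : ℕ} (hε : (∀ k, w.1 (η k) = vmax w.1 x ^ t k) ∨ 1 ≤ ε)
    (K : Fin r → E) (s : Fin r → L ⊕ (↥J ⊕ Λ)) (hs : ∀ i y, s i = Sum.inl y → w.1 y ≤ 1) :
    w.1 (Matrix.det (Matrix.of fun i j => Sum.elim (rowD D) (Sum.elim (fun j : ↥J =>
      rowD D (x j.1)) (fun k => lrowD D (η k))) (s i) (K j))) ≤
      vmax w.1 x ^ (J.card + 1) * (τ * exp (ε : ℤ)) := by
  classical
  set v := w.1 with hv
  have hx0 : x ≠ 0 := by
    intro h0
    rw [(vmax_eq_zero_iff v).2 h0] at hx
    exact absurd hx (by simp)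
  -- repeated coordinates
  by_cases hinj : ∀ i i' (j : ↥J), s i = Sum.inr (Sum.inl j) → s i' = Sum.inr (Sum.inl j) → i = i'
  swap
  · push Not at hinj
    obtain ⟨i, i', j, h1, h2, hne⟩ := hinj
    have h4 : (Matrix.of fun i j => Sum.elim (rowD D) (Sum.elim (fun j : ↥J =>
        rowD D (x j.1)) (fun k => lrowD D (η k))) (s i) (K j)).det = 0 := by
      refine Matrix.det_zero_of_row_eq hne ?_
      funext l
      simp only [Matrix.of_apply, h1, h2]
    rw [h4, map_zero]
    exact zero_le
  obtain ⟨l, hl0, hlmax, hle⟩ := exists_vmax v hx0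
  have hvl0 : v (x l) ≠ 0 := (Valuation.ne_zero_iff _).2 hl0
  have hone : 1 ≤ v (x l) := by rw [← hlmax]; exact hx
  have hy' : v (x l)⁻¹ ≤ 1 := by
    rw [map_inv₀]
    exact inv_le_one_of_one_le₀ hone
  have hyi : ∀ i, v (x i * (x l)⁻¹) ≤ 1 := by
    intro i
    rw [map_mul, map_inv₀]
    calc v (x i) * (v (x l))⁻¹ ≤ v (x l) * (v (x l))⁻¹ := mul_le_mul_left (hle i) _
      _ = 1 := mul_inv_cancel₀ hvl0
  have hp : (x l)⁻¹ ≠ 0 := inv_ne_zero hl0
  -- the relations between the rows
  have hrel : ∀ i K, rowD D (x i) K = x l * (rowD D (x i * (x l)⁻¹) K -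
      (x i * (x l)⁻¹) / (x l)⁻¹ * rowD D (x l)⁻¹ K) := by
    intro i K
    have h1 : x i = (x i * (x l)⁻¹) * x l := by
      rw [mul_assoc, inv_mul_cancel₀ hl0, mul_one]
    have h2 : rowD D (x i) K = (x i * (x l)⁻¹) * rowD D (x l) K +
        x l * rowD D (x i * (x l)⁻¹) K := by
      conv_lhs => rw [h1]
      rw [rowD_mul]
      simp [Pi.add_apply, Pi.smul_apply, smul_eq_mul]
    have h3 : rowD D (x l) K = - x l ^ 2 * rowD D (x l)⁻¹ K := congrFun (rowD_inv D hl0) K
    rw [h2, h3, div_inv_eq_mul]
    ring
  let ζ : Λ → L := fun k => η k * ((x l)⁻¹) ^ t k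
  have hζ0 : ∀ k, ζ k ≠ 0 := fun k => mul_ne_zero (hη k) (pow_ne_zero _ hp)
  have hlrel : ∀ k K, lrowD D (η k) K = lrowD D (ζ k) K -
      (t k : L) / (x l)⁻¹ * rowD D (x l)⁻¹ K := by
    intro k K
    have h1 : lrowD D (ζ k) = lrowD D (η k) + (t k : L) • lrowD D (x l)⁻¹ := by
      rw [lrowD_mul D (hη k) (pow_ne_zero _ hp), lrowD_pow D hp]
    rw [h1]
    simp only [lrowD, Pi.add_apply, Pi.smul_apply, smul_eq_mul, inv_inv, div_inv_eq_mul]
    ring
  have hζε : (∀ k, v (ζ k) = 1) ∨ 1 ≤ ε := by
    rcases hε with h1 | h1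
    · left
      intro k
      simp only [ζ]
      rw [map_mul, map_pow, map_inv₀, h1 k, hlmax, inv_pow,
        mul_inv_cancel₀ (pow_ne_zero _ hvl0)]
    · exact Or.inr h1
  set q : Fin r → L := fun i => Sum.elim (fun _ => 0) (Sum.elim (fun j : ↥J => x j.1 * (x l)⁻¹)
    (fun k => (t k : L))) (s i) with hq
  set y : Fin r → L ⊕ L := fun i => Sum.elim Sum.inl (Sum.elim
    (fun j : ↥J => Sum.inl (x j.1 * (x l)⁻¹)) (fun k => Sum.inr (ζ k))) (s i) with hy
  set c : Fin r → L := fun i => Sum.elim (fun _ => 1) (Sum.elim (fun _ : ↥J => x l)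
    (fun _ => 1)) (s i) with hc
  have hrow : ∀ i K, Sum.elim (rowD D) (Sum.elim (fun j : ↥J => rowD D (x j.1))
      (fun k => lrowD D (η k))) (s i) K =
      c i * (Sum.elim (rowD D) (lrowD D) (y i) K - q i / (x l)⁻¹ * rowD D (x l)⁻¹ K) := by
    intro i K
    simp only [hq, hy, hc]
    rcases s i with b | j | k
    · simp
    · exact hrel j.1 K
    · simp only [Sum.elim_inr, one_mul]
      exact hlrel k K
  set M : Matrix (Fin (r + 1)) (Fin (r + 1)) L := Matrix.of (Fin.cons
    (Fin.cons (x l)⁻¹ (fun j => rowD D (x l)⁻¹ (K j)))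
    (fun i => (Fin.cons (q i) (fun j => Sum.elim (rowD D) (lrowD D) (y i) (K j)) :
      Fin (r + 1) → L))) with hM
  have hdet := det_border hp q (fun j => rowD D (x l)⁻¹ (K j))
    (fun i j => Sum.elim (rowD D) (lrowD D) (y i) (K j))
  have hdet' : M.det = (x l)⁻¹ * (Matrix.of fun i j => Sum.elim (rowD D) (lrowD D) (y i) (K j) -
      q i / (x l)⁻¹ * rowD D (x l)⁻¹ (K j)).det := hdet
  have hbound : v M.det ≤ τ * exp (ε : ℤ) := by
    rw [← one_mul (τ * exp (ε : ℤ))]
    refine det_column_le v M (fun i => ?_) (fun i => ?_)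
    · refine Fin.cases ?_ (fun i => ?_) i
      · exact hy'
      · simp only [hM, Matrix.of_apply, Fin.cons_succ, Fin.cons_zero, hq]
        rcases s i with b | j' | k
        · simp
        · exact hyi _
        · exact natCast_mem v.integer _
    · set z : Fin (r + 1) → L ⊕ L := Fin.cons (Sum.inl (x l)⁻¹) y with hz
      have h1 : M.submatrix i.succAbove Fin.succ =
          Matrix.of fun i' j => Sum.elim (rowD D) (lrowD D) (z (i.succAbove i')) (K j) := by
        ext i' j
        rw [Matrix.submatrix_apply, Matrix.of_apply, hM, Matrix.of_apply]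
        refine Fin.cases ?_ (fun i₂ => ?_) (i.succAbove i')
        · rfl
        · rfl
      rw [h1]
      refine minor_log_le w hD K (fun i' => z (i.succAbove i')) ?_ ?_ ?_
      · intro i' a
        refine Fin.cases ?_ (fun i₂ => ?_) (i.succAbove i')
        · intro h2
          simp only [hz, Fin.cons_zero, Sum.inl.injEq] at h2
          rw [← h2]
          exact hy'
        · intro h2
          simp only [hz, Fin.cons_succ, hy] at h2
          rcases hsi : s i₂ with b | j' | k
          · rw [hsi] at h2
            simp only [Sum.elim_inl, Sum.inl.injEq] at h2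
            rw [← h2]
            exact hs i₂ b hsi
          · rw [hsi] at h2
            simp only [Sum.elim_inr, Sum.elim_inl, Sum.inl.injEq] at h2
            rw [← h2]
            exact hyi _
          · rw [hsi] at h2
            simp at h2
      · intro i' a
        refine Fin.cases ?_ (fun i₂ => ?_) (i.succAbove i')
        · intro h2
          simp only [hz, Fin.cons_zero, reduceCtorEq] at h2
        · intro h2
          simp only [hz, Fin.cons_succ, hy] at h2
          rcases hsi : s i₂ with b | j' | k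
          · rw [hsi] at h2
            simp at h2
          · rw [hsi] at h2
            simp at h2
          · rw [hsi] at h2
            simp only [Sum.elim_inr, Sum.inr.injEq] at h2
            rw [← h2]
            exact hζ0 k
      · refine hζε.imp_left fun hζ1 => ?_
        intro i' a
        refine Fin.cases ?_ (fun i₂ => ?_) (i.succAbove i')
        · intro h2
          simp only [hz, Fin.cons_zero, reduceCtorEq] at h2
        · intro h2
          simp only [hz, Fin.cons_succ, hy] at h2
          rcases hsi : s i₂ with b | j' | k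
          · rw [hsi] at h2
            simp at h2
          · rw [hsi] at h2
            simp at h2
          · rw [hsi] at h2
            simp only [Sum.elim_inr, Sum.inr.injEq] at h2
            rw [← h2]
            exact hζ1 k
  have hfinal : (Matrix.of fun i j => Sum.elim (rowD D) (Sum.elim (fun j : ↥J =>
      rowD D (x j.1)) (fun k => lrowD D (η k))) (s i) (K j)).det = (∏ i, c i) * (x l * M.det) := by
    have h1 : (Matrix.of fun i j => Sum.elim (rowD D) (Sum.elim (fun j : ↥J =>
        rowD D (x j.1)) (fun k => lrowD D (η k))) (s i) (K j)) =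
        Matrix.of fun i j => c i * (Matrix.of fun i j => Sum.elim (rowD D) (lrowD D) (y i) (K j) -
          q i / (x l)⁻¹ * rowD D (x l)⁻¹ (K j)) i j := by
      ext i j
      rw [Matrix.of_apply, Matrix.of_apply, hrow, Matrix.of_apply]
    rw [h1, Matrix.det_mul_column, hdet', ← mul_assoc (x l), mul_inv_cancel₀ hl0, one_mul]
  rw [hfinal, map_mul, map_prod, map_mul, pow_succ, mul_assoc, hlmax]
  refine mul_le_mul' ?_ (mul_le_mul' le_rfl hbound)
  -- the number of the factors
  have h1 : ∀ i, v (c i) = if ∃ j, s i = Sum.inr (Sum.inl j) then v (x l) else 1 := by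
    intro i
    simp only [hc]
    rcases s i with b | j | k
    · simp
    · simp
    · simp
  rw [Finset.prod_congr rfl fun i _ => h1 i, Finset.prod_ite, Finset.prod_const,
    Finset.prod_const_one, mul_one]
  refine pow_le_pow_right' hone ?_
  have h2 : (Finset.univ.filter fun i => ∃ j, s i = Sum.inr (Sum.inl j)).card ≤
      (Finset.univ.map ⟨fun j : ↥J => (Sum.inr (Sum.inl j) : L ⊕ (↥J ⊕ Λ)),
        fun a b h => by simpa using h⟩).card := by
    refine Finset.card_le_card_of_injOn s ?_ ?_
    · intro i hi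
      rw [Finset.mem_coe, Finset.mem_filter] at hi
      obtain ⟨j, hj⟩ := hi.2
      rw [Finset.mem_coe, Finset.mem_map]
      exact ⟨j, Finset.mem_univ _, hj.symm⟩
    · intro i hi i' hi' hii
      rw [Finset.mem_coe, Finset.mem_filter] at hi
      obtain ⟨j, hj⟩ := hi.2
      exact hinj i i' j hj (hii.symm.trans hj)
  rwa [Finset.card_map, Finset.card_univ, Fintype.card_coe] at h2

end

end Pool.Agent.Lib.MP_44a246_ntF
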