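import Mathlib
import Pool.Agent.Lib.MP_44a246_ntF.F20

/-!
Upper bounds for the heights of the spaces spanned by rows and logarithmic rows.
-/

namespace Pool.Agent.Lib.MP_44a246_ntF

open Pool.Agent.Lib.MP_44a246_nt
open Pool.Agent.Lib.MP_44a246_ntL
open Pool.Agent.Lib.MP_44a246_ntS
open Pool.Agent.Lib.MP_44a246_ntX
open Pool.Agent.Lib.MP_e52354_nt
open WithZero Module

section

variable {L : Type*} [Field L] (v : Valuation L ℤᵐ⁰)
  {σ : Type*} [Fintype σ] [DecidableEq σ]

/-- **The local bound** for the minors of the rows of the coordinates of a line in a chart and of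
further vectors. -/
theorem pl_chart_ext_le {E Ext : Type*} [Fintype E] [Fintype Ext] [DecidableEq Ext] {r : ℕ}
    (Q : Fin 2 → σ → L) {D : E → Derivation ℤ L L} {Ξ : Ext → E → L} {c : ℤᵐ⁰}
    (hmix : ∀ (K : Fin r → E) (t : Fin r → L ⊕ Ext), (∀ i y, t i = Sum.inl y → v y ≤ 1) →
      v (Matrix.det (Matrix.of fun i j => Sum.elim (rowD D) Ξ (t i) (K j))) ≤ c)
    (s : Fin r → (Fin 2 × (Fin 2 ⊕ σ)) ⊕ Ext) :
    pl v (fun i => Sum.elim (fun p : Fin 2 × (Fin 2 ⊕ σ) => rowD D (BB Q p.1 p.2)) Ξ (s i)) ≤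
      pl v (BB Q) ^ (Fintype.card σ + 2) * c := by
  obtain ⟨g, k, hg, hred⟩ := exists_red v (BB_indep (Q := Q))
  have hk : ∀ a b, BP Q g a (k b) = if a = b then 1 else 0 := hred.piv
  have hint : ∀ a m, v (BP Q g a m) ≤ 1 := hred.int
  set A : Matrix ((Fin 2 × (Fin 2 ⊕ σ)) ⊕ Ext) ((Fin 2 × (Fin 2 ⊕ σ)) ⊕ Ext) L :=
    Matrix.fromBlocks (AA Q k) 0 0 1 with hA
  set G : Matrix ((Fin 2 × (Fin 2 ⊕ σ)) ⊕ Ext) ((Fin 2 × (Fin 2 ⊕ σ)) ⊕ Ext) L :=
    Matrix.fromBlocks (GG Q g k) 0 0 1 with hG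
  have hAG : A * G = 1 := by
    rw [hA, hG, Matrix.fromBlocks_multiply, AA_mul_GG hk]
    simp
  have hGi : ∀ i j, v (G i j) ≤ 1 := by
    rintro (p | t) (q | t')
    · exact val_GG_le v hint p q
    · rw [hG, Matrix.fromBlocks_apply₁₂, Matrix.zero_apply, map_zero]; exact zero_le
    · rw [hG, Matrix.fromBlocks_apply₂₁, Matrix.zero_apply, map_zero]; exact zero_le
    · rw [hG, Matrix.fromBlocks_apply₂₂, Matrix.one_apply]
      split_ifs
      · rw [map_one]
      · rw [map_zero]; exact zero_le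
  have hdet : v A.det ≤ pl v (BB Q) ^ (Fintype.card σ + 2) := by
    rw [hA, Matrix.det_fromBlocks_zero₂₁, Matrix.det_one, mul_one, det_AA, map_pow]
    refine le_of_eq ?_
    congr 1
    have h1 := congrArg Matrix.det (g_mul_NN2 hk)
    rw [Matrix.det_mul, Matrix.det_one] at h1
    have h2 := congrArg v h1
    rw [map_mul, map_one] at h2
    have h3 : pl v (fun i m => ∑ j, g i j * BB Q j m) = 1 := hred.pl_eq
    rw [pl_mul] at h3
    have h4 : v g.det ≠ 0 := (v.ne_zero_iff).mpr hg
    exact mul_left_cancel₀ h4 (h2.trans h3.symm)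
  have hfun : (fun (i : Fin r) => Sum.elim (fun p : Fin 2 × (Fin 2 ⊕ σ) =>
      rowD D (BB Q p.1 p.2)) Ξ (s i)) = fun i K => ∑ j, A (s i) j *
        (fun (j : (Fin 2 × (Fin 2 ⊕ σ)) ⊕ Ext) (K : E) => Sum.elim
          (fun p : Fin 2 × (Fin 2 ⊕ σ) => rowD D (BP Q g p.1 p.2)) Ξ j K) j K := by
    funext i K
    rw [Fintype.sum_sum_type]
    rcases s i with p | t
    · simp only [Sum.elim_inl, Sum.elim_inr, hA, Matrix.fromBlocks_apply₁₁,
        Matrix.fromBlocks_apply₁₂, Matrix.zero_apply, zero_mul, Finset.sum_const_zero, add_zero]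
      exact der_AA hk (D K) p.1 p.2
    · simp only [Sum.elim_inl, Sum.elim_inr, hA, Matrix.fromBlocks_apply₂₁,
        Matrix.fromBlocks_apply₂₂, Matrix.zero_apply, zero_mul, Finset.sum_const_zero, zero_add,
        Matrix.one_apply, ite_mul, one_mul, Finset.sum_ite_eq, Finset.mem_univ, if_true]
  rw [hfun]
  refine le_trans (pl_sub_le v hAG hGi (c := c) (fun t K => ?_) s) (mul_le_mul' hdet le_rfl)
  refine le_trans (le_of_eq ?_) (hmix K (fun i => Sum.map
    (fun p : Fin 2 × (Fin 2 ⊕ σ) => BP Q g p.1 p.2) id (t i)) fun i y hi => ?_)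
  · congr 2
    ext i j
    rw [Matrix.of_apply, Matrix.of_apply]
    rcases t i with p | e
    · rfl
    · rfl
  · rcases ht : t i with p | e
    · rw [ht] at hi
      simp only [Sum.map_inl, Sum.inl.injEq] at hi
      rw [← hi]
      exact hint _ _
    · rw [ht] at hi
      simp at hi

end

section

variable {κ L : Type*} [Field κ] [IsAlgClosed κ] [CharZero κ] [Field L] [Algebra κ L]
  {E : Type*} [Fintype E] {D : E → Derivation ℤ L L} {δ ρ : Place κ L → ℕ}

omit [IsAlgClosed κ] [CharZero κ] [Fintype E] in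
/-- the minors with the roles of rows and columns exchanged -/
theorem minor_t (hD : MinorBound κ D Set.univ δ ρ) (w : Place κ L) (r : ℕ) (K : Fin r → E)
    (y : Fin r → L) (hy : ∀ j, w.1 (y j) ≤ 1) :
    w.1 (Matrix.det (Matrix.of fun i j => D (K i) (y j))) ≤ exp ((r * δ w + ρ w : ℕ) : ℤ) :=
  hD w r K y (fun _ => Set.mem_univ _) hy

/-- **The height of the space spanned by the rows of the coordinates of a point** and logarithmic
rows. -/
theorem ht_rows_log_le (h : IsFF κ L) (hδ : (Function.support δ).Finite)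
    (hρ : (Function.support ρ).Finite) (hD : MinorBound κ D Set.univ δ ρ) {n : ℕ} {x : Fin n → L}
    (hx : ∀ w : Place κ L, 1 ≤ vmax w.1 x) (hx0 : x ≠ 0) {J : Finset (Fin n)} {γ Λ : Type*}
    [Finite γ] [Finite Λ] {β : γ → L} (hβ : ∀ t, ∀ w : Place κ L, w.1 (β t) ≤ 1) {η : Λ → L}
    (hη : ∀ k, η k ≠ 0) {t : Λ → ℕ} {ε : Place κ L → ℕ} (hε : (Function.support ε).Finite)
    (hηε : ∀ w : Place κ L, (∀ k, w.1 (η k) = vmax w.1 x ^ t k) ∨ 1 ≤ ε w)
    {U : Submodule L (E → L)} (hU : U = Submodule.span L (Set.range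
      fun p : ↥J ⊕ (γ ⊕ Λ) => Sum.elim (fun j : ↥J => rowD D (x j.1))
        (Sum.elim (fun t => rowD D (β t)) (fun k => lrowD D (η k))) p)) :
    ht κ U ≤ (J.card + 1) * height κ x + finrank L U * ∑ᶠ w, (δ w : ℤ) +
        (∑ᶠ w, (ρ w : ℤ) + ∑ᶠ w, (ε w : ℤ)) := by
  subst hU
  have s1 : (Function.support fun w : Place κ L => ((J.card : ℤ) + 1) *
      log (vmax w.1 x)).Finite := by
    refine (h.vmax_support hx0).subset fun w hw h1 => hw ?_
    simp only at h1 ⊢
    rw [h1, mul_zero]
  have s2 : (Function.support fun w : Place κ L => (ρ w : ℤ)).Finite := by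
    refine hρ.subset fun w hw h1 => hw ?_
    simp only
    rw [h1, Nat.cast_zero]
  have s3 : (Function.support fun w : Place κ L => (ε w : ℤ)).Finite := by
    refine hε.subset fun w hw h1 => hw ?_
    simp only
    rw [h1, Nat.cast_zero]
  have s23 := (s2.union s3).subset (Function.support_add _ _)
  have h1 := ht_span_le h (fun p : ↥J ⊕ (γ ⊕ Λ) => Sum.elim (fun j : ↥J => rowD D (x j.1))
      (Sum.elim (fun t => rowD D (β t)) (fun k => lrowD D (η k))) p)
    (g := fun w => ((J.card : ℤ) + 1) * log (vmax w.1 x) + ((ρ w : ℤ) + (ε w : ℤ)))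
    (δ := fun w => (δ w : ℤ))
    ((s1.union s23).subset (Function.support_add _ _)) (by
      refine hδ.subset fun w hw h1 => hw ?_
      simp only
      rw [h1, Nat.cast_zero]) (by
      intro w r s _
      have n1 : vmax w.1 x ≠ 0 := by
        rw [Ne, vmax_eq_zero_iff]
        exact hx0
      have e1 : (exp (((J.card : ℤ) + 1) * log (vmax w.1 x)) : ℤᵐ⁰) =
          vmax w.1 x ^ (J.card + 1) := by
        rw [show ((J.card : ℤ) + 1) * log (vmax w.1 x) = (J.card + 1) • log (vmax w.1 x) by simp,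
          exp_nsmul, exp_log n1]
      refine le_trans (vmax_le w.1 fun K => ?_) (le_of_eq ?_) (b := vmax w.1 x ^ (J.card + 1) *
        (exp ((r * δ w + ρ w : ℕ) : ℤ) * exp ((ε w : ℕ) : ℤ)))
      · have h2 := mix_le w (D := D) (minor_t hD w r) (hx w) (J := J) hη (hηε w) K
          (fun i => Sum.elim (fun j => Sum.inr (Sum.inl j)) (Sum.elim (fun t => Sum.inl (β t))
            (fun k => Sum.inr (Sum.inr k))) (s i)) ?_
        · refine le_trans (le_of_eq ?_) h2
          congr 2
          ext i j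
          rw [Matrix.of_apply, Matrix.of_apply]
          beta_reduce
          rcases s i with j' | t' | k
          · rfl
          · rfl
          · rfl
        · intro i y hi
          rcases hs : s i with j' | t' | k
          · rw [hs] at hi
            simp at hi
          · rw [hs] at hi
            simp only [Sum.elim_inr, Sum.elim_inl, Sum.inl.injEq] at hi
            rw [← hi]
            exact hβ t' w
          · rw [hs] at hi
            simp at hi
      · rw [← e1, ← exp_add, ← exp_add]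
        congr 1
        push_cast
        ring)
  have e1 : ∑ᶠ w : Place κ L, (((J.card : ℤ) + 1) * log (vmax w.1 x) + ((ρ w : ℤ) + (ε w : ℤ))) =
      (J.card + 1) * height κ x + (∑ᶠ w, (ρ w : ℤ) + ∑ᶠ w, (ε w : ℤ)) := by
    rw [finsum_add_distrib s1 s23, finsum_add_distrib s2 s3, ← mul_finsum]
    rfl
  rw [e1] at h1
  linarith

/-- **The height of the space spanned by the rows of the coordinates of a line in a chart** and of
further vectors. -/
theorem ht_chart_ext_le (h : IsFF κ L) (hδ : (Function.support δ).Finite)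
    {ι Ext : Type*} [Fintype ι] [Fintype Ext]
    {F : Submodule L (ι → L)} {i₀ i₁ : ι} {e f : ι → L} (hC : Chart F i₀ i₁ e f)
    {Ξ : Ext → E → L} {g : Place κ L → ℤ} (hg : (Function.support g).Finite)
    (hmix : ∀ (w : Place κ L) (r : ℕ) (K : Fin r → E) (t : Fin r → L ⊕ Ext),
      (∀ i y, t i = Sum.inl y → w.1 y ≤ 1) →
      w.1 (Matrix.det (Matrix.of fun i j => Sum.elim (rowD D) Ξ (t i) (K j))) ≤
        exp (g w + r * (δ w : ℤ)))
    {V : Submodule L (E → L)}
    (hV : V = Submodule.span L (Set.range fun p : (Fin 2 × ι) ⊕ Ext =>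
      Sum.elim (fun p : Fin 2 × ι => rowD D ((![e, f] : Fin 2 → ι → L) p.1 p.2)) Ξ p)) :
    ht κ V ≤ Fintype.card ι * ht κ F + ∑ᶠ w, g w + finrank L V * ∑ᶠ w, (δ w : ℤ) := by
  classical
  subst hV
  obtain ⟨hef, hspan, -⟩ := hC.finrank_eq
  have hne := hC.ne
  -- the coordinates which are not in the chart
  let σ : Type _ := {j : ι // j ≠ i₀ ∧ j ≠ i₁}
  let θ : Fin 2 ⊕ σ → ι := Sum.elim ![i₀, i₁] Subtype.val
  have hθs : Function.Surjective θ := by
    intro j
    by_cases h0 : j = i₀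
    · exact ⟨Sum.inl 0, h0.symm⟩
    · by_cases h1 : j = i₁
      · exact ⟨Sum.inl 1, h1.symm⟩
      · exact ⟨Sum.inr ⟨j, h0, h1⟩, rfl⟩
  have hθi : Function.Injective θ := by
    rintro (a | a) (b | b) hab
    · fin_cases a <;> fin_cases b
      · rfl
      · exact absurd hab hne
      · exact absurd hab hne.symm
      · rfl
    · exfalso
      fin_cases a
      · exact b.2.1 hab.symm
      · exact b.2.2 hab.symm
    · exfalso
      fin_cases b
      · exact a.2.1 hab
      · exact a.2.2 hab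
    · exact congrArg Sum.inr (Subtype.ext hab)
  let θe : Fin 2 ⊕ σ ≃ ι := Equiv.ofBijective θ ⟨hθi, hθs⟩
  have hcard : Fintype.card σ + 2 = Fintype.card ι := by
    rw [← Fintype.card_congr θe, Fintype.card_sum, Fintype.card_fin]
    omega
  let Q : Fin 2 → σ → L := fun a j => (![e, f] : Fin 2 → ι → L) a j.1
  have hBB : ∀ a m, BB Q a m = (![e, f] : Fin 2 → ι → L) a (θe m) := by
    intro a m
    rcases m with b | j
    · fin_cases a <;> fin_cases b
      · exact hC.ek.symm
      · exact hC.el.symm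
      · exact hC.fk.symm
      · exact hC.fl.symm
    · rfl
  have hpl : ∀ w : Place κ L, pl w.1 (BB Q) ≤ pl w.1 ![e, f] := by
    intro w
    refine vmax_le w.1 fun p => ?_
    have h1 := le_vmax w.1 (fun p : Fin 2 → ι => (Matrix.of fun i j =>
      (![e, f] : Fin 2 → ι → L) i (p j)).det) (fun j => θe (p j))
    refine le_trans (le_of_eq ?_) h1
    congr 2
    ext i j
    exact hBB i (p j)
  have hF : ht κ F = ∑ᶠ w : Place κ L, log (pl w.1 ![e, f]) := by
    rw [← ht_span h hef, hspan]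
  have s1 : (Function.support fun w : Place κ L => (Fintype.card ι : ℤ) *
      log (pl w.1 ![e, f])).Finite := by
    refine (pl_support h hef).subset fun w hw h1 => hw ?_
    simp only at h1 ⊢
    rw [h1, mul_zero]
  have s3 : (Function.support fun w : Place κ L => (δ w : ℤ)).Finite := by
    refine hδ.subset fun w hw h1 => hw ?_
    simp only
    rw [h1, Nat.cast_zero]
  have s12 := (s1.union hg).subset (Function.support_add _ _)
  have key := ht_span_le h (fun p : (Fin 2 × ι) ⊕ Ext =>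
      Sum.elim (fun p : Fin 2 × ι => rowD D ((![e, f] : Fin 2 → ι → L) p.1 p.2)) Ξ p)
    (g := fun w => (Fintype.card ι : ℤ) * log (pl w.1 ![e, f]) + g w)
    (δ := fun w => (δ w : ℤ)) s12 s3 fun w r s hs => ?_
  · have e1 : ∑ᶠ w : Place κ L, ((Fintype.card ι : ℤ) * log (pl w.1 ![e, f]) + g w) =
        Fintype.card ι * ht κ F + ∑ᶠ w, g w := by
      rw [finsum_add_distrib s1 hg, hF, mul_finsum]
    rw [e1] at key
    exact key
  · -- the local bound
    have h1 := pl_chart_ext_le w.1 Q (D := D) (r := r) (Ξ := Ξ) (hmix w r)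
      (fun i => Sum.map (Prod.map id θe.symm) id (s i))
    have h2 : (fun (i : Fin r) => Sum.elim (fun p : Fin 2 × (Fin 2 ⊕ σ) =>
        rowD D (BB Q p.1 p.2)) Ξ (Sum.map (Prod.map id θe.symm) id (s i))) =
        fun i => Sum.elim (fun p : Fin 2 × ι => rowD D ((![e, f] : Fin 2 → ι → L) p.1 p.2)) Ξ
          (s i) := by
      funext i
      rcases s i with p | t
      · simp only [Sum.map_inl, Sum.elim_inl, Prod.map_fst, Prod.map_snd, id, hBB,
          Equiv.apply_symm_apply]
      · rfl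
    rw [h2, hcard] at h1
    have n1 : pl w.1 ![e, f] ≠ 0 := pl_ne_zero w.1 hef
    refine h1.trans ?_
    have e1 : (exp ((Fintype.card ι : ℤ) * log (pl w.1 ![e, f])) : ℤᵐ⁰) =
        pl w.1 ![e, f] ^ Fintype.card ι := by
      rw [show (Fintype.card ι : ℤ) * log (pl w.1 ![e, f]) =
        Fintype.card ι • log (pl w.1 ![e, f]) by simp, exp_nsmul, exp_log n1]
    calc pl w.1 (BB Q) ^ Fintype.card ι * exp (g w + r * (δ w : ℤ))
        ≤ pl w.1 ![e, f] ^ Fintype.card ι * exp (g w + r * (δ w : ℤ)) :=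
          mul_le_mul' (pow_le_pow_left' (hpl w) _) le_rfl
      _ = exp ((Fintype.card ι : ℤ) * log (pl w.1 ![e, f]) + g w + r * (δ w : ℤ)) := by
          rw [← e1, ← exp_add]
          congr 1
          ring

end

end Pool.Agent.Lib.MP_44a246_ntF
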