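import Mathlib
import Pool.Agent.Lib.MP_44a246_ntF.F08

/-!
The spaces attached to a line through the point.
-/

namespace Pool.Agent.Lib.MP_44a246_ntF

open Pool.Agent.Lib.MP_44a246_nt
open Pool.Agent.Lib.MP_44a246_ntL
open Pool.Agent.Lib.MP_44a246_ntS
open Pool.Agent.Lib.MP_44a246_ntX
open Pool.Agent.Lib.MP_e52354_nt
open WithZero Module

section

variable {κ L : Type*} [Field κ] [IsAlgClosed κ] [CharZero κ] [Field L] [Algebra κ L]

/-- a space of rank two with small height which contains a given space -/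
theorem exists_rank_two (h : IsFF κ L) {ι : Type*} [Fintype ι] {F₀ : Submodule L (ι → L)}
    {y : ι → L} (hy : y ∈ F₀) {i₀ j₀ : ι} (hy0 : y i₀ ≠ 0) (hij : j₀ ≠ i₀)
    (hF : finrank L F₀ ≤ 2) :
    ∃ F : Submodule L (ι → L), F₀ ≤ F ∧ finrank L F = 2 ∧ ht κ F ≤ ht κ F₀ := by
  classical
  by_cases h2 : finrank L F₀ = 2
  · exact ⟨F₀, le_rfl, h2, le_rfl⟩
  have hyne : y ≠ 0 := by
    intro h0
    rw [h0] at hy0
    exact hy0 rfl
  have h1 : F₀ = Submodule.span L {y} := by
    symm
    apply Submodule.eq_of_le_of_finrank_le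
    · rwa [Submodule.span_singleton_le_iff_mem]
    · rw [finrank_span_singleton hyne]
      omega
  set u : ι → L := Pi.single j₀ 1 with hu
  have hune : u ≠ 0 := by
    intro h0
    have h3 := congrFun h0 j₀
    rw [hu, Pi.single_eq_same] at h3
    exact one_ne_zero h3
  have hhu : ht κ (Submodule.span L {u}) = 0 := by
    rw [ht_single h hune]
    unfold height
    rw [finsum_eq_zero_of_forall_eq_zero]
    intro w
    have h3 : vmax w.1 u = 1 := by
      refine le_antisymm (vmax_le w.1 fun j => ?_) ?_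
      · rw [hu, Pi.single_apply]
        split_ifs
        · rw [map_one]
        · rw [map_zero]; exact zero_le
      · have h4 := le_vmax w.1 u j₀
        rwa [hu, Pi.single_eq_same, map_one, ← hu] at h4
    rw [h3, log_one]
  refine ⟨F₀ ⊔ Submodule.span L {u}, le_sup_left, ?_, ?_⟩
  · apply le_antisymm
    · refine (Submodule.finrank_add_le_finrank_add_finrank _ _).trans ?_
      rw [h1, finrank_span_singleton hyne, finrank_span_singleton hune]
    · have h3 : F₀ < F₀ ⊔ Submodule.span L {u} := by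
        refine lt_of_le_of_ne le_sup_left fun h4 => ?_
        have h5 : u ∈ F₀ := by
          rw [h4]
          exact Submodule.mem_sup_right (Submodule.mem_span_singleton_self u)
        rw [h1, Submodule.mem_span_singleton] at h5
        obtain ⟨c, hc⟩ := h5
        have h6 := congrFun hc i₀
        rw [Pi.smul_apply, smul_eq_mul, hu, Pi.single_eq_of_ne hij.symm, mul_eq_zero] at h6
        rcases h6 with h6 | h6
        · rw [h6, zero_smul] at hc
          exact hune hc.symm
        · exact hy0 h6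
      have h4 := Submodule.finrank_lt_finrank_of_lt h3
      have h5 : finrank L F₀ = 1 := by rw [h1, finrank_span_singleton hyne]
      omega
  · have h3 := ht_sup_le h F₀ (Submodule.span L {u})
    linarith

variable {E : Type*} [Fintype E] {D : E → Derivation ℤ L L} {δ ρ : Place κ L → ℕ}

/-- **The spaces attached to a line through the point.** -/
theorem exists_spaces (h : IsFF κ L) (hδ : (Function.support δ).Finite)
    (hρ : (Function.support ρ).Finite) (hD : MinorBound κ D Set.univ δ ρ) {n : ℕ} {x : Fin n → L}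
    (hx1 : ∀ w : Place κ L, 1 ≤ vmax w.1 x) {ξ₀ : Fin n → κ}
    (h0 : ∑ j, algebraMap κ L (ξ₀ j) * x j = 1) {J : Finset (Fin n)} (hJ : J.Nonempty)
    {γ : Type*} [Fintype γ] {β : γ → L} (hβ : ∀ t, ∀ w : Place κ L, w.1 (β t) ≤ 1)
    {F : Submodule L (Fin n → L)} (hxF : x ∈ F) (hF : finrank L F = 2) :
    ∃ V' V : Submodule L (E → L), V' ≤ V ∧
      Submodule.span L (Set.range fun p : ↥J ⊕ γ =>
        rowD D (Sum.elim (fun j : ↥J => x j.1) β p)) ≤ V ∧
      finrank L V ≤ finrank L V' + 1 ∧ finrank L V' + 2 ≤ 2 * J.card + Fintype.card γ ∧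
      ht κ V' ≤ (J.card + 1) * ht κ F + finrank L V' * ∑ᶠ w, (δ w : ℤ) + ∑ᶠ w, (ρ w : ℤ) ∧
      ht κ V ≤ 2 * height κ x + (J.card + 1) * ht κ F +
        (finrank L V' + 1) * ∑ᶠ w, (δ w : ℤ) + ∑ᶠ w, (ρ w : ℤ) := by
  classical
  have hΔ : 0 ≤ ∑ᶠ w, (δ w : ℤ) := finsum_nonneg fun w => Int.natCast_nonneg _
  -- the projection of the line
  let P : Matrix (Option ↥J) (Fin n) κ := Matrix.of fun o m =>
    o.elim (ξ₀ m) (fun j => if m = j.1 then 1 else 0)
  set F₀ := F.map (P.map (algebraMap κ L)).mulVecLin with hF₀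
  set y : Option ↥J → L := fun o => o.elim 1 fun j => x j.1 with hy
  have hyF₀ : y ∈ F₀ := by
    refine ⟨x, hxF, ?_⟩
    funext o
    rw [Matrix.mulVecLin_apply]
    rcases o with _ | j
    · exact h0
    · show ∑ m, algebraMap κ L (if m = j.1 then 1 else 0) * x m = x j.1
      rw [Finset.sum_eq_single j.1]
      · rw [if_pos rfl, map_one, one_mul]
      · intro m _ hm
        rw [if_neg hm, map_zero, zero_mul]
      · intro hm
        exact absurd (Finset.mem_univ _) hm
  have hrF₀ : finrank L F₀ ≤ 2 := by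
    rw [hF₀, ← hF]
    exact Submodule.finrank_map_le _ _
  have hhF₀ : ht κ F₀ ≤ ht κ F := ht_map_const_le h P F
  obtain ⟨j₀, hj₀⟩ := hJ
  obtain ⟨F₁, hF₁, hrF₁, hhF₁⟩ := exists_rank_two h (i₀ := none) (j₀ := some ⟨j₀, hj₀⟩) hyF₀
    (by rw [hy]; exact one_ne_zero) (by simp) hrF₀
  obtain ⟨i₁, e, f, hC⟩ := exists_chart_at hrF₁ (hF₁ hyF₀) (k := none)
    (by rw [hy]; exact one_ne_zero)
  obtain ⟨j₁, rfl⟩ : ∃ j₁, i₁ = some j₁ := by
    rcases i₁ with _ | j₁
    · exact absurd rfl hC.ne
    · exact ⟨j₁, rfl⟩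
  have hcard : Fintype.card (Option ↥J) = J.card + 1 := by
    rw [Fintype.card_option, Fintype.card_coe]
  obtain ⟨V', hV'⟩ : ∃ V' : Submodule L (E → L), V' = Submodule.span L
      (Set.range fun p : (Fin 2 × Option ↥J) ⊕ γ => rowD D (Sum.elim
        (fun p : Fin 2 × Option ↥J => (![e, f] : Fin 2 → Option ↥J → L) p.1 p.2) β p)) := ⟨_, rfl⟩
  set β₂ : Option γ → L := fun o => o.elim (x j₁.1) β with hβ₂
  obtain ⟨V, hV⟩ : ∃ V : Submodule L (E → L), V = Submodule.span L
      (Set.range fun p : (Fin 2 × Option ↥J) ⊕ Option γ => rowD D (Sum.elim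
        (fun p : Fin 2 × Option ↥J => (![e, f] : Fin 2 → Option ↥J → L) p.1 p.2) β₂ p)) :=
    ⟨_, rfl⟩
  have hVV : V = V' ⊔ Submodule.span L {rowD D (x j₁.1)} := by
    apply le_antisymm
    · rw [hV, Submodule.span_le]
      rintro _ ⟨p, rfl⟩
      rcases p with p | _ | t
      · exact Submodule.mem_sup_left (by rw [hV']; exact Submodule.subset_span ⟨Sum.inl p, rfl⟩)
      · exact Submodule.mem_sup_right (Submodule.mem_span_singleton_self _)
      · exact Submodule.mem_sup_left (by rw [hV']; exact Submodule.subset_span ⟨Sum.inr t, rfl⟩)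
    · refine sup_le ?_ ?_
      · rw [hV', hV, Submodule.span_le]
        rintro _ ⟨p, rfl⟩
        rcases p with p | t
        · exact Submodule.subset_span ⟨Sum.inl p, rfl⟩
        · exact Submodule.subset_span ⟨Sum.inr (some t), rfl⟩
      · rw [Submodule.span_singleton_le_iff_mem, hV]
        exact Submodule.subset_span ⟨Sum.inr none, rfl⟩
  have hz0 : (![1, x j₁.1] : Fin 2 → L) ≠ 0 := by
    intro h7
    have := congrFun h7 0
    simp at this
  have hn : ∀ w : Place κ L, vmax w.1 ![1, x j₁.1] ≠ 0 := by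
    intro w
    rw [Ne, vmax_eq_zero_iff]
    exact hz0
  have h1 := ht_chart_le h hδ hρ hD hC (β := β) (b := fun _ _ => 1) (g := fun _ => 0)
    (fun _ _ => le_rfl) (fun w t => hβ t w) (by simp) (by simp) hV'
  have h1' := ht_chart_le h hδ hρ hD hC (β := β₂)
    (b := fun w o => o.elim (vmax w.1 ![1, x j₁.1]) fun _ => 1)
    (g := fun w => 2 * log (vmax w.1 ![1, x j₁.1])) (by
      rintro w (_ | t)
      · have := le_vmax w.1 ![1, x j₁.1] 0
        simpa using this
      · exact le_rfl) (by
      rintro w (_ | t)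
      · exact le_vmax w.1 ![1, x j₁.1] 1
      · exact hβ t w) (by
      refine (h.vmax_support hz0).subset fun w hw h1 => hw ?_
      simp only at h1 ⊢
      rw [h1, mul_zero]) (by
      intro w
      rw [Fintype.prod_option]
      simp only [Option.elim_none, Option.elim_some, one_pow, Finset.prod_const_one, mul_one]
      rw [show (2 : ℤ) * log (vmax w.1 ![1, x j₁.1]) = 2 • log (vmax w.1 ![1, x j₁.1]) by simp,
        exp_nsmul, exp_log (hn w)]) hV
  have h2 := finrank_chart_le hC hV'
  have h5 : finrank L V ≤ finrank L V' + 1 := by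
    rw [hVV]
    refine (Submodule.finrank_add_le_finrank_add_finrank _ _).trans ?_
    have h6 := finrank_span_le_card (R := L) ({rowD D (x j₁.1)} : Set (E → L))
    simp only [Set.toFinset_singleton, Finset.card_singleton] at h6
    omega
  have h6 : height κ ![1, x j₁.1] ≤ height κ x := by
    have hx0 : x ≠ 0 := by
      rintro rfl
      simp at h0
    unfold height
    refine finsum_mono (h.vmax_support hz0) (h.vmax_support hx0) fun w => ?_
    refine (log_le_log (hn w) ?_).mpr ?_
    · rw [Ne, vmax_eq_zero_iff]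
      exact hx0
    · refine vmax_le w.1 fun i => ?_
      fin_cases i
      · simpa using hx1 w
      · exact le_vmax w.1 x j₁.1
  have h8 : (finrank L V : ℤ) * ∑ᶠ w, (δ w : ℤ) ≤ (finrank L V' + 1) * ∑ᶠ w, (δ w : ℤ) :=
    mul_le_mul_of_nonneg_right (by exact_mod_cast h5) hΔ
  refine ⟨V', V, by rw [hVV]; exact le_sup_left, ?_, h5, ?_, ?_, ?_⟩
  · rw [hVV, Submodule.span_le]
    rintro _ ⟨p, rfl⟩
    rcases p with j | t
    · -- `x j = e j + x j₁ * f j`
      have h7 := hC.mem_apply (hF₁ hyF₀) (some j)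
      have h8 : x j.1 = e (some j) + x j₁.1 * f (some j) := by
        have h9 : y (some j) = x j.1 := rfl
        have h10 : y none = 1 := rfl
        have h11 : y (some j₁) = x j₁.1 := rfl
        rw [h9, h10, h11, one_mul] at h7
        exact h7
      simp only [Sum.elim_inl, SetLike.mem_coe]
      rw [h8, rowD_add, rowD_mul]
      refine Submodule.add_mem _ (Submodule.mem_sup_left ?_) (Submodule.add_mem _
        (Submodule.smul_mem _ _ (Submodule.mem_sup_left ?_))
        (Submodule.smul_mem _ _ (Submodule.mem_sup_right (Submodule.mem_span_singleton_self _))))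
      · rw [hV']
        exact Submodule.subset_span ⟨Sum.inl (0, some j), rfl⟩
      · rw [hV']
        exact Submodule.subset_span ⟨Sum.inl (1, some j), rfl⟩
    · refine Submodule.mem_sup_left ?_
      rw [hV']
      exact Submodule.subset_span ⟨Sum.inr t, rfl⟩
  · rw [hcard] at h2
    omega
  · rw [hcard, finsum_zero] at h1
    have h7 := mul_le_mul_of_nonneg_left (hhF₁.trans hhF₀)
      (show (0 : ℤ) ≤ (J.card : ℤ) + 1 by positivity)
    push_cast at h1
    linarith
  · rw [hcard, ← mul_finsum] at h1'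
    have h7 := mul_le_mul_of_nonneg_left (hhF₁.trans hhF₀)
      (show (0 : ℤ) ≤ (J.card : ℤ) + 1 by positivity)
    have h9 : ∑ᶠ w : Place κ L, log (vmax w.1 ![1, x j₁.1]) = height κ ![1, x j₁.1] := rfl
    rw [h9] at h1'
    push_cast at h1'
    linarith

end

end Pool.Agent.Lib.MP_44a246_ntF
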