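import Mathlib
import Pool.Agent.Lib.MP_44a246_ntF.F03

/-!
Lower bounds for the heights of the spaces of functionals supported on a line.
-/

namespace Pool.Agent.Lib.MP_44a246_ntF

open Pool.Agent.Lib.MP_44a246_nt
open Pool.Agent.Lib.MP_44a246_ntL
open Pool.Agent.Lib.MP_44a246_ntS
open Pool.Agent.Lib.MP_e52354_nt
open WithZero Module

/-- the number of factors of a Vandermonde determinant -/
theorem prod_Ioi_const {M : Type*} [CommMonoid M] (a : M) (d : ℕ) :
    ∏ i : Fin (d + 1), ∏ _j ∈ Finset.Ioi i, a = a ^ (d + 1).choose 2 := by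
  simp only [Finset.prod_const, Finset.prod_pow_eq_pow_sum, Fin.card_Ioi]
  congr 1
  rw [Fin.sum_univ_eq_sum_range (fun i => d + 1 - 1 - i) (d + 1)]
  rw [Finset.sum_range_reflect (fun i => i) (d + 1), Finset.sum_range_id, Nat.choose_two_right]

section

variable {κ L : Type*} [Field κ] [IsAlgClosed κ] [CharZero κ] [Field L] [Algebra κ L] {n d : ℕ}
  {E : Submodule L (Fin n → L)} {k l : Fin n} {e f : Fin n → L}

omit [IsAlgClosed κ] [CharZero κ] in
theorem place_const (w : Place κ L) {c : κ} (hc : c ≠ 0) : w.1 (algebraMap κ L c) = 1 :=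
  w.2.2 c hc

omit [IsAlgClosed κ] [CharZero κ] in
/-- the minors of the vectors of monomials at points of a line -/
theorem pl_xm_le (w : Place κ L) {t : Fin (d + 1) → κ} (ht : Function.Injective t)
    (e f : Fin n → L) (k : Fin n) :
    pl w.1 ![e, f] ^ (d + 1).choose 2 ≤
      pl w.1 fun i => xm d (e + algebraMap κ L (t i) • f) := by
  -- the minor of `e, f` of maximal value
  obtain ⟨p, -, hp⟩ := Finset.exists_mem_eq_sup (Finset.univ : Finset (Fin 2 → Fin n))
    ⟨fun _ => k, Finset.mem_univ _⟩ (fun p => w.1 (Matrix.of fun i j => ![e, f] i (p j)).det)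
  have h1 : pl w.1 ![e, f] = w.1 (e (p 0) * f (p 1) - e (p 1) * f (p 0)) := by
    unfold pl vmax
    rw [hp, Matrix.det_fin_two]
    rfl
  have h2 := le_vmax w.1 (fun p : Fin (d + 1) → EX n d => (Matrix.of fun i j =>
    xm d (e + algebraMap κ L (t i) • f) (p j)).det) (kl (p 0) (p 1) d)
  rw [det_kl, map_prod] at h2
  refine le_trans (le_of_eq ?_) h2
  rw [h1, ← prod_Ioi_const]
  refine Finset.prod_congr rfl fun i _ => ?_
  rw [map_prod]
  refine Finset.prod_congr rfl fun j hj => ?_
  rw [map_mul, ← map_sub (algebraMap κ L), place_const w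
    (sub_ne_zero.2 fun h3 => (Finset.mem_Ioi.1 hj).ne' (ht h3)), one_mul]

/-- **The height of the space of all functionals supported on a line.** -/
theorem Chart.le_ht_Sd (hC : Chart E k l e f) (h : IsFF κ L) (d : ℕ) :
    ((d + 1).choose 2 : ℤ) * ht κ E ≤ ht κ (Sd E d) := by
  have hinf : Infinite κ := inferInstance
  set t : Fin (d + 1) → κ := fun i => Infinite.natEmbedding κ (i : ℕ) with ht
  have hti : Function.Injective t :=
    fun i j hij => Fin.ext ((Infinite.natEmbedding κ).injective hij)
  have hti' : Function.Injective fun i => algebraMap κ L (t i) :=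
    (algebraMap κ L).injective.comp hti
  have hli := hC.linearIndependent (d := d) hti'
  obtain ⟨hef, hspan, -⟩ := hC.finrank_eq
  rw [← hC.span_eq hti', ht_span h hli, ← hspan, ht_span h hef, mul_finsum]
  refine finsum_mono ((pl_support h hef).subset fun w hw h1 => hw ?_) (pl_support h hli)
    fun w => ?_
  · simp only at h1 ⊢
    rw [h1, mul_zero]
  · have h1 := pl_xm_le w hti e f k
    have n1 : pl w.1 ![e, f] ≠ 0 := pl_ne_zero w.1 hef
    have n2 := pl_ne_zero w.1 hli
    have h2 := (log_le_log (pow_ne_zero _ n1) n2).mpr h1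
    rwa [log_pow, nsmul_eq_mul] at h2

omit [IsAlgClosed κ] in
/-- an injective contraction by a linear form -/
theorem Chart.exists_inj (hC : Chart E k l e f) {W : Submodule L (EX n (d + 1) → L)}
    (hW : W ≤ Sd E (d + 1)) (hr : finrank L W ≤ d + 1) :
    ∃ H : Fin n → κ, ∀ u ∈ W, ch (fun j => algebraMap κ L (H j)) u = 0 → u = 0 := by
  -- one of the vectors of monomials at the points `e + t f` is not in `W`
  set t : Fin (d + 1 + 1) → κ := fun i => ((i : ℕ) : κ) with ht
  have hti : Function.Injective t := fun i j hij => Fin.ext (Nat.cast_injective hij)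
  have hti' : Function.Injective fun i => algebraMap κ L (t i) :=
    (algebraMap κ L).injective.comp hti
  have hli := hC.linearIndependent (d := d + 1) hti'
  obtain ⟨i, hi⟩ : ∃ i, xm (d + 1) (e + algebraMap κ L (t i) • f) ∉ W := by
    by_contra hcon
    push Not at hcon
    have h1 : Submodule.span L (Set.range fun i => xm (d + 1) (e + algebraMap κ L (t i) • f)) ≤
        W := by
      rw [Submodule.span_le]
      rintro _ ⟨i, rfl⟩
      exact hcon i
    have h2 := Submodule.finrank_mono h1
    rw [finrank_span_eq_card hli, Fintype.card_fin] at h2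
    omega
  refine ⟨Ht k l (t i), fun u hu h0 => ?_⟩
  have h1 : (fun j => algebraMap κ L (Ht k l (t i) j)) = Ht k l (algebraMap κ L (t i)) := by
    funext j
    unfold Ht
    simp only [Pi.sub_apply, Pi.smul_apply, smul_eq_mul, map_sub, map_mul, Pi.single_apply]
    split_ifs <;> simp
  rw [h1] at h0
  have h2 := mem_of_ch_eq_zero (hC.ft_ne _) (hC.ht_ker (algebraMap κ L (t i))) (hW hu) h0
  obtain ⟨c, rfl⟩ := Submodule.mem_span_singleton.1 h2
  by_cases hc : c = 0
  · rw [hc, zero_smul]
  · exact absurd ((W.smul_mem_iff hc).1 hu) hi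

/-- **Lower bound for the height of a space of functionals supported on a line.** -/
theorem Chart.le_ht (hC : Chart E k l e f) (h : IsFF κ L) : ∀ (d : ℕ)
    (W : Submodule L (EX n d → L)), W ≤ Sd E d →
    ((finrank L W).choose 2 : ℤ) * ht κ E ≤ ht κ W := by
  intro d
  induction d with
  | zero =>
    intro W hW
    have h1 := (Submodule.finrank_mono hW).trans (hC.finrank_Sd_le 0)
    have h2 : (finrank L W).choose 2 = 0 := Nat.choose_eq_zero_of_lt (by omega)
    rw [h2, Nat.cast_zero, zero_mul]
    exact ht_nonneg h W
  | succ d ih =>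
    intro W hW
    rcases Nat.lt_or_ge (d + 1) (finrank L W) with h1 | h1
    · -- `W` is the whole space
      have h2 := hC.finrank_Sd_le (d + 1)
      have h3 : W = Sd E (d + 1) := Submodule.eq_of_le_of_finrank_le hW (by omega)
      have h4 : finrank L W = d + 1 + 1 := by
        have := Submodule.finrank_mono hW
        omega
      rw [h4, h3]
      exact hC.le_ht_Sd h (d + 1)
    · obtain ⟨H, hH⟩ := hC.exists_inj (κ := κ) hW h1
      set W' := W.map (ch fun j => algebraMap κ L (H j)) with hW'
      have h2 : W' ≤ Sd E d := by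
        rintro _ ⟨u, hu, rfl⟩
        exact ch_mem_Sd (hW hu) _
      have h3 : finrank L W' = finrank L W := by
        have h4 := rank_contr (ch fun j => algebraMap κ L (H j)) W ⊥
        have h5 : W ⊓ (⊥ : Submodule L (EX n d → L)).comap (ch fun j => algebraMap κ L (H j)) =
            ⊥ := by
          rw [eq_bot_iff]
          rintro u ⟨hu, hu'⟩
          exact (Submodule.mem_bot L).2 (hH u hu ((Submodule.mem_bot L).1 hu'))
        rw [h5, finrank_bot, finrank_bot, bot_sup_eq, ← hW'] at h4
        omega
      have h4 := ih W' h2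
      rw [h3] at h4
      refine h4.trans ?_
      have h5 := ht_map_const_le h (Mch (d := d) H) W
      rwa [Mch_eq] at h5

/-- **Lower bound for the height of a space of functionals supported on a line**, which contains
the vector of the monomials of a point. -/
theorem Chart.le_ht_xm (hC : Chart E k l e f) (h : IsFF κ L) {x : Fin n → L} (hx : x ≠ 0) :
    ∀ (d : ℕ) (W : Submodule L (EX n d → L)), W ≤ Sd E d → xm d x ∈ W → ∀ w : ℕ,
    finrank L W = w + 1 →
    ((d : ℤ) - w) * height κ x + ((w + 1).choose 2 : ℤ) * ht κ E ≤ ht κ W := by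
  intro d
  induction d with
  | zero =>
    intro W hW _ w hw
    have h1 := (Submodule.finrank_mono hW).trans (hC.finrank_Sd_le 0)
    have h2 : w = 0 := by omega
    subst h2
    have h3 : (0 + 1).choose 2 = 0 := rfl
    rw [h3, Nat.cast_zero, zero_mul, sub_self, zero_mul, add_zero]
    exact ht_nonneg h W
  | succ d ih =>
    intro W hW hxW w hw
    rcases Nat.lt_or_ge (d + 1) (finrank L W) with h1 | h1
    · have h2 := (Submodule.finrank_mono hW).trans (hC.finrank_Sd_le (d + 1))
      have h3 : w = d + 1 := by omega
      have h4 := hC.le_ht h (d + 1) W hW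
      rw [hw, h3] at h4
      rw [h3, sub_self, zero_mul, zero_add]
      exact h4
    · obtain ⟨H, hH⟩ := hC.exists_inj (κ := κ) hW h1
      set W' := W.map (ch fun j => algebraMap κ L (H j)) with hW'
      have h2 : W' ≤ Sd E d := by
        rintro _ ⟨u, hu, rfl⟩
        exact ch_mem_Sd (hW hu) _
      have h3 : finrank L W' = finrank L W := by
        have h4 := rank_contr (ch fun j => algebraMap κ L (H j)) W ⊥
        have h5 : W ⊓ (⊥ : Submodule L (EX n d → L)).comap (ch fun j => algebraMap κ L (H j)) =
            ⊥ := by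
          rw [eq_bot_iff]
          rintro u ⟨hu, hu'⟩
          exact (Submodule.mem_bot L).2 (hH u hu ((Submodule.mem_bot L).1 hu'))
        rw [h5, finrank_bot, finrank_bot, bot_sup_eq, ← hW'] at h4
        omega
      have hxm : xm (d + 1) x ≠ 0 := xm_ne_zero hx
      have hxm' : xm d x ≠ 0 := xm_ne_zero hx
      have hHx : ∑ j, algebraMap κ L (H j) * x j ≠ 0 := by
        intro h0
        apply hxm
        apply hH _ hxW
        rw [ch_xm, h0, zero_smul]
      have hxW' : xm d x ∈ W' := by
        have h4 : ch (fun j => algebraMap κ L (H j)) (xm (d + 1) x) ∈ W' := ⟨_, hxW, rfl⟩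
        rw [ch_xm] at h4
        exact (W'.smul_mem_iff hHx).1 h4
      have h4 := ih W' h2 hxW' w (h3.trans hw)
      -- the contraction lowers the height by the height of `x`
      have h5 : ht κ W' + ht κ (Submodule.span L {xm (d + 1) x}) ≤
          ht κ W + ht κ (Submodule.span L {xm d x}) := by
        have h6 := ht_map_const h (Mch (d := d) H) (A := Submodule.span L {xm (d + 1) x}) (B := W)
          (A' := Submodule.span L {xm d x})
          (by rwa [Submodule.span_singleton_le_iff_mem])
          (by
            rw [Mch_eq, Submodule.map_span, Set.image_singleton, ch_xm,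
              Submodule.span_singleton_le_iff_mem]
            exact Submodule.smul_mem _ _ (Submodule.mem_span_singleton_self _))
          (by
            intro b hb hb'
            rw [← Matrix.mulVecLin_apply, Mch_eq] at hb'
            obtain ⟨c, hc⟩ := Submodule.mem_span_singleton.1 hb'
            rw [Submodule.mem_span_singleton]
            refine ⟨c / ∑ j, algebraMap κ L (H j) * x j, ?_⟩
            have h7 := hH (b - (c / ∑ j, algebraMap κ L (H j) * x j) • xm (d + 1) x)
              (W.sub_mem hb (W.smul_mem _ hxW)) (by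
                rw [map_sub, map_smul, ch_xm, smul_smul, div_mul_cancel₀ _ hHx, hc, sub_self])
            exact (sub_eq_zero.1 h7).symm)
        rw [Mch_eq] at h6
        have h7 : Submodule.span L {xm d x} ⊔ W' = W' := by
          rw [sup_eq_right, Submodule.span_singleton_le_iff_mem]
          exact hxW'
        rwa [← hW', h7] at h6
      rw [ht_single h hxm, ht_single h hxm', height_xm h _ hx, height_xm h _ hx] at h5
      push_cast at h5 ⊢
      linarith

end

end Pool.Agent.Lib.MP_44a246_ntF
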