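import Mathlib
import Pool.Agent.Lib.MP_44a246_ntF.F04
import Pool.Agent.Lib.MP_44a246_ntK.K02

/-!
Functionals on several forms: a line of small height through a point, the part which is supported on
a line.
-/

namespace Pool.Agent.Lib.MP_44a246_ntF

open Pool.Agent.Lib.MP_44a246_nt
open Pool.Agent.Lib.MP_44a246_ntL
open Pool.Agent.Lib.MP_44a246_ntS
open Pool.Agent.Lib.MP_44a246_ntK
open Pool.Agent.Lib.MP_e52354_nt
open WithZero Module

/-- exponents of several forms -/
abbrev ES (n : ℕ) {p : ℕ} (d : Fin p → ℕ) : Type := Σ j : Fin p, EX n (d j)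

section

variable {L : Type*} [Field L] {n p : ℕ} {d : Fin p → ℕ}

/-- the restriction to a block -/
noncomputable def resB (j : Fin p) : (ES n d → L) →ₗ[L] (EX n (d j) → L) :=
  LinearMap.funLeft L L fun I => ⟨j, I⟩

theorem resB_apply (j : Fin p) (u : ES n d → L) (I : EX n (d j)) : resB j u I = u ⟨j, I⟩ := rfl

/-- the vector of the monomials in a block -/
noncomputable def xB (d : Fin p → ℕ) (j : Fin p) (x : Fin n → L) : ES n d → L :=
  fun s => if s.1 = j then xm (d s.1) x s.2 else 0

theorem resB_xB_self (j : Fin p) (x : Fin n → L) : resB j (xB d j x) = xm (d j) x := by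
  funext I
  rw [resB_apply]
  unfold xB
  rw [if_pos rfl]

theorem resB_xB_ne {i j : Fin p} (h : i ≠ j) (x : Fin n → L) : resB i (xB d j x) = 0 := by
  funext I
  rw [resB_apply]
  unfold xB
  rw [if_neg h]
  rfl

/-- contraction of a block by a monomial -/
noncomputable def cmB (j : Fin p) (φ : EX n (d j)) :
    (ES n (fun j => d j + 1) → L) →ₗ[L] (Fin n → L) :=
  LinearMap.funLeft L L fun l => ⟨j, up l φ⟩

theorem cmB_eq (j : Fin p) (φ : EX n (d j)) (u : ES n (fun j => d j + 1) → L) :
    cmB j φ u = cm φ (resB (d := fun j => d j + 1) j u) := by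
  funext l
  rfl

/-- the functionals which are supported on the linear space `E` -/
noncomputable def SdB (E : Submodule L (Fin n → L)) (d : Fin p → ℕ) : Submodule L (ES n d → L) :=
  ⨅ j, (Sd E (d j)).comap (resB j)

theorem mem_SdB {E : Submodule L (Fin n → L)} {u : ES n d → L} :
    u ∈ SdB E d ↔ ∀ j, resB j u ∈ Sd E (d j) := by
  unfold SdB
  rw [Submodule.mem_iInf]
  rfl

theorem mem_SdB_succ {E : Submodule L (Fin n → L)} {u : ES n (fun j => d j + 1) → L} :
    u ∈ SdB E (fun j => d j + 1) ↔ ∀ j (φ : EX n (d j)), cmB j φ u ∈ E := by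
  rw [mem_SdB]
  refine forall_congr' fun j => ?_
  rw [mem_Sd]
  rfl

theorem xB_mem_SdB {E : Submodule L (Fin n → L)} {x : Fin n → L} (hx : x ∈ E) (j : Fin p) :
    xB d j x ∈ SdB E d := by
  rw [mem_SdB]
  intro i
  rcases eq_or_ne i j with rfl | h
  · rw [resB_xB_self]
    exact xm_mem_Sd hx
  · rw [resB_xB_ne h]
    exact Submodule.zero_mem _

variable {κ : Type*} [Field κ] [Algebra κ L]

/-- the pieces of a space of functionals which are supported on a linear space -/
theorem piece_le_Sd {E : Submodule L (Fin n → L)} {W : Submodule L (ES n d → L)}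
    (hW : W ≤ SdB E d) (j : Fin p) : piece κ W j ≤ Sd E (d j) := by
  rintro _ ⟨u, hu, rfl⟩
  rw [Matrix.mulVecLin_apply, prj_mulVec]
  exact mem_SdB.1 (hW hu.1) j

theorem xm_mem_piece {W : Submodule L (ES n d → L)} {x : Fin n → L} {j : Fin p}
    (h : xB d j x ∈ W) : xm (d j) x ∈ piece κ W j := by
  have h1 := mem_piece (κ := κ) (j := j) h fun s hs => by
    unfold xB
    rw [if_neg hs]
  have h2 : (fun i : EX n (d j) => xB d j x ⟨j, i⟩) = xm (d j) x := resB_xB_self j x
  rwa [h2] at h1

theorem piece_mono {p : ℕ} {ι : Fin p → Type*} [∀ j, Fintype (ι j)]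
    {U V : Submodule L ((Σ j, ι j) → L)} (h : U ≤ V) (j : Fin p) : piece κ U j ≤ piece κ V j :=
  Submodule.map_mono fun _ hu => ⟨h hu.1, hu.2⟩

theorem flag_top {p : ℕ} {ι : Fin p → Type*} [∀ j, Fintype (ι j)]
    (U : Submodule L ((Σ j, ι j) → L)) : flag U p = ⊥ := by
  rw [eq_bot_iff]
  intro u hu
  rw [Submodule.mem_bot]
  funext s
  exact hu.2 s s.1.2

end

section

variable {κ L : Type*} [Field κ] [IsAlgClosed κ] [CharZero κ] [Field L] [Algebra κ L] {n p : ℕ}
  {d : Fin p → ℕ}

/-- the dimensions of the pieces -/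
theorem finrank_piece (h : IsFF κ L) {ι : Fin p → Type*} [∀ j, Fintype (ι j)]
    (U : Submodule L ((Σ j, ι j) → L)) : ∑ j : Fin p, finrank L (piece κ U j) = finrank L U := by
  obtain ⟨-, h2⟩ := ht_piece_aux h U p le_rfl
  have h3 : (Finset.univ.filter fun j : Fin p => j.val < p) = Finset.univ :=
    Finset.filter_true_of_mem fun j _ => j.2
  rw [h3, flag_top, finrank_bot, add_zero] at h2
  exact h2

/-- the matrix of a contraction by a monomial -/
noncomputable def McmB (κ : Type*) [Field κ] (j : Fin p) (φ : EX n (d j)) :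
    Matrix (Fin n) (ES n (fun j => d j + 1)) κ :=
  Matrix.of fun l s => if s = ⟨j, up l φ⟩ then 1 else 0

omit [IsAlgClosed κ] [CharZero κ] in
theorem McmB_eq (j : Fin p) (φ : EX n (d j)) :
    ((McmB κ j φ).map (algebraMap κ L)).mulVecLin = cmB j φ := by
  refine LinearMap.ext fun u => ?_
  funext l
  rw [Matrix.mulVecLin_apply]
  unfold Matrix.mulVec dotProduct
  rw [Finset.sum_eq_single (⟨j, up l φ⟩ : ES n (fun j => d j + 1))]
  · simp only [McmB, Matrix.map_apply, Matrix.of_apply, if_true, map_one, one_mul]
    rfl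
  · intro I _ hI
    simp only [McmB, Matrix.map_apply, Matrix.of_apply, if_neg hI, map_zero, zero_mul]
  · intro hI
    exact absurd (Finset.mem_univ _) hI

/-- **A line of small height through the point**, for several forms. -/
theorem exists_lineB (h : IsFF κ L) {x : Fin n → L} (hx : x ≠ 0) {ν : ℤ}
    (hν : height κ x ≤ ν) : ∀ (r : ℕ) (V : Submodule L (ES n (fun j => d j + 1) → L)),
    finrank L V = r → (∀ j, xB (fun j => d j + 1) j x ∈ V) →
    2 * ht κ V + ((r : ℤ) - p) * ν < 2 * ((∑ j, ((d j + 1 : ℕ) : ℤ)) * height κ x) →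
    ∃ E : Submodule L (Fin n → L), x ∈ E ∧ finrank L E = 2 ∧
      2 * ht κ E + ν < 2 * height κ x := by
  intro r
  induction r using Nat.strong_induction_on with
  | _ r ih =>
    intro V hr hxV hV
    have hh := h.height_nonneg hx
    by_cases hall : ∀ j (φ : EX n (d j)), V.map (cmB j φ) ≤ Submodule.span L {x}
    · -- then the pieces of `V` are spanned by the vectors of the monomials
      exfalso
      have h1 : ∀ j, piece κ V j = Submodule.span L {xm (d j + 1) x} := by
        intro j
        refine le_antisymm ?_ ?_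
        · rintro _ ⟨u, hu, rfl⟩
          rw [Matrix.mulVecLin_apply, prj_mulVec]
          exact mem_span_xm hx fun φ => hall j φ ⟨u, hu.1, rfl⟩
        · rw [Submodule.span_singleton_le_iff_mem]
          exact xm_mem_piece (hxV j)
      obtain ⟨h2, -⟩ := ht_piece h V
      have h3 := finrank_piece h V
      have h4 : ∀ j, ht κ (piece κ V j) = ((d j + 1 : ℕ) : ℤ) * height κ x := by
        intro j
        rw [h1 j, ht_single h (xm_ne_zero hx), height_xm h _ hx]
      have h5 : ∀ j, finrank L (piece κ V j) = 1 := by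
        intro j
        rw [h1 j]
        exact finrank_span_singleton (xm_ne_zero hx)
      rw [Finset.sum_congr rfl fun j _ => h4 j, ← Finset.sum_mul] at h2
      rw [Finset.sum_congr rfl fun j _ => h5 j, Finset.sum_const, Finset.card_univ,
        Fintype.card_fin, smul_eq_mul, mul_one, hr] at h3
      rw [← h3, sub_self, zero_mul] at hV
      linarith
    · push Not at hall
      obtain ⟨j, φ, hφ⟩ := hall
      set F : Submodule L (Fin n → L) := Submodule.span L {x} ⊔ V.map (cmB j φ) with hF
      set V₁ : Submodule L (ES n (fun j => d j + 1) → L) :=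
        V ⊓ (Submodule.span L {x}).comap (cmB j φ) with hV₁
      have h1 := ht_contr h (McmB κ j φ) (McmB_eq j φ) V (Submodule.span L {x})
      have h2 := rank_contr (cmB j φ) V (Submodule.span L {x})
      rw [← hF, ← hV₁, ht_single h hx] at h1
      rw [← hF, ← hV₁, finrank_span_singleton hx, hr] at h2
      have hxF : x ∈ F := Submodule.mem_sup_left (Submodule.mem_span_singleton_self x)
      have hFr : 2 ≤ finrank L F := by
        have h3 : Submodule.span L {x} < F := by
          refine lt_of_le_of_ne le_sup_left fun h4 => hφ ?_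
          rw [h4]
          exact le_sup_right
        have h4 := Submodule.finrank_lt_finrank_of_lt h3
        rw [finrank_span_singleton hx] at h4
        omega
      have hxV₁ : ∀ i, xB (fun j => d j + 1) i x ∈ V₁ := by
        intro i
        refine ⟨hxV i, ?_⟩
        rw [SetLike.mem_coe, Submodule.mem_comap, cmB_eq]
        rcases eq_or_ne j i with rfl | hji
        · rw [resB_xB_self, cm_xm]
          exact Submodule.smul_mem _ _ (Submodule.mem_span_singleton_self x)
        · rw [resB_xB_ne hji, map_zero]
          exact Submodule.zero_mem _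
      by_cases hc : finrank L F = 2 ∧ 2 * ht κ F + ν < 2 * height κ x
      · exact ⟨F, hxF, hc.1, hc.2⟩
      · -- the height of `F` is large
        have hFh : 2 * height κ x ≤ 2 * ht κ F + ((finrank L F : ℤ) - 1) * ν := by
          rcases eq_or_ne (finrank L F) 2 with h3 | h3
          · have h4 : ¬ 2 * ht κ F + ν < 2 * height κ x := fun h4 => hc ⟨h3, h4⟩
            rw [h3]
            push_cast
            linarith
          · have h4 : (3 : ℤ) ≤ finrank L F := by
              have : 3 ≤ finrank L F := by omega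
              exact_mod_cast this
            have h5 := ht_nonneg h F
            have h6 : 0 ≤ ν := by linarith
            nlinarith
        have h3 : finrank L V₁ < r := by omega
        refine ih _ h3 V₁ rfl hxV₁ ?_
        have h4 : (finrank L V₁ : ℤ) = 1 + r - finrank L F := by
          have : (finrank L F : ℤ) + finrank L V₁ = 1 + r := by exact_mod_cast h2
          linarith
        rw [h4]
        linarith [mul_comm ((r : ℤ) - p) ν]

/-- **The part supported on a linear space**, for several forms. -/
theorem ht_on_leB (h : IsFF κ L) (E : Submodule L (Fin n → L)) :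
    ∀ (r : ℕ) (V : Submodule L (ES n (fun j => d j + 1) → L)), finrank L V = r →
    ht κ (V ⊓ SdB E (fun j => d j + 1)) ≤
      ht κ V + ((r : ℤ) - finrank L (V ⊓ SdB E (fun j => d j + 1) :
        Submodule L (ES n (fun j => d j + 1) → L))) * ht κ E := by
  intro r
  induction r using Nat.strong_induction_on with
  | _ r ih =>
    intro V hr
    have hE := ht_nonneg h E
    by_cases hall : ∀ j (φ : EX n (d j)), V.map (cmB j φ) ≤ E
    · have h1 : V ⊓ SdB E (fun j => d j + 1) = V := by
        rw [inf_eq_left]
        intro u hu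
        rw [mem_SdB_succ]
        exact fun j φ => hall j φ ⟨u, hu, rfl⟩
      rw [h1, hr, sub_self, zero_mul, add_zero]
    · push Not at hall
      obtain ⟨j, φ, hφ⟩ := hall
      set V₁ : Submodule L (ES n (fun j => d j + 1) → L) := V ⊓ E.comap (cmB j φ) with hV₁
      have h1 := ht_contr h (McmB κ j φ) (McmB_eq j φ) V E
      have h2 := rank_contr (cmB j φ) V E
      have h3 : finrank L E < finrank L (E ⊔ V.map (cmB j φ) : Submodule L (Fin n → L)) := by
        refine Submodule.finrank_lt_finrank_of_lt (lt_of_le_of_ne le_sup_left fun h4 => hφ ?_)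
        rw [h4]
        exact le_sup_right
      have h4 : finrank L V₁ < r := by
        rw [← hr]
        rw [← hV₁] at h2
        omega
      have h5 : V₁ ⊓ SdB E (fun j => d j + 1) = V ⊓ SdB E (fun j => d j + 1) := by
        rw [hV₁, inf_assoc]
        congr 1
        rw [inf_eq_right]
        intro u hu
        exact mem_SdB_succ.1 hu j φ
      have h6 := ih _ h4 V₁ rfl
      rw [h5] at h6
      have h7 := ht_nonneg h (E ⊔ V.map (cmB j φ))
      rw [← hV₁] at h1
      have h8 : (finrank L V₁ : ℤ) + 1 ≤ r := by exact_mod_cast h4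
      nlinarith [mul_le_mul_of_nonneg_right h8 hE]

variable {E : Submodule L (Fin n → L)} {k l : Fin n} {e f : Fin n → L}

/-- **Lower bound for the height of a space of functionals supported on a line**, for several
forms. -/
theorem Chart.le_htB (hC : Chart E k l e f) (h : IsFF κ L) {W : Submodule L (ES n d → L)}
    (hW : W ≤ SdB E d) :
    (∑ j, ((finrank L (piece κ W j)).choose 2 : ℤ)) * ht κ E ≤ ht κ W := by
  obtain ⟨h1, -⟩ := ht_piece h W
  refine le_trans ?_ h1
  rw [Finset.sum_mul]
  exact Finset.sum_le_sum fun j _ => hC.le_ht h (d j) _ (piece_le_Sd hW j)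

/-- **Lower bound for the height of a space of functionals supported on a line**, which contains
the vectors of the monomials of a point, for several forms. -/
theorem Chart.le_ht_xmB (hC : Chart E k l e f) (h : IsFF κ L) {x : Fin n → L} (hx : x ≠ 0)
    {W : Submodule L (ES n d → L)} (hW : W ≤ SdB E d) (hxW : ∀ j, xB d j x ∈ W) {w : Fin p → ℕ}
    (hw : ∀ j, finrank L (piece κ W j) = w j + 1) :
    (∑ j, (d j : ℤ) - ∑ j, (w j : ℤ)) * height κ x +
      (∑ j, ((w j + 1).choose 2 : ℤ)) * ht κ E ≤ ht κ W := by
  obtain ⟨h1, -⟩ := ht_piece h W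
  refine le_trans ?_ h1
  rw [← Finset.sum_sub_distrib, Finset.sum_mul, Finset.sum_mul, ← Finset.sum_add_distrib]
  exact Finset.sum_le_sum fun j _ => hC.le_ht_xm h hx (d j) _ (piece_le_Sd hW j)
    (xm_mem_piece (hxW j)) (w j) (hw j)

omit [IsAlgClosed κ] [CharZero κ] in
/-- the pieces of a space which contains the vectors of the monomials -/
theorem exists_w {x : Fin n → L} (hx : x ≠ 0) {W : Submodule L (ES n d → L)}
    (hxW : ∀ j, xB d j x ∈ W) : ∃ w : Fin p → ℕ, ∀ j, finrank L (piece κ W j) = w j + 1 := by
  refine ⟨fun j => finrank L (piece κ W j) - 1, fun j => ?_⟩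
  have h1 : 1 ≤ finrank L (piece κ W j) := by
    rw [Nat.one_le_iff_ne_zero, Ne, Submodule.finrank_eq_zero]
    intro h0
    have h2 := xm_mem_piece (κ := κ) (hxW j)
    rw [h0, Submodule.mem_bot] at h2
    exact xm_ne_zero hx h2
  exact (Nat.sub_add_cancel h1).symm

end

end Pool.Agent.Lib.MP_44a246_ntF
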