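import Mathlib
import Pool.Agent.Lib.MP_44a246_ntF.F09
import Pool.Agent.Lib.MP_44a246_ntF.F13

/-!
A line of bounded height through a point of large height, for several forms.
-/

namespace Pool.Agent.Lib.MP_44a246_ntF

open Pool.Agent.Lib.MP_44a246_nt
open Pool.Agent.Lib.MP_44a246_ntL
open Pool.Agent.Lib.MP_44a246_ntS
open Pool.Agent.Lib.MP_44a246_ntX
open Pool.Agent.Lib.MP_44a246_ntK
open Pool.Agent.Lib.MP_e52354_nt
open WithZero Module

theorem sum_choose {p : ℕ} (w : Fin p → ℕ) :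
    (∑ j, ((w j + 1).choose 2 : ℤ)) = ∑ j, (w j : ℤ) + ∑ j, ((w j).choose 2 : ℤ) := by
  rw [← Finset.sum_add_distrib]
  refine Finset.sum_congr rfl fun j _ => ?_
  rw [Nat.choose_succ_succ' (w j) 1, Nat.choose_one_right]
  push_cast
  ring

theorem two_choose (b : ℕ) : 2 * ((b.choose 2 : ℕ) : ℤ) = b * (b - 1) := by
  induction b with
  | zero => simp
  | succ b ih =>
    rw [Nat.choose_succ_succ' b 1, Nat.choose_one_right]
    push_cast
    push_cast at ih
    linarith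

/-- a lower bound for a sum of binomial coefficients -/
theorem le_sum_choose {p : ℕ} (b : Fin p → ℕ) :
    (∑ j, (b j : ℤ)) * (∑ j, (b j : ℤ) - p) ≤ 2 * p * ∑ j, ((b j).choose 2 : ℤ) := by
  have h1 : (∑ j, (b j : ℤ)) ^ 2 ≤ p * ∑ j, (b j : ℤ) ^ 2 := by
    have := sq_sum_le_card_mul_sum_sq (s := (Finset.univ : Finset (Fin p)))
      (f := fun j => (b j : ℤ))
    rwa [Finset.card_univ, Fintype.card_fin] at this
  have h2 : 2 * ∑ j, ((b j).choose 2 : ℤ) = ∑ j, (b j : ℤ) ^ 2 - ∑ j, (b j : ℤ) := by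
    rw [Finset.mul_sum, ← Finset.sum_sub_distrib]
    refine Finset.sum_congr rfl fun j _ => ?_
    rw [two_choose]
    ring
  have h3 : (2 * p * ∑ j, ((b j).choose 2 : ℤ)) = p * (2 * ∑ j, ((b j).choose 2 : ℤ)) := by ring
  rw [h3, h2]
  linarith

/-- the second step -/
theorem numP2 {N c p u m W : ℕ} {h l S T : ℤ} (hN : 3 * N + 3 + c ≤ 2 * m + p)
    (hC : N + p + 2 ≤ m ∨ 2 * N + c + 2 ≤ m + p)
    (hW : W ≤ p) (huW : p + W ≤ u) (hu : u ≤ N + c) (hS : 0 ≤ S) (hT : 0 ≤ T) (hl0 : 0 ≤ l)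
    (hl : 2 * l + T < h) (hbig : 2 * (u * S) + u * T < h)
    (h1 : ((m : ℤ) - W) * h + W * l ≤ (N + 1) * h + u * S + (u - (W + p)) * l) : False := by
  have hN' : 3 * (N : ℤ) + 3 + c ≤ 2 * m + p := by exact_mod_cast hN
  have hu' : (u : ℤ) ≤ N + c := by exact_mod_cast hu
  have huW' : (p : ℤ) + W ≤ u := by exact_mod_cast huW
  have huS : 0 ≤ (u : ℤ) * S := by positivity
  have huT : 0 ≤ (u : ℤ) * T := by positivity
  have hh : 0 < h := by linarith
  have h2 : ((m : ℤ) - W - N - 1) * h ≤ u * S + (u - p - 2 * W) * l := by linarith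
  rcases le_or_gt 0 ((u : ℤ) - p - 2 * W) with hB | hB
  · have h3 : ((u : ℤ) - p - 2 * W) * (2 * l) ≤ (u - p - 2 * W) * h :=
      mul_le_mul_of_nonneg_left (by linarith) hB
    have h4 : 1 * h ≤ (2 * (m : ℤ) + p - 2 * N - 2 - u) * h :=
      mul_le_mul_of_nonneg_right (by linarith) hh.le
    nlinarith
  · have h3 : ((u : ℤ) - p - 2 * W) * l ≤ 0 := mul_nonpos_of_nonpos_of_nonneg hB.le hl0
    have h5 : 1 ≤ (m : ℤ) - W - N - 1 := by
      rcases hC with hC | hC
      · have h6 : (N : ℤ) + p + 2 ≤ m := by exact_mod_cast hC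
        have h7 : (W : ℤ) ≤ p := by exact_mod_cast hW
        linarith
      · have h6 : 2 * (N : ℤ) + c + 2 ≤ m + p := by exact_mod_cast hC
        linarith
    have h4 : 1 * h ≤ ((m : ℤ) - W - N - 1) * h := mul_le_mul_of_nonneg_right h5 hh.le
    linarith

/-- the third step -/
theorem numP3 {N c p r m W : ℕ} {h l S Z : ℤ}
    (hN : 3 * N + 3 + c ≤ 2 * m + p) (hZ : 0 ≤ Z) (hZ1 : 3 * N + 4 + c ≤ 2 * m + p ∨ 1 ≤ Z)
    (hr : r + 2 ≤ 2 * N + c) (hS : 0 ≤ S) (hl0 : 0 ≤ l)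
    (hl : 2 * l + 2 * ((2 * N + c) * S) < h)
    (h1 : ((m : ℤ) - W) * h + (W + Z) * l ≤
      2 * h + (N + 1) * l + (r + 1) * S + (r + 1 - (W + p)) * l) : m ≤ W + 2 := by
  by_contra hcon
  have hcon' : (W : ℤ) + 3 ≤ m := by
    have : W + 3 ≤ m := by omega
    exact_mod_cast this
  have hN' : 3 * (N : ℤ) + 3 + c ≤ 2 * m + p := by exact_mod_cast hN
  have hr' : (r : ℤ) + 2 ≤ 2 * N + c := by exact_mod_cast hr
  have hX : 0 ≤ (2 * (N : ℤ) + c) * S := by positivity
  have hh : 0 < h := by linarith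
  have hrS : ((r : ℤ) + 1) * S ≤ (2 * N + c) * S := mul_le_mul_of_nonneg_right (by linarith) hS
  set X := (2 * (N : ℤ) + c) * S with hXd
  set B := 3 * (N : ℤ) + c - 2 * W - p - Z with hB
  have h2 : ((m : ℤ) - W - 2) * h ≤ B * l + X := by
    have h3 : ((N : ℤ) + 1 + (r + 1 - (W + p)) - (W + Z)) * l ≤ B * l :=
      mul_le_mul_of_nonneg_right (by linarith) hl0
    linarith
  have h6 : 1 * h ≤ ((m : ℤ) - W - 2) * h := mul_le_mul_of_nonneg_right (by linarith) hh.le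
  rcases le_or_gt B 0 with h4 | h4
  · have h5 : B * l ≤ 0 := mul_nonpos_of_nonpos_of_nonneg h4 hl0
    linarith
  · have h3 : B ≤ 2 * (m - W - 2) := by
      rcases hZ1 with h5 | h5
      · have h5' : 3 * (N : ℤ) + 4 + c ≤ 2 * m + p := by exact_mod_cast h5
        linarith
      · linarith
    have h5 : B * (2 * l + 2 * X) < B * h := mul_lt_mul_of_pos_left hl h4
    have h7 : B * h ≤ 2 * (m - W - 2) * h := mul_le_mul_of_nonneg_right h3 hh.le
    have h8 : 1 * (2 * X) ≤ B * (2 * X) := mul_le_mul_of_nonneg_right (by linarith) (by linarith)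
    nlinarith

/-- the last step -/
theorem numP4 {N c p r m B : ℕ} {l S R Q : ℤ} (hN : 3 * N + 3 + c ≤ 2 * m + p)
    (hr : r + 2 ≤ 2 * N + c) (hB : m + p ≤ B + 3) (hpm : p + 3 ≤ m) (hS : 0 ≤ S) (hl0 : 0 ≤ l)
    (hQ : (B : ℤ) * (B - p) ≤ 2 * p * Q)
    (h1 : Q * l ≤ (N + 1) * l + r * S + R + (r - B) * l) :
    ((m : ℤ) ^ 2 - (p + 6) * m + 9 - p) * l ≤ 2 * p * ((2 * N + c) * S + R) := by
  have hN' : 3 * (N : ℤ) + 3 + c ≤ 2 * m + p := by exact_mod_cast hN
  have hr' : (r : ℤ) + 2 ≤ 2 * N + c := by exact_mod_cast hr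
  have hB' : (m : ℤ) + p ≤ B + 3 := by exact_mod_cast hB
  have hpm' : (p : ℤ) + 3 ≤ m := by exact_mod_cast hpm
  have hp0 : (0 : ℤ) ≤ p := by positivity
  have h2 : ((m : ℤ) + p - 3) * (m - 3) ≤ B * (B - p) := by
    have h3 : ((m : ℤ) + p - 3) * (m - 3) ≤ B * (m - 3) :=
      mul_le_mul_of_nonneg_right (by linarith) (by linarith)
    have h4 : (B : ℤ) * (m - 3) ≤ B * (B - p) :=
      mul_le_mul_of_nonneg_left (by linarith) (by positivity)
    linarith
  have h3 : (p : ℤ) * (m - 1) ≥ p * (3 * N + c - B - 1) - 0 + 0 := by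
    have h4 : (3 * (N : ℤ) + c - B - 1) ≤ m - 1 := by linarith
    have h5 := mul_le_mul_of_nonneg_left h4 hp0
    linarith
  have h4 : (p : ℤ) * (N + 1 + r - B) ≤ p * (3 * N + c - B - 1) :=
    mul_le_mul_of_nonneg_left (by linarith) hp0
  have h5 : ((m : ℤ) ^ 2 - (p + 6) * m + 9 - p) ≤ 2 * p * Q - 2 * (p * (N + 1 + r - B)) := by
    nlinarith
  have h6 := mul_le_mul_of_nonneg_right h5 hl0
  have h7 : (r : ℤ) * S ≤ (2 * N + c) * S := mul_le_mul_of_nonneg_right (by linarith) hS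
  have h8 : 2 * (p : ℤ) * (Q * l) ≤ 2 * p * ((N + 1) * l + r * S + R + (r - B) * l) :=
    mul_le_mul_of_nonneg_left h1 (by linarith)
  have h9 : 2 * (p : ℤ) * (r * S + R) ≤ 2 * p * ((2 * N + c) * S + R) :=
    mul_le_mul_of_nonneg_left (by linarith) (by linarith)
  nlinarith

section

variable {κ L : Type*} [Field κ] [IsAlgClosed κ] [CharZero κ] [Field L] [Algebra κ L] {n p : ℕ}
  {d : Fin p → ℕ}
  {D : ES n (fun j => d j + 1) → Derivation ℤ L L} {δ ρ : Place κ L → ℕ}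

/-- **A line of bounded height through a point of large height**, for several forms. -/
theorem exists_small_lineP (h : IsFF κ L) (hδ : (Function.support δ).Finite)
    (hρ : (Function.support ρ).Finite) (hD : MinorBound κ D Set.univ δ ρ) {x : Fin n → L}
    (hx1 : ∀ w : Place κ L, 1 ≤ vmax w.1 x) {ξ₀ : Fin n → κ}
    (h0 : ∑ j, algebraMap κ L (ξ₀ j) * x j = 1) {J : Finset (Fin n)} (hJ : J.Nonempty)
    {γ : Type*} [Fintype γ] {β : γ → L} (hβ : ∀ t, ∀ w : Place κ L, w.1 (β t) ≤ 1)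
    {m s : ℕ} (hms : m + s = ∑ j, (d j + 1)) (hR : ∑ᶠ w, (ρ w : ℤ) ≤ s * height κ x)
    (hN : 3 * J.card + 3 + Fintype.card γ ≤ 2 * m + p) (hpm : p + 3 ≤ m)
    (hC : J.card + p + 2 ≤ m ∨ 2 * J.card + Fintype.card γ + 2 ≤ m + p ∨
      3 * J.card + 4 + Fintype.card γ ≤ 2 * m + p)
    (hxU : ∀ j, xB (fun j => d j + 1) j x ∈ Submodule.span L (Set.range fun p : ↥J ⊕ γ =>
      rowD D (Sum.elim (fun j : ↥J => x j.1) β p))) :
    height κ x ≤ (J.card + Fintype.card γ) *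
        (2 * ∑ᶠ w, (δ w : ℤ) + 2 * ((2 * J.card + Fintype.card γ) * ∑ᶠ w, (δ w : ℤ))) ∨
      ∃ F : Submodule L (Fin n → L), x ∈ F ∧ finrank L F = 2 ∧
        m + p ≤ 2 * J.card + Fintype.card γ + 1 ∧
        ((m : ℤ) ^ 2 - (p + 6) * m + 9 - p) * ht κ F ≤
          2 * p * ((2 * J.card + Fintype.card γ) * ∑ᶠ w, (δ w : ℤ) + ∑ᶠ w, (ρ w : ℤ)) := by
  classical
  have hS : 0 ≤ ∑ᶠ w, (δ w : ℤ) := finsum_nonneg fun w => Int.natCast_nonneg _
  generalize hSe : ∑ᶠ w, (δ w : ℤ) = S at hS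
  generalize hRe : ∑ᶠ w, (ρ w : ℤ) = R at hR
  have hx0 : x ≠ 0 := by
    rintro rfl
    simp at h0
  have hms' : (∑ j, ((d j + 1 : ℕ) : ℤ)) = m + s := by
    have h1 : ((∑ j, (d j + 1) : ℕ) : ℤ) = ((m + s : ℕ) : ℤ) := by rw [hms]
    rw [← Nat.cast_sum, h1]
    push_cast
    ring
  obtain ⟨U, hU⟩ : ∃ U : Submodule L (ES n (fun j => d j + 1) → L), U = Submodule.span L
      (Set.range fun p : ↥J ⊕ γ => rowD D (Sum.elim (fun j : ↥J => x j.1) β p)) := ⟨_, rfl⟩
  have hUh := ht_rows_le h hδ hρ hD hx1 hx0 (J := J) hβ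
  rw [← hU, hSe, hRe] at hUh
  rw [← hU] at hxU
  have hUr : finrank L U ≤ J.card + Fintype.card γ := by
    rw [hU]
    refine (finrank_range_le_card _).trans ?_
    rw [Fintype.card_sum, Fintype.card_coe]
  obtain ⟨u, hu⟩ : ∃ u, u = finrank L U := ⟨_, rfl⟩
  rw [← hu] at hUh hUr
  -- the rank of the spaces which contain the vectors of the monomials
  have hpos : ∀ W : Submodule L (ES n (fun j => d j + 1) → L),
      (∀ j, xB (fun j => d j + 1) j x ∈ W) → ∃ w : Fin p → ℕ,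
        (∀ j, finrank L (piece κ W j) = w j + 1) ∧ finrank L W = ∑ j, w j + p := by
    intro W hW
    obtain ⟨w, hw⟩ := exists_w (κ := κ) hx0 hW
    refine ⟨w, hw, ?_⟩
    rw [← finrank_piece h W, Finset.sum_congr rfl fun j _ => hw j, Finset.sum_add_distrib,
      Finset.sum_const, Finset.card_univ, Fintype.card_fin, smul_eq_mul, mul_one]
  have hup : p ≤ u := by
    obtain ⟨w, -, h2⟩ := hpos U hxU
    omega
  set T : ℤ := 2 * ((2 * J.card + Fintype.card γ) * S) with hT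
  have hT0 : 0 ≤ T := by positivity
  rcases le_or_gt (height κ x) ((J.card + Fintype.card γ) * (2 * S + T)) with hle | hbig
  · exact Or.inl hle
  right
  have hbig' : 2 * (u * S) + u * T < height κ x := by
    have h1 : (u : ℤ) * (2 * S + T) ≤ (J.card + Fintype.card γ) * (2 * S + T) :=
      mul_le_mul_of_nonneg_right (by exact_mod_cast hUr) (by linarith)
    linarith
  have hh0 := h.height_nonneg hx0
  -- the line
  obtain ⟨F, hxF, hF, hFh⟩ : ∃ F : Submodule L (Fin n → L), x ∈ F ∧ finrank L F = 2 ∧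
      2 * ht κ F + T < height κ x := by
    obtain ⟨F, h4, h5, h6⟩ := exists_lineB h hx0 (ν := height κ x + T) (by linarith)
      u U hu.symm hxU (by
        have hN' : 3 * (J.card : ℤ) + 3 + Fintype.card γ ≤ 2 * m + p := by exact_mod_cast hN
        have hUr' : (u : ℤ) ≤ J.card + Fintype.card γ := by exact_mod_cast hUr
        have h8 : 1 * height κ x ≤ (2 * (m : ℤ) - 2 * (J.card + 1) - (u - p)) *
            height κ x := mul_le_mul_of_nonneg_right (by linarith) hh0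
        have h9 : 0 ≤ (p : ℤ) * T := by positivity
        rw [hms']
        nlinarith)
    exact ⟨F, h4, h5, by linarith⟩
  refine ⟨F, hxF, hF, ?_⟩
  have hl0 := ht_nonneg h F
  obtain ⟨k, l, e, f, hCh⟩ := exists_chart hF
  have hxSd : ∀ j, xB (fun j => d j + 1) j x ∈ SdB F (fun j => d j + 1) := xB_mem_SdB hxF
  -- the part of `U` which is supported on the line
  have hZ1 : 3 * J.card + 4 + Fintype.card γ ≤ 2 * m + p ∨ ∃ j : Fin p,
      3 ≤ finrank L (piece κ (U ⊓ SdB F (fun j => d j + 1)) j) := by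
    rcases or_assoc.2 hC with hC | hC
    swap
    · exact Or.inl hC
    right
    obtain ⟨w, hw, hwr⟩ := hpos (U ⊓ SdB F (fun j => d j + 1)) fun j => ⟨hxU j, hxSd j⟩
    have h1 := ht_on_leB h F u U hu.symm
    have h2 := hCh.le_ht_xmB h hx0 (W := U ⊓ SdB F (fun j => d j + 1)) inf_le_right
      (fun j => ⟨hxU j, hxSd j⟩) hw
    by_contra hcon
    push Not at hcon
    have h3 : ∀ j, w j ≤ 1 := by
      intro j
      have := hcon j
      rw [hw j] at this
      omega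
    have h4 : ∑ j, ((w j).choose 2 : ℤ) = 0 := Finset.sum_eq_zero fun j _ => by
      rw [Nat.choose_eq_zero_of_lt (by have := h3 j; omega), Nat.cast_zero]
    have h5 : ∑ j, w j ≤ p := by
      refine (Finset.sum_le_sum fun j _ => h3 j).trans ?_
      rw [Finset.sum_const, Finset.card_univ, Fintype.card_fin, smul_eq_mul, mul_one]
    have h6 : p + ∑ j, w j ≤ u := by
      have h7 : finrank L (U ⊓ SdB F (fun j => d j + 1) :
        Submodule L (ES n (fun j => d j + 1) → L)) ≤ finrank L U :=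
        Submodule.finrank_mono inf_le_left
      omega
    rw [sum_choose, h4, add_zero, hms', ← Nat.cast_sum] at h2
    rw [hwr] at h1
    push_cast at h1 h2
    refine numP2 (m := m) (W := ∑ j, w j) hN hC h5 h6 hUr hS hT0 hl0 hFh hbig' ?_
    push_cast
    linarith
  -- the spaces attached to the line
  obtain ⟨V', V, hVV, hUV, hVr, hVr', hVh', hVh⟩ :=
    exists_spaces h hδ hρ hD hx1 h0 hJ hβ hxF hF
  rw [← hU] at hUV
  rw [hSe, hRe] at hVh hVh'
  obtain ⟨r, hr⟩ : ∃ r, r = finrank L V' := ⟨_, rfl⟩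
  rw [← hr] at hVr hVr' hVh' hVh
  obtain ⟨w, hw, hwr⟩ := hpos (V ⊓ SdB F (fun j => d j + 1)) fun j => ⟨hUV (hxU j), hxSd j⟩
  have hbd : m ≤ ∑ j, w j + 2 := by
    have h1 := ht_on_leB h F (finrank L V) V rfl
    have h2 := hCh.le_ht_xmB h hx0 (W := V ⊓ SdB F (fun j => d j + 1)) inf_le_right
      (fun j => ⟨hUV (hxU j), hxSd j⟩) hw
    rw [sum_choose, hms', ← Nat.cast_sum] at h2
    rw [hwr] at h1
    push_cast at h1 h2
    have h4 : (finrank L V : ℤ) ≤ r + 1 := by exact_mod_cast hVr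
    have h5 := mul_le_mul_of_nonneg_right h4 hl0
    refine numP3 (m := m) (W := ∑ j, w j) (Z := ∑ j, ((w j).choose 2 : ℤ)) (r := r)
      (l := ht κ F) (h := height κ x) hN (Finset.sum_nonneg fun j _ => Int.natCast_nonneg _)
      (hZ1.imp_right ?_) hVr' hS hl0 hFh ?_
    · rintro ⟨j, hj⟩
      have h6 := hj.trans (Submodule.finrank_mono
        (piece_mono (κ := κ) (inf_le_inf_right (SdB F (fun j => d j + 1)) hUV) j))
      rw [hw j] at h6
      have h7 : (1 : ℤ) ≤ ((w j).choose 2 : ℤ) := by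
        have : 0 < (w j).choose 2 := Nat.choose_pos (by omega)
        exact_mod_cast this
      exact h7.trans (Finset.single_le_sum (f := fun j => ((w j).choose 2 : ℤ))
        (fun j _ => Int.natCast_nonneg _) (Finset.mem_univ j))
    · push_cast
      linarith
  have hbV : ∑ j, w j + p ≤ finrank L V := by
    rw [← hwr]
    exact Submodule.finrank_mono inf_le_left
  refine ⟨by omega, ?_⟩
  -- the smaller space
  obtain ⟨B, hB⟩ : ∃ B, B = finrank L (V' ⊓ SdB F (fun j => d j + 1) :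
    Submodule L (ES n (fun j => d j + 1) → L)) := ⟨_, rfl⟩
  have hbb : m + p ≤ B + 3 := by
    have h1 := Submodule.finrank_sup_add_finrank_inf_eq (V ⊓ SdB F (fun j => d j + 1)) V'
    have h2 : (V ⊓ SdB F (fun j => d j + 1)) ⊓ V' = V' ⊓ SdB F (fun j => d j + 1) := by
      rw [inf_comm, ← inf_assoc, inf_eq_left.2 hVV]
    have h3 : finrank L ((V ⊓ SdB F (fun j => d j + 1)) ⊔ V' :
        Submodule L (ES n (fun j => d j + 1) → L)) ≤ finrank L V :=
      Submodule.finrank_mono (sup_le inf_le_left hVV)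
    rw [h2, hwr, ← hB, ← hr] at h1
    omega
  have h1 := ht_on_leB h F r V' hr.symm
  have h2 := hCh.le_htB h (W := V' ⊓ SdB F (fun j => d j + 1)) inf_le_right
  have h3 := le_sum_choose fun j => finrank L (piece κ (V' ⊓ SdB F (fun j => d j + 1)) j)
  rw [← Nat.cast_sum, finrank_piece h] at h3
  rw [← hB] at h1 h3
  exact numP4 (m := m) (B := B) (r := r) hN hVr' hbb hpm hS hl0 h3 (by linarith)

end

end Pool.Agent.Lib.MP_44a246_ntF
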