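import Mathlib
import Pool.Agent.Lib.MP_44a246_ntF.F03
import Pool.Agent.Lib.MP_44a246_ntG.G0
import Pool.Agent.Lib.MP_44a246_ntL.LRoot

/-!
A point of large height on a line of bounded height: the line is contained in the variety.
-/

namespace Pool.Agent.Lib.MP_44a246_ntF

open Pool.Agent.Lib.MP_44a246_nt
open Pool.Agent.Lib.MP_44a246_ntL
open Pool.Agent.Lib.MP_44a246_ntS
open Pool.Agent.Lib.MP_44a246_ntG
open Pool.Agent.Lib.MP_e52354_nt
open WithZero Module Polynomial

section

variable {L : Type*} [Field L] (v : Valuation L ℤᵐ⁰)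

theorem coeff_mul_le {P Q : L[X]} {a b : ℤᵐ⁰} (hP : ∀ i, v (P.coeff i) ≤ a)
    (hQ : ∀ i, v (Q.coeff i) ≤ b) (i : ℕ) : v ((P * Q).coeff i) ≤ a * b := by
  rw [coeff_mul]
  refine Valuation.map_sum_le v fun p _ => ?_
  rw [map_mul]
  exact mul_le_mul' (hP _) (hQ _)

theorem coeff_one_le (i : ℕ) : v ((1 : L[X]).coeff i) ≤ 1 := by
  rw [coeff_one]
  split_ifs
  · rw [map_one]
  · rw [map_zero]; exact zero_le

theorem coeff_pow_le {P : L[X]} {a : ℤᵐ⁰} (hP : ∀ i, v (P.coeff i) ≤ a) (m : ℕ) (i : ℕ) :
    v ((P ^ m).coeff i) ≤ a ^ m := by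
  induction m generalizing i with
  | zero =>
    rw [pow_zero, pow_zero]
    exact coeff_one_le v i
  | succ m ih =>
    rw [pow_succ, pow_succ]
    exact coeff_mul_le v ih hP i

theorem coeff_prod_le {J : Type*} (s : Finset J) {P : J → L[X]} {a : ℤᵐ⁰}
    (hP : ∀ j i, v ((P j).coeff i) ≤ a) (m : J → ℕ) (i : ℕ) :
    v ((∏ j ∈ s, P j ^ m j).coeff i) ≤ a ^ ∑ j ∈ s, m j := by
  classical
  induction s using Finset.induction_on generalizing i with
  | empty =>
    rw [Finset.prod_empty, Finset.sum_empty, pow_zero]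
    exact coeff_one_le v i
  | insert j s hj ih =>
    rw [Finset.prod_insert hj, Finset.sum_insert hj, pow_add]
    exact coeff_mul_le v (coeff_pow_le v (hP j) (m j)) ih i

end

/-- the restriction of a form to a line, in terms of an affine coordinate -/
noncomputable def resl {L : Type*} [Field L] {n : ℕ} (e : ℕ) (a : (Fin (n + 1) →₀ ℕ) → L)
    (p q : Fin (n + 1) → L) : L[X] :=
  ∑ I ∈ expo (Fin (n + 1)) e, C (a I) * ∏ j, (C (p j) + C (q j) * X) ^ I j

theorem eval_resl {L : Type*} [Field L] {n : ℕ} (e : ℕ) (a : (Fin (n + 1) →₀ ℕ) → L)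
    (p q : Fin (n + 1) → L) (z : L) : (resl e a p q).eval z = Fval e a (p + z • q) := by
  unfold resl Fval mon
  rw [eval_finset_sum]
  refine Finset.sum_congr rfl fun I _ => ?_
  rw [eval_mul, eval_C, eval_prod]
  congr 1
  refine Finset.prod_congr rfl fun j _ => ?_
  rw [eval_pow, eval_add, eval_mul, eval_C, eval_C, eval_X, Pi.add_apply, Pi.smul_apply,
    smul_eq_mul, mul_comm z]

theorem FB_resl {L : Type*} [Field L] {n : ℕ} (e : ℕ) (a : (Fin (n + 1) →₀ ℕ) → L)
    (p q : Fin (n + 1) → L) :
    FB e a (fun j => C (C (p j) + C (q j) * X)) = C (resl e a p q) := by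
  unfold FB resl
  rw [map_sum]
  refine Finset.sum_congr rfl fun I _ => ?_
  rw [map_mul, map_prod]
  congr 1
  exact Finset.prod_congr rfl fun j _ => (map_pow _ _ _).symm

section

variable {κ L : Type*} [Field κ] [IsAlgClosed κ] [CharZero κ] [Field L] [Algebra κ L]

/-- **A point on a line of bounded height.** -/
theorem cert_of_line (h : IsFF κ L) {n : ℕ} {x : Fin (n + 1) → L} (hx0 : x ≠ 0)
    {F : Submodule L (Fin (n + 1) → L)} (hxF : x ∈ F) (hF : finrank L F = 2)
    {τ : Place κ L → ℕ} (hτ : (Function.support τ).Finite)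
    {ι : Type*} {e : ι → ℕ} {M : ℕ} (he : ∀ i, e i ≤ M) {a : ι → (Fin (n + 1) →₀ ℕ) → L}
    (ha : ∀ i, ∀ I ∈ expo (Fin (n + 1)) (e i), ∀ w : Place κ L, w.1 (a i I) ≤ exp (τ w : ℤ))
    (hz : ∀ i, Fval (e i) (a i) x = 0) :
    height κ x ≤ (M + 1) * ht κ F + ∑ᶠ w, (τ w : ℤ) ∨ CertV e a 1 x := by
  classical
  obtain ⟨k, hk⟩ := Function.ne_iff.1 hx0
  rw [Pi.zero_apply] at hk
  obtain ⟨l, p, q, hC⟩ := exists_chart_at hF hxF hk
  obtain ⟨z, hzdef⟩ : ∃ z, z = x l / x k := ⟨_, rfl⟩
  have hx : x = x k • (p + z • q) := by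
    conv_lhs => rw [hC.mem x hxF]
    rw [smul_add, smul_smul, hzdef, mul_div_cancel₀ _ hk]
  obtain ⟨hpq, hspan, -⟩ := hC.finrank_eq
  have hFh : ht κ F = ∑ᶠ w : Place κ L, log (pl w.1 ![p, q]) := by
    rw [← ht_span h hpq, hspan]
  have hfx : ∀ i, (resl (e i) (a i) p q).eval z = 0 := by
    intro i
    have h1 := hz i
    rw [hx] at h1
    have h2 : Fval (e i) (a i) (x k • (p + z • q)) = x k ^ e i * Fval (e i) (a i) (p + z • q) :=
      Fval_smul (e i) (a i) (x k) (p + z • q)
    rw [h2, mul_eq_zero] at h1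
    rw [eval_resl]
    exact h1.resolve_left (pow_ne_zero _ hk)
  -- local bounds for the coordinates of the basis
  have hpl1 : ∀ w : Place κ L, 1 ≤ pl w.1 ![p, q] := by
    intro w
    refine le_trans (le_of_eq ?_) (le_vmax w.1 (fun c : Fin 2 → Fin (n + 1) => (Matrix.of
      fun i j => (![p, q] : Fin 2 → Fin (n + 1) → L) i (c j)).det) ![k, l])
    rw [Matrix.det_fin_two]
    simp [hC.ek, hC.el, hC.fk, hC.fl]
  have hplq : ∀ (w : Place κ L) j, w.1 (q j) ≤ pl w.1 ![p, q] := by
    intro w j
    refine le_trans (le_of_eq ?_) (le_vmax w.1 (fun c : Fin 2 → Fin (n + 1) => (Matrix.of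
      fun i j => (![p, q] : Fin 2 → Fin (n + 1) → L) i (c j)).det) ![k, j])
    rw [Matrix.det_fin_two]
    simp [hC.ek, hC.el, hC.fk, hC.fl]
  have hplp : ∀ (w : Place κ L) j, w.1 (p j) ≤ pl w.1 ![p, q] := by
    intro w j
    refine le_trans (le_of_eq ?_) (le_vmax w.1 (fun c : Fin 2 → Fin (n + 1) => (Matrix.of
      fun i j => (![p, q] : Fin 2 → Fin (n + 1) → L) i (c j)).det) ![j, l])
    rw [Matrix.det_fin_two]
    simp [hC.ek, hC.el, hC.fk, hC.fl]
  have hs1 := pl_support h hpq
  have hl0 := ht_nonneg h F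
  -- the height of `x`
  have hxz : height κ x ≤ height κ ![1, z] + ht κ F := by
    have h1 : height κ x = height κ (p + z • q) := by
      conv_lhs => rw [hx]
      exact h.height_smul hk
    have hne : p + z • q ≠ 0 := by
      intro h0
      rw [h0, smul_zero] at hx
      exact hx0 hx
    have hz0 : (![1, z] : Fin 2 → L) ≠ 0 := pair_ne_zero z
    rw [h1, hFh]
    have s2 := h.vmax_support hz0
    have h2 : height κ ![1, z] + ∑ᶠ w : Place κ L, log (pl w.1 ![p, q]) =
        ∑ᶠ w : Place κ L, (log (vmax w.1 ![1, z]) + log (pl w.1 ![p, q])) :=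
      (finsum_add_distrib s2 hs1).symm
    rw [h2]
    refine finsum_mono (h.vmax_support hne) ((s2.union hs1).subset (Function.support_add _ _))
      fun w => ?_
    have n1 : vmax w.1 (p + z • q) ≠ 0 := vmax_ne_zero w.1 hne
    have n2 : vmax w.1 ![1, z] ≠ 0 := vmax_ne_zero w.1 hz0
    have n3 := pl_ne_zero w.1 hpq
    rw [← log_mul n2 n3]
    refine (log_le_log n1 (mul_ne_zero n2 n3)).mpr (vmax_le w.1 fun j => ?_)
    rw [MP_44a246_ntL.vmax_pair, Pi.add_apply, Pi.smul_apply, smul_eq_mul]
    refine (w.1.map_add _ _).trans (max_le ?_ ?_)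
    · calc w.1 (p j) = 1 * w.1 (p j) := (one_mul _).symm
        _ ≤ _ := mul_le_mul' (le_max_left _ _) (hplp w j)
    · rw [map_mul]
      exact mul_le_mul' (le_max_right _ _) (hplq w j)
  by_cases hall : ∀ i, resl (e i) (a i) p q = 0
  · -- the line is contained in the variety
    right
    refine ⟨X, fun j => C (C (p j) + C (q j) * X), Pi.single k 1, Pi.single l 1, 0, (x k)⁻¹, z, 0,
      ⟨natDegree_X_le, fun i => ?_⟩, fun j => ⟨by rw [natDegree_C]; exact zero_le, fun i => ?_⟩,
      inv_ne_zero hk, ?_, ?_, ?_, ?_, ?_, ?_, ?_, ?_, ?_, ?_⟩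
    · rw [coeff_X]
      split_ifs
      · rw [natDegree_one]; exact zero_le
      · rw [natDegree_zero]; exact zero_le
    · rw [coeff_C]
      split_ifs
      · refine (natDegree_add_le _ _).trans (max_le ?_ ?_)
        · rw [natDegree_C]; exact zero_le
        · exact (natDegree_C_mul_le _ _).trans natDegree_X_le
      · rw [natDegree_zero]; exact zero_le
    · simp [Pi.single_apply, hk]
    · simp only [Pi.single_apply, ite_mul, one_mul, zero_mul, Finset.sum_ite_eq',
        Finset.mem_univ, if_true]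
      rw [hzdef, inv_mul_eq_div]
    · simp
    · simp [evalEval]
    · simp [evalEval]
    · intro j
      have h1 : x j = x k * (p j + z * q j) := by
        have := congrFun hx j
        rwa [Pi.smul_apply, Pi.add_apply, Pi.smul_apply, smul_eq_mul, smul_eq_mul] at this
      have h2 : (x k)⁻¹ * x j = p j + z * q j := by
        conv_lhs => rw [h1]
        rw [← mul_assoc, inv_mul_cancel₀ hk, one_mul]
      rw [h2]
      simp only [derivative_X, evalEval, eval_C, eval_add, eval_mul, eval_X, eval_one, one_mul]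
      ring
    · intro i
      rw [FB_resl, hall i, C_0]
      exact dvd_zero _
    · rw [Finset.sum_eq_single k]
      · beta_reduce
        rw [Pi.single_eq_same, hC.ek, hC.fk]
        simp
      · intro j _ hj
        rw [Pi.single_eq_of_ne hj]
        simp
      · intro hj
        exact absurd (Finset.mem_univ _) hj
    · rw [Finset.sum_eq_single l]
      · beta_reduce
        rw [Pi.single_eq_same, hC.el, hC.fl]
        simp
      · intro j _ hj
        rw [Pi.single_eq_of_ne hj]
        simp
      · intro hj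
        exact absurd (Finset.mem_univ _) hj
    · rw [derivative_X, mul_one, Finset.sum_eq_zero, zero_sub]
      · exact dvd_neg.2 (dvd_refl (X : L[X][X]))
      · intro j _
        rw [Pi.zero_apply, C_0, C_0, zero_mul]
  · -- the point is one of finitely many
    left
    push Not at hall
    obtain ⟨i, hi⟩ := hall
    set g := resl (e i) (a i) p q with hg
    set c : Fin (g.natDegree + 1) → L := fun m => g.coeff m with hc
    have hc0 : c ≠ 0 := by
      intro h0
      have h1 := congrFun h0 (Fin.last g.natDegree)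
      simp only [hc, Fin.val_last, Pi.zero_apply] at h1
      exact hi (leadingCoeff_eq_zero.1 h1)
    have hroot := root_height h hc0 (z := z) (by
      rw [← hfx i, eval_eq_sum_range]
      exact Fin.sum_univ_eq_sum_range (fun m => g.coeff m * z ^ m) (g.natDegree + 1))
    have hcoef : ∀ (w : Place κ L) m, w.1 (g.coeff m) ≤ exp (τ w : ℤ) * pl w.1 ![p, q] ^ e i := by
      intro w m
      rw [hg]
      unfold resl
      rw [finset_sum_coeff]
      refine Valuation.map_sum_le w.1 fun I hI => ?_
      rw [coeff_C_mul, map_mul]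
      refine mul_le_mul' (ha i I hI w) ?_
      have h1 := coeff_prod_le w.1 Finset.univ (P := fun j => C (p j) + C (q j) * X)
        (a := pl w.1 ![p, q]) (fun j m => by
          rw [coeff_add, coeff_C, coeff_C_mul, coeff_X]
          refine (w.1.map_add _ _).trans (max_le ?_ ?_)
          · split_ifs
            · exact hplp w j
            · rw [map_zero]; exact zero_le
          · split_ifs
            · rw [mul_one]; exact hplq w j
            · rw [mul_zero, map_zero]; exact zero_le) I m
      have h2 : ∑ j, I j = e i := by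
        have := mem_expo.1 hI
        rwa [Finsupp.degree_eq_sum] at this
      rwa [h2] at h1
    have s3 : (Function.support fun w : Place κ L => (τ w : ℤ)).Finite := by
      refine hτ.subset fun w hw h1 => hw ?_
      simp only
      rw [h1, Nat.cast_zero]
    have s4 : (Function.support fun w : Place κ L => (e i : ℤ) *
        log (pl w.1 ![p, q])).Finite := by
      refine hs1.subset fun w hw h1 => hw ?_
      simp only at h1 ⊢
      rw [h1, mul_zero]
    have hch : height κ c ≤ e i * ht κ F + ∑ᶠ w, (τ w : ℤ) := by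
      have h1 : (e i : ℤ) * ht κ F + ∑ᶠ w : Place κ L, (τ w : ℤ) =
          ∑ᶠ w : Place κ L, ((e i : ℤ) * log (pl w.1 ![p, q]) + (τ w : ℤ)) := by
        rw [finsum_add_distrib s4 s3, hFh, mul_finsum]
      rw [h1]
      refine finsum_mono (h.vmax_support hc0) ((s4.union s3).subset (Function.support_add _ _))
        fun w => ?_
      have n1 : vmax w.1 c ≠ 0 := vmax_ne_zero w.1 hc0
      have n3 := pl_ne_zero w.1 hpq
      have h2 : vmax w.1 c ≤ exp (τ w : ℤ) * pl w.1 ![p, q] ^ e i :=
        vmax_le w.1 fun m => hcoef w m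
      have h3 := (log_le_log n1 (mul_ne_zero exp_ne_zero (pow_ne_zero _ n3))).mpr h2
      rw [log_mul exp_ne_zero (pow_ne_zero _ n3), log_exp, log_pow, nsmul_eq_mul] at h3
      linarith
    have h1 : (e i : ℤ) * ht κ F ≤ M * ht κ F :=
      mul_le_mul_of_nonneg_right (by exact_mod_cast he i) hl0
    linarith

end

end Pool.Agent.Lib.MP_44a246_ntF
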