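import Mathlib
import Pool.Agent.Lib.MP_44a246_ntF.F14
import Pool.Agent.Lib.MP_44a246_ntF.F15
import Pool.Agent.Lib.MP_44a246_ntK.K08

/-!
The height theorem: the points of large height lie on lines.
-/

namespace Pool.Agent.Lib.MP_44a246_ntF

open Pool.Agent.Lib.MP_44a246_nt
open Pool.Agent.Lib.MP_44a246_ntL
open Pool.Agent.Lib.MP_44a246_ntS
open Pool.Agent.Lib.MP_44a246_ntX
open Pool.Agent.Lib.MP_44a246_ntG
open Pool.Agent.Lib.MP_44a246_ntK
open Pool.Agent.Lib.MP_e52354_nt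
open WithZero Module

section

variable {κ L : Type*} [Field κ] [Field L] [Algebra κ L] {n p : ℕ} {d : Fin p → ℕ}
  (X : DatC κ (L := L) n d)

/-- the derivations dual to the coefficients -/
def fD (s : ES (n + 1) d) : Derivation ℤ L L := X.D (s.1, s.2.1)

/-- the space spanned by the rows of the coordinates -/
noncomputable def fU : Submodule L (ES (n + 1) d → L) :=
  Submodule.span L (Set.range fun j => rowD (fD X) (X.x j))

/-- the space spanned by the rows of the elements `β t` -/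
noncomputable def fB {γ : Type*} (β : γ → L) : Submodule L (ES (n + 1) d → L) :=
  Submodule.span L (Set.range fun t => rowD (fD X) (β t))

/-- the minors of the derivations -/
theorem fD_minor : MinorBound κ (fD X) Set.univ X.δ X.ρ :=
  fun w m K c _ hc => X.hD w m (fun i => ((K i).1, (K i).2.1)) c (fun i => (K i).2.2) hc

/-- the vectors of the monomials are in the space of the rows -/
theorem xB_mem_fU {V : Submodule L (ES (n + 1) d → L)} (hV : fU X ≤ V) {j : Fin p}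
    (hv : rowD (fD X) (X.v j) ∈ V) : xB d j X.x ∈ V := by
  have h1 : xB d j X.x = rowD (fD X) (X.v j) -
      ∑ l, grad (d j) (X.a j) X.x l • rowD (fD X) (X.x l) := by
    funext s
    obtain ⟨i, I⟩ := s
    rw [Pi.sub_apply, Finset.sum_apply]
    have h2 := D_Fval (d j) (X.a j) (fD X ⟨i, I⟩) X.x
    have h3 : ∑ J ∈ expo (Fin (n + 1)) (d j), fD X ⟨i, I⟩ (X.a j J) * mon X.x J =
        xB d j X.x ⟨i, I⟩ := by
      unfold xB
      rcases eq_or_ne i j with rfl | hij
      · simp only [if_true]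
        rw [Finset.sum_eq_single I.1]
        · have h4 : fD X ⟨i, I⟩ (X.a i I.1) = 1 := by
            have h5 := X.hDa (i, I.1) I.2 (i, I.1) I.2
            rw [if_pos rfl] at h5
            exact h5
          rw [h4, one_mul]
          rfl
        · intro J hJ hIJ
          have h4 : fD X ⟨i, I⟩ (X.a i J) = 0 := by
            have h5 := X.hDa (i, I.1) I.2 (i, J) hJ
            rw [if_neg (fun h => hIJ (congrArg Prod.snd h).symm)] at h5
            exact h5
          rw [h4, zero_mul]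
        · intro h
          exact absurd I.2 h
      · simp only [if_neg hij]
        refine Finset.sum_eq_zero fun J hJ => ?_
        have h4 : fD X ⟨i, I⟩ (X.a j J) = 0 := by
          have h5 := X.hDa (i, I.1) I.2 (j, J) hJ
          rw [if_neg (fun h => hij (congrArg Prod.fst h))] at h5
          exact h5
        rw [h4, zero_mul]
    rw [h3] at h2
    show xB d j X.x ⟨i, I⟩ = fD X ⟨i, I⟩ (Fval (d j) (X.a j) X.x) -
      ∑ l, grad (d j) (X.a j) X.x l * fD X ⟨i, I⟩ (X.x l)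
    rw [h2]
    ring
  rw [h1]
  refine V.sub_mem hv (V.sum_mem fun l _ => V.smul_mem _ (hV ?_))
  exact Submodule.subset_span ⟨l, rfl⟩

/-- coordinates whose rows generate the space of the rows -/
theorem exists_Jf {r : ℕ} (hr : 1 ≤ r) (hU : finrank L (fU X) ≤ r) :
    ∃ J : Finset (Fin (n + 1)), J.Nonempty ∧ J.card ≤ r ∧
      fU X ≤ Submodule.span L (Set.range fun j : ↥J => rowD (fD X) (X.x j.1)) := by
  classical
  obtain ⟨τ, σ', hσ', hsp, hli⟩ := exists_linearIndependent' L fun j => rowD (fD X) (X.x j)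
  have : Finite τ := Finite.of_injective σ' hσ'
  have : Fintype τ := Fintype.ofFinite τ
  set J := Finset.univ.image σ' with hJ
  have hJc : J.card = finrank L (fU X) := by
    rw [hJ, Finset.card_image_of_injective _ hσ', Finset.card_univ, ← finrank_span_eq_card hli]
    unfold fU
    rw [← hsp]
  have hJs : fU X ≤ Submodule.span L (Set.range fun j : ↥J => rowD (fD X) (X.x j.1)) := by
    unfold fU
    rw [← hsp]
    refine Submodule.span_mono ?_
    rintro _ ⟨t, rfl⟩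
    exact ⟨⟨σ' t, Finset.mem_image_of_mem _ (Finset.mem_univ t)⟩, rfl⟩
  rcases J.eq_empty_or_nonempty with h0 | h0
  · refine ⟨{0}, Finset.singleton_nonempty _, by rw [Finset.card_singleton]; exact hr, ?_⟩
    refine hJs.trans ?_
    rw [Submodule.span_le]
    rintro _ ⟨j, rfl⟩
    exact absurd (Finset.card_pos.2 ⟨j.1, j.2⟩) (by rw [h0, Finset.card_empty]; exact lt_irrefl 0)
  · exact ⟨J, h0, by omega, hJs⟩

end

/-- the numerical conclusion, for points of small height -/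
theorem numQ1 {r c u v q Q : ℕ} {h S : ℤ} (hq : q ≤ Q) (hu : u + v ≤ r + c)
    (hu2 : 2 * u + v ≤ 2 * r + c) (hS : 0 ≤ S)
    (h1 : h ≤ (u + v) * (2 * S + 2 * ((2 * u + v) * S))) :
    (q : ℤ) * h ≤ (Q * ((r + c) * (4 * r + 2 * c + 2)) : ℕ) * S := by
  have hq' : (q : ℤ) ≤ Q := by exact_mod_cast hq
  have hu' : (u : ℤ) + v ≤ r + c := by exact_mod_cast hu
  have hu2' : 2 * (u : ℤ) + v ≤ 2 * r + c := by exact_mod_cast hu2
  have h2 : (2 * (u : ℤ) + v) * S ≤ (2 * r + c) * S := mul_le_mul_of_nonneg_right hu2' hS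
  have h3 : (0 : ℤ) ≤ (2 * r + c) * S := by positivity
  have h4 : ((u : ℤ) + v) * (2 * S + 2 * ((2 * u + v) * S)) ≤
      (r + c) * (2 * S + 2 * ((2 * r + c) * S)) :=
    mul_le_mul hu' (by linarith only [h2]) (by (clear * - hS; positivity)) (by positivity)
  have h5 : (0 : ℤ) ≤ (r + c) * (2 * S + 2 * ((2 * r + c) * S)) := by (clear * - hS; positivity)
  have h6 : (q : ℤ) * h ≤ q * ((r + c) * (2 * S + 2 * ((2 * r + c) * S))) :=
    mul_le_mul_of_nonneg_left (h1.trans h4) (by positivity)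
  have h7 := mul_le_mul_of_nonneg_right hq' h5
  refine (h6.trans h7).trans (le_of_eq ?_)
  push_cast
  ring

/-- the numerical conclusion, for the points of the intersections with lines of small height,
the case of small degrees -/
theorem numQ2 {r c N p q Q P e : ℕ} {h l S R Θ : ℤ} (hq : q ≤ Q) (hN : N ≤ 2 * r + c)
    (hS : 0 ≤ S) (hR : 0 ≤ R) (hΘ : 0 ≤ Θ)
    (hP : 2 * p * (e + 1) ≤ P) (hl : (q : ℤ) * l ≤ 2 * p * (N * S + R))
    (h1 : h ≤ (e + 1) * l + Θ) : (q : ℤ) * h ≤ (P * (2 * r + c) : ℕ) * S + Q * Θ + P * R := by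
  have hq' : (q : ℤ) ≤ Q := by exact_mod_cast hq
  have hP' : 2 * (p : ℤ) * (e + 1) ≤ P := by exact_mod_cast hP
  have hN' : (N : ℤ) ≤ 2 * r + c := by exact_mod_cast hN
  have h0 : (N : ℤ) * S + R ≤ (2 * r + c) * S + R := by
    linarith only [hN', hS, mul_le_mul_of_nonneg_right hN' hS]
  have h2 : (0 : ℤ) ≤ (2 * r + c) * S + R := by positivity
  have h3 : ((e : ℤ) + 1) * (q * l) ≤ (e + 1) * (2 * p * ((2 * r + c) * S + R)) := by
    refine mul_le_mul_of_nonneg_left (hl.trans ?_) (by positivity)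
    exact mul_le_mul_of_nonneg_left h0 (by positivity)
  have h4 := mul_le_mul_of_nonneg_right hP' h2
  have h5 := mul_le_mul_of_nonneg_right hq' hΘ
  have h6 : (q : ℤ) * h ≤ q * ((e + 1) * l + Θ) :=
    mul_le_mul_of_nonneg_left h1 (by positivity)
  push_cast
  nlinarith only [h3, h4, h5, h6]

/-- the numerical conclusion, for the points of the intersections with lines of small height,
the case of small ramification -/
theorem numQ3 {r c N p q Q s e M : ℕ} {h l S R Θ : ℤ} (hq : q ≤ Q) (hN : N ≤ 2 * r + c)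
    (hS : 0 ≤ S) (hh : 0 ≤ h) (hΘ : 0 ≤ Θ) (he : 2 * p * s * (e + 1) < q) (heM : e ≤ M)
    (hR : R ≤ s * h) (hl : (q : ℤ) * l ≤ 2 * p * (N * S + R))
    (h1 : h ≤ (e + 1) * l + Θ) :
    (q : ℤ) * h ≤ (Q * (2 * p * (M + 1) * (2 * r + c)) : ℕ) * S + (Q * Q : ℕ) * Θ := by
  have hq' : (q : ℤ) ≤ Q := by exact_mod_cast hq
  have hN' : (N : ℤ) ≤ 2 * r + c := by exact_mod_cast hN
  have he' : 2 * (p : ℤ) * s * (e + 1) + 1 ≤ q := by exact_mod_cast he
  have heM' : (e : ℤ) ≤ M := by exact_mod_cast heM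
  have h0 : (N : ℤ) * S + R ≤ (2 * r + c) * S + s * h := by
    linarith only [hR, hN', hS, mul_le_mul_of_nonneg_right hN' hS]
  have h3 : ((e : ℤ) + 1) * (q * l) ≤ (e + 1) * (2 * p * ((2 * r + c) * S + s * h)) := by
    refine mul_le_mul_of_nonneg_left (hl.trans ?_) (by positivity)
    exact mul_le_mul_of_nonneg_left h0 (by positivity)
  have h6 : (q : ℤ) * h ≤ q * ((e + 1) * l + Θ) :=
    mul_le_mul_of_nonneg_left h1 (by positivity)
  have h7 := mul_le_mul_of_nonneg_right he' hh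
  have h8 := mul_le_mul_of_nonneg_right hq' hΘ
  have h9 : (2 * (p : ℤ) * (e + 1)) * ((2 * r + c) * S) ≤
      (2 * p * (M + 1)) * ((2 * r + c) * S) :=
    mul_le_mul_of_nonneg_right (mul_le_mul_of_nonneg_left (by linarith only [heM]) (by positivity))
      (by positivity)
  have h10 : h ≤ (2 * p * (M + 1)) * ((2 * r + c) * S) + Q * Θ := by nlinarith only [h3, h6, h7,
      h8, h9]
  have h11 : (0 : ℤ) ≤ (2 * p * (M + 1)) * ((2 * r + c) * S) + Q * Θ := by (clear * - hS hΘ; positivity)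
  have h12 : (q : ℤ) * h ≤ q * ((2 * p * (M + 1)) * ((2 * r + c) * S) + Q * Θ) :=
    mul_le_mul_of_nonneg_left h10 (by positivity)
  have h13 := mul_le_mul_of_nonneg_right hq' h11
  refine (h12.trans h13).trans (le_of_eq ?_)
  push_cast
  ring

/-- **The height theorem**: a point of large height lies on a line contained in the variety. -/
theorem height_FP {κ L : Type*} [Field κ] [IsAlgClosed κ] [CharZero κ] [Field L] [Algebra κ L]
    (h : IsFF κ L) {n p r c s m P M q : ℕ} {d : Fin p → ℕ} (hr1 : 1 ≤ r) (hd1 : ∀ j, 1 ≤ d j)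
    (hms : m + s = ∑ j, d j) (hN : 3 * r + 3 + c ≤ 2 * m + p) (hpm : p + 3 ≤ m)
    (hC : r + p + 2 ≤ m ∨ 2 * r + c + 2 ≤ m + p ∨ 3 * r + 4 + c ≤ 2 * m + p)
    (hq : (p + 6) * m + p + q = m ^ 2 + 9)
    (X : DatC κ (L := L) n d) {γ : Type*} [Fintype γ] {β : γ → L}
    (hβ : ∀ t, ∀ w : Place κ L, w.1 (β t) ≤ 1)
    (hv : ∀ j, rowD (fD X) (X.v j) ∈ fU X ⊔ fB X β)
    (hr : finrank L (fU X) ≤ r) (hc : Fintype.card γ ≤ c) (hR : X.R ≤ s * height κ X.x)
    {τ : Place κ L → ℕ} (hτ : (Function.support τ).Finite)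
    {ι : Type*} {e : ι → ℕ} {a : ι → (Fin (n + 1) →₀ ℕ) → L}
    (he : ∀ i, 2 * p * s * (e i + 1) < q ∨ 2 * p * (e i + 1) ≤ P ∨ 2 * r + c + 2 ≤ m + p)
    (heM : ∀ i, e i ≤ M)
    (ha : ∀ i, ∀ I ∈ expo (Fin (n + 1)) (e i), ∀ w : Place κ L, w.1 (a i I) ≤ exp (τ w : ℤ))
    (hz : ∀ i, Fval (e i) (a i) X.x = 0) :
    (q : ℤ) * height κ X.x ≤
        ((m ^ 2 + 9) * ((r + c) * (4 * r + 2 * c + 2)) + P * (2 * r + c) +
          (m ^ 2 + 9) * (2 * p * (M + 1) * (2 * r + c)) + (m ^ 2 + 9) * (m ^ 2 + 9) : ℕ) *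
          (X.Δ + ∑ᶠ w, (τ w : ℤ)) + P * X.R ∨
      OnLine e a X.x := by
  classical
  obtain ⟨d, rfl⟩ : ∃ d' : Fin p → ℕ, d = fun j => d' j + 1 :=
    ⟨fun j => d j - 1, funext fun j => (Nat.sub_add_cancel (hd1 j)).symm⟩
  obtain ⟨J, hJ, hJr, hJU⟩ := exists_Jf X hr1 hr
  have hx1 : ∀ w : Place κ L, 1 ≤ vmax w.1 X.x := by
    intro w
    have h1 := X.h0
    by_contra hcon
    rw [not_le] at hcon
    have h2 : w.1 (∑ j, (X.ξ₀ j : L) * X.x j) < 1 := by
      refine Valuation.map_sum_lt w.1 one_ne_zero fun j _ => ?_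
      rw [map_mul]
      calc w.1 (X.ξ₀ j : L) * w.1 (X.x j) ≤ 1 * w.1 (X.x j) :=
            mul_le_mul' (natCast_mem w.1.integer _) le_rfl
        _ = w.1 (X.x j) := one_mul _
        _ ≤ vmax w.1 X.x := le_vmax w.1 X.x j
        _ < 1 := hcon
    rw [h1, map_one] at h2
    exact lt_irrefl _ h2
  have h0 : ∑ j, algebraMap κ L (X.ξ₀ j : κ) * X.x j = 1 := by
    rw [← X.h0]
    exact Finset.sum_congr rfl fun j _ => by rw [map_natCast]
  have hx0 : X.x ≠ 0 := by
    intro h1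
    have h2 := X.h0
    rw [h1] at h2
    simp at h2
  set U : Submodule L (ES (n + 1) (fun j => d j + 1) → L) :=
    Submodule.span L (Set.range fun p : ↥J ⊕ γ =>
      rowD (fD X) (Sum.elim (fun j : ↥J => X.x j.1) β p)) with hU
  have hU1 : fU X ⊔ fB X β ≤ U := by
    refine sup_le (hJU.trans (Submodule.span_mono ?_)) (Submodule.span_mono ?_)
    · rintro _ ⟨j, rfl⟩
      exact ⟨Sum.inl j, rfl⟩
    · rintro _ ⟨t, rfl⟩
      exact ⟨Sum.inr t, rfl⟩
  have hxU : ∀ j, xB (fun j => d j + 1) j X.x ∈ U :=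
    fun j => xB_mem_fU X (le_sup_left.trans hU1) (hU1 (hv j))
  have hmain := exists_small_lineP h X.hδ X.hρ (fD_minor X) hx1 h0 hJ hβ hms hR (by omega) hpm
    (by omega) hxU
  have hS : ∑ᶠ w, (X.δ w : ℤ) = X.Δ := rfl
  have hRe : ∑ᶠ w, (X.ρ w : ℤ) = X.R := rfl
  rw [hS, hRe] at hmain
  have hΔ := X.Δ_nonneg
  have hR0 := X.R_nonneg
  have hΘ : 0 ≤ ∑ᶠ w, (τ w : ℤ) := finsum_nonneg fun w => Int.natCast_nonneg _
  have hh0 := h.height_nonneg hx0
  generalize hΘe : ∑ᶠ w, (τ w : ℤ) = Θ at hΘ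
  have hqQ : q ≤ m ^ 2 + 9 := by omega
  have hqZ : ((m : ℤ) ^ 2 - (p + 6) * m + 9 - p) = q := by
    have h1 : (((p + 6) * m + p + q : ℕ) : ℤ) = ((m ^ 2 + 9 : ℕ) : ℤ) := by rw [hq]
    push_cast at h1
    linarith only [hq]
  rw [hqZ] at hmain
  rcases hmain with h4 | ⟨F, hxF, hF, hm2, hFh⟩
  · left
    have h5 := numQ1 (r := r) (c := c) hqQ (by omega) (by omega) hΔ h4
    push_cast at h5 ⊢
    nlinarith only [h5, hr1, hΔ, hΘ, hR0, mul_nonneg (show (0 : ℤ) ≤ P * (2 * r + c) + (m ^ 2 + 9) *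
      (2 * p * (M + 1) * (2 * r + c)) + (m ^ 2 + 9) * (m ^ 2 + 9) by positivity) hΔ,
      mul_nonneg (show (0 : ℤ) ≤ (m ^ 2 + 9) * ((r + c) * (4 * r + 2 * c + 2)) +
        P * (2 * r + c) + (m ^ 2 + 9) *
      (2 * p * (M + 1) * (2 * r + c)) + (m ^ 2 + 9) * (m ^ 2 + 9) by positivity) hΘ,
      mul_nonneg (show (0 : ℤ) ≤ P by positivity) hR0]
  · rcases line_of_height h hx0 hxF hF hτ ha hz with ⟨i, h5⟩ | h5
    · left
      rw [hΘe] at h5
      rcases he i with h6 | h6 | h6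
      · have h7 := numQ3 (r := r) (c := c) (N := 2 * J.card + Fintype.card γ) hqQ (by omega) hΔ
          hh0 hΘ h6 (heM i) hR (by push_cast; exact hFh) h5
        push_cast at h7 ⊢
        nlinarith only [h7, hr1, hΔ, hΘ, hR0,
            mul_nonneg (show (0 : ℤ) ≤ (m ^ 2 + 9) * ((r + c) * (4 * r + 2 * c + 2)) +
          P * (2 * r + c) + (m ^ 2 + 9) * (m ^ 2 + 9) by positivity) hΔ,
          mul_nonneg (show (0 : ℤ) ≤ (m ^ 2 + 9) * ((r + c) * (4 * r + 2 * c + 2)) +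
            P * (2 * r + c) + (m ^ 2 + 9) *
          (2 * p * (M + 1) * (2 * r + c)) by positivity) hΘ,
          mul_nonneg (show (0 : ℤ) ≤ P by positivity) hR0]
      · have h7 := numQ2 (r := r) (c := c) (N := 2 * J.card + Fintype.card γ) hqQ (by omega) hΔ
          hR0 hΘ h6 (by push_cast; exact hFh) h5
        push_cast at h7 ⊢
        nlinarith only [h7, hr1, hΔ, hΘ,
            mul_nonneg (show (0 : ℤ) ≤ (m ^ 2 + 9) * ((r + c) * (4 * r + 2 * c + 2)) +
          (m ^ 2 + 9) * (2 * p * (M + 1) * (2 * r + c)) +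
          (m ^ 2 + 9) * (m ^ 2 + 9) by positivity) hΔ,
          mul_nonneg (show (0 : ℤ) ≤ (m ^ 2 + 9) * ((r + c) * (4 * r + 2 * c + 2)) +
            P * (2 * r + c) + (m ^ 2 + 9) *
          (2 * p * (M + 1) * (2 * r + c)) + (m ^ 2 + 9) * (m ^ 2 + 8) by positivity) hΘ]
      · exfalso
        omega
    · exact Or.inr h5

end Pool.Agent.Lib.MP_44a246_ntF
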