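import Mathlib
import Pool.Agent.Lib.MP_44a246_ntD.D13
import Pool.Agent.Lib.MP_44a246_ntF.F16
import Pool.Agent.Lib.MP_44a246_ntK.K10
import Pool.Agent.Lib.MP_44a246_ntK.K12

/-!
The height theorem over the base field: points of large height lie on lines.
-/

namespace Pool.Agent.Lib.MP_44a246_ntF

open Pool.Agent.Lib.MP_44a246_ntD
open Pool.Agent.Lib.MP_44a246_ntQ
open Pool.Agent.Lib.MP_44a246_nt
open Pool.Agent.Lib.MP_44a246_ntL
open Pool.Agent.Lib.MP_44a246_ntV
open Pool.Agent.Lib.MP_44a246_ntS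
open Pool.Agent.Lib.MP_44a246_ntX
open Pool.Agent.Lib.MP_44a246_ntG
open Pool.Agent.Lib.MP_44a246_ntU
open Pool.Agent.Lib.MP_44a246_ntZ
open Pool.Agent.Lib.MP_44a246_ntK
open Pool.Agent.Lib.MP_e52354_nt
open WithZero Module

universe u v w

section

variable {κ L : Type*} [Field κ] [Field L] [Algebra κ L] {n p : ℕ} {d : Fin p → ℕ}
  (X : DatC κ (L := L) n d) {k₀ : Type*} [Field k₀] [CharZero k₀] [Algebra k₀ L]

/-- **The rank of the rows** of a point. -/
theorem finrank_fU_le (hDk : ∀ s, s.2 ∈ expo (Fin (n + 1)) (d s.1) → ∀ u : k₀,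
      X.D s (algebraMap k₀ L u) = 0) {r : ℕ}
    {ι : Type*} {f : ι → MvPolynomial (Fin p ⊕ Fin (n + 1)) k₀} {e : ι → ℕ}
    (hf : ∀ i, (f i).IsWeightedHomogeneous (wtP (n + 1) d) (e i))
    (hdim : ringKrullDim (MvPolynomial (Fin p ⊕ Fin (n + 1)) k₀ ⧸ Ideal.span (Set.range f)) ≤
      ((r + 1 : ℕ) : ℕ)) {η : Fin p → L}
    (hz : ∀ i, MvPolynomial.aeval (Sum.elim η X.x : Fin p ⊕ Fin (n + 1) → L) (f i) = 0) :
    finrank L (fU X) ≤ r := by
  classical
  obtain ⟨q, j, c, hq, hc⟩ := exists_der_comb (k := k₀) (γ := X.x) (r := r)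
    fun q j hj => card_le_of_dimP_norm hf hdim hz X.h0 hj
  have hrow : ∀ i, rowD (fD X) (X.x i) = ∑ t, c i t • rowD (fD X) (X.x (j t)) := by
    intro i
    funext K
    rw [Finset.sum_apply]
    exact hc (fD X K) (fun u => hDk (K.1, K.2.1) K.2.2 u) i
  have hle : fU X ≤ Submodule.span L (Set.range fun t => rowD (fD X) (X.x (j t))) := by
    unfold fU
    rw [Submodule.span_le]
    rintro _ ⟨i, rfl⟩
    simp only [SetLike.mem_coe]
    rw [hrow i]
    exact Submodule.sum_mem _ fun t _ => Submodule.smul_mem _ _ (Submodule.subset_span ⟨t, rfl⟩)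
  refine (Submodule.finrank_mono hle).trans ((finrank_range_le_card _).trans ?_)
  rw [Fintype.card_fin]
  exact hq

/-- **The rows of the values of the forms** are in the space of the rows of the coordinates. -/
theorem rowD_mem_fU (hDk : ∀ s, s.2 ∈ expo (Fin (n + 1)) (d s.1) → ∀ u : k₀,
      X.D s (algebraMap k₀ L u) = 0)
    {ι : Type*} {f : ι → MvPolynomial (Fin p ⊕ Fin (n + 1)) k₀} {e : ι → ℕ}
    (hf : ∀ i, (f i).IsWeightedHomogeneous (wtP (n + 1) d) (e i)) {η : Fin p → L}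
    (hz : ∀ i, MvPolynomial.aeval (Sum.elim η X.x : Fin p ⊕ Fin (n + 1) → L) (f i) = 0)
    (hne : NDegP f X.x) (j : Fin p) : rowD (fD X) (η j) ∈ fU X := by
  obtain ⟨c, hc, -⟩ := hne.rel hf hz j
  have h1 : rowD (fD X) (η j) = ∑ l, c l • rowD (fD X) (X.x l) := by
    funext K
    rw [Finset.sum_apply]
    exact hc (fD X K) (fun u => hDk (K.1, K.2.1) K.2.2 u)
  rw [h1]
  exact Submodule.sum_mem _ fun l _ => Submodule.smul_mem _ _ (Submodule.subset_span ⟨l, rfl⟩)

/-- the row of the value of a form with few coefficients -/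
theorem rowD_Fval_mem {V : Submodule L (ES (n + 1) d → L)}
    {N : ℕ} {b : (Fin (n + 1) →₀ ℕ) → L} (hx : ∀ l, rowD (fD X) (X.x l) ∈ V)
    (hb : ∀ I ∈ expo (Fin (n + 1)) N, rowD (fD X) (b I) ∈ V) :
    rowD (fD X) (Fval N b X.x) ∈ V := by
  classical
  change Fval N b X.x ∈ growRing (fD X) V
  unfold Fval mon
  refine Subring.sum_mem _ fun I hI => ?_
  refine Subring.mul_mem _ ?_ (Subring.prod_mem _ fun j _ => Subring.pow_mem _ ?_ _)
  · exact hb I hI
  · exact hx j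

end

/-- **The height theorem over the base field**: points of large height lie on lines. -/
theorem heightF_base {κ : Type u} {K : Type v} [Field κ] [IsAlgClosed κ] [CharZero κ] [Field K]
    [CharZero K] [Algebra κ K] (hK : IsFF κ K) (htr : Cardinal.aleph0 ≤ Algebra.trdeg ℚ κ)
    {k : Type*} [Field k] [CharZero k] [Algebra k K]
    (hk : Algebra.trdeg ℚ k < Cardinal.aleph0) {n p r c s m P q : ℕ} {d : Fin p → ℕ}
    (hr1 : 1 ≤ r) (hd1 : ∀ j, 1 ≤ d j) (hms : m + s = ∑ j, d j)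
    (hN : 3 * r + 3 + c ≤ 2 * m + p) (hpm : p + 3 ≤ m)
    (hC : r + p + 2 ≤ m ∨ 2 * r + c + 2 ≤ m + p ∨ 3 * r + 4 + c ≤ 2 * m + p)
    (hq : (p + 6) * m + p + q = m ^ 2 + 9)
    {ι : Type*} [Finite ι] {e : ι → ℕ}
    (he : ∀ i, 2 * p * s * (e i + 1) < q ∨ 2 * p * (e i + 1) ≤ P ∨ 2 * r + c + 2 ≤ m + p)
    {f : ι → MvPolynomial (Fin p ⊕ Fin (n + 1)) k}
    (hf : ∀ i, (f i).IsWeightedHomogeneous (wtP (n + 1) d) (e i))
    (hdim : ringKrullDim (MvPolynomial (Fin p ⊕ Fin (n + 1)) k ⧸ Ideal.span (Set.range f)) ≤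
      ((r + 1 : ℕ) : ℕ))
    {a : Fin p → (Fin (n + 1) →₀ ℕ) → K} {G : Finset (Fin p × (Fin (n + 1) →₀ ℕ))}
    (hcc : G.card ≤ c)
    (ha : AlgebraicIndependent k (fun s : {s // s ∈ jexpo n d ∧ s ∉ G} => a s.1.1 s.1.2)) :
    ∃ C : ℕ, ∀ (L : Type w) [Field L] [Algebra K L] [FiniteDimensional K L] [Algebra κ L]
      [IsScalarTower κ K L] [Algebra k L] [IsScalarTower k K L] (x : Fin (n + 1) → L), x ≠ 0 →
      (∀ i, Fval (e i) (aWP d (fun j I => algebraMap K L (a j I)) f i) x = 0) → NDegP f x →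
      s * height κ x ≤ ramDeg κ L K ∨
        (q : ℤ) * height κ x ≤ C * finrank K L + P * ramDeg κ L K ∨
        OnLine e (aWP d (fun j I => algebraMap K L (a j I)) f) x := by
  classical
  have := Fintype.ofFinite ι
  obtain ⟨M, hM⟩ : ∃ M, ∀ i, e i ≤ M :=
    ⟨∑ i, e i, fun i => Finset.single_le_sum (f := e) (fun _ _ => Nat.zero_le _)
      (Finset.mem_univ i)⟩
  obtain ⟨b, hb0, hb⟩ := exists_modif (κ := κ) htr hk (jexpo n d) G
    (a := fun s => a s.1 s.2) ha
  obtain ⟨X, hXa, hXk⟩ := exists_baseS hK htr hk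
    (a := fun s : Fin p × (Fin (n + 1) →₀ ℕ) => a s.1 s.2 + algebraMap κ K (b s)) hb
  -- the poles of the coefficients
  let θ : Type _ := (Σ i : ι, ↥(expo (Fin (n + 1)) (e i)))
  obtain ⟨A, hAs, hA⟩ := Pool.Agent.Lib.MP_44a246_ntV.exists_polesA hK
    (fun t : θ => aWP d a f t.1 t.2.1)
  obtain ⟨C₀, hC₀⟩ : ∃ C₀ : ℕ, C₀ = (m ^ 2 + 9) * ((r + c) * (4 * r + 2 * c + 2)) +
    P * (2 * r + c) + (m ^ 2 + 9) * (2 * p * (M + 1) * (2 * r + c)) +
      (m ^ 2 + 9) * (m ^ 2 + 9) := ⟨_, rfl⟩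
  refine ⟨C₀ * ((∑ᶠ v, X.B v) + ∑ᶠ v, A v), ?_⟩
  intro L _ _ _ _ _ _ _ x hx hfx hne
  have hL : IsFF κ L := hK.of_finite
  have hchar : CharZero L := charZero_of_injective_algebraMap (algebraMap K L).injective
  obtain ⟨Y, c', hc, hYa, hYx, hYδ, hYρ, hYD⟩ := exists_datC X hK hx
  obtain ⟨hA1, hA2⟩ := mason_sum_over hL hAs
  obtain ⟨hB1, hB2⟩ := mason_sum_over hL X.hB
  have hτ : (Function.support fun w : Place κ L => ramIdx K w.1 * A (below K w)).Finite := by
    refine hA1.subset fun w hw h0 => hw ?_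
    exact Int.natCast_eq_zero.1 h0
  have hfx' : ∀ i, Fval (e i) (aWP d (fun j I => algebraMap K L (a j I)) f i) Y.x = 0 := by
    intro i
    rw [hYx, Fval_smul, hfx i, mul_zero]
  set η : Fin p → L := fun j => Fval (d j) (fun I => algebraMap K L (a j I)) Y.x with hη
  have hzero : ∀ i, MvPolynomial.aeval (Sum.elim η Y.x : Fin p ⊕ Fin (n + 1) → L) (f i) = 0 := by
    intro i
    rw [← hfx' i, Fval_aWP' hf]
  have hDk : ∀ s, s.2 ∈ expo (Fin (n + 1)) (d s.1) → ∀ u : k, Y.D s (algebraMap k L u) = 0 := by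
    intro s hs u
    rw [IsScalarTower.algebraMap_apply k K L, hYD, hXk s (mem_jexpo.2 hs) u, map_zero]
  have hneY : NDegP f Y.x := by
    rw [hYx]
    exact hne.smul hf hc
  have hv : ∀ j, Y.v j = η j + Fval (d j) (fun I => algebraMap κ L (b (j, I))) Y.x := by
    intro j
    show Fval (d j) (Y.a j) Y.x = _
    rw [hη, hYa, hXa]
    unfold Fval
    rw [← Finset.sum_add_distrib]
    refine Finset.sum_congr rfl fun I _ => ?_
    show algebraMap K L (a j I + algebraMap κ K (b (j, I))) * mon Y.x I =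
      algebraMap K L (a j I) * mon Y.x I + algebraMap κ L (b (j, I)) * mon Y.x I
    rw [map_add, add_mul, ← IsScalarTower.algebraMap_apply κ K L]
  have hrow : ∀ j, rowD (fD Y) (Y.v j) ∈ fU Y ⊔ fB Y (fun s : ↥G => algebraMap κ L (b s.1)) := by
    intro j
    rw [hv j, rowD_add]
    refine Submodule.add_mem _ ?_ ?_
    · exact Submodule.mem_sup_left (rowD_mem_fU Y hDk hf hzero hneY j)
    · refine rowD_Fval_mem Y (fun l => Submodule.mem_sup_left
        (Submodule.subset_span ⟨l, rfl⟩)) fun I _ => ?_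
      by_cases hI : (j, I) ∈ G
      · exact Submodule.mem_sup_right (Submodule.subset_span ⟨⟨(j, I), hI⟩, rfl⟩)
      · rw [hb0 _ hI, map_zero, rowD_zero]
        exact Submodule.zero_mem _
  have h3 : Y.R = ramDeg κ L K := by
    unfold DatC.R
    rw [hYρ]
    exact (mason_sum_ram (K := K) hL).2
  have h1 : height κ Y.x = height κ x := by
    rw [hYx]
    exact hL.height_smul hc
  rcases le_or_gt (s * height κ x) (ramDeg κ L K : ℤ) with hR | hR
  · exact Or.inl hR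
  right
  have hmain := height_FP hL (P := P) (M := M) hr1 hd1 hms hN hpm hC hq Y
    (β := fun s : ↥G => algebraMap κ L (b s.1)) (fun s w => place_const_le w _) hrow
    (finrank_fU_le Y hDk hf hdim hzero) (by rwa [Fintype.card_coe])
    (by rw [h3, h1]; exact hR.le) hτ (e := e)
    (a := aWP d (fun j I => algebraMap K L (a j I)) f) he hM (by
      intro i I hI w
      have h1 : aWP d (fun j I => algebraMap K L (a j I)) f i I = algebraMap K L (aWP d a f i I) :=
        (map_aWP d a (algebraMap K L) (fun u =>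
          (IsScalarTower.algebraMap_apply k K L u).symm) f i I).symm
      rw [h1]
      exact coef_le A (fun v => hA ⟨i, ⟨I, hI⟩⟩ v) w) hfx'
  rw [← hC₀] at hmain
  have h2 : Y.Δ = ((∑ᶠ v, X.B v : ℕ) : ℤ) * Module.finrank K L := by
    unfold DatC.Δ
    rw [hYδ, ← hB2]
  rcases hmain with h | h
  · left
    rw [h1, h2, h3, hA2] at h
    refine h.trans (le_of_eq ?_)
    push_cast
    ring
  · right
    rw [hYx] at h
    obtain ⟨p', q', hpq, ⟨u', v', huv⟩, hz'⟩ := h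
    refine ⟨p', q', hpq, ⟨c'⁻¹ * u', c'⁻¹ * v', ?_⟩, hz'⟩
    have h4 : x = c'⁻¹ • (fun j => c' * x j) := by
      funext j
      rw [Pi.smul_apply, smul_eq_mul, ← mul_assoc, inv_mul_cancel₀ hc, one_mul]
    rw [h4, huv, smul_add, smul_smul, smul_smul]

end Pool.Agent.Lib.MP_44a246_ntF
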