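import Mathlib
import Pool.Agent.Lib.MP_44a246_ntF.F18
import Pool.Agent.Lib.MP_44a246_ntK.K27

/-!
Algebraic points of generic members of linear systems over function fields: points of large height
lie on lines, or on curves of small degree. Both height theorems together.
-/

namespace Pool.Agent.Lib.MP_44a246_ntF

open Pool.Agent.Lib.MP_44a246_ntD
open Pool.Agent.Lib.MP_44a246_ntQ
open Pool.Agent.Lib.MP_44a246_nt
open Pool.Agent.Lib.MP_e52354_ntK
open Pool.Agent.Lib.MP_44a246_ntL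
open Pool.Agent.Lib.MP_44a246_ntS
open Pool.Agent.Lib.MP_44a246_ntX
open Pool.Agent.Lib.MP_44a246_ntG
open Pool.Agent.Lib.MP_44a246_ntU
open Pool.Agent.Lib.MP_44a246_ntK
open Pool.Agent.Lib.MP_e52354_nt
open MvPolynomial Module

universe u v w

/-- **The theorem on algebraic points of generic complete intersections.** -/
theorem slope_mainU {κ : Type u} {K : Type v} [Field κ] [IsAlgClosed κ] [CharZero κ] [Field K]
    [CharZero K] [Algebra κ K] (htr : Cardinal.aleph0 ≤ Algebra.trdeg ℚ κ)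
    {t : K} (ht : Transcendental κ t) [FiniteDimensional (IntermediateField.adjoin κ {t}) K]
    {k : Type*} [Field k] [CharZero k] [Algebra k K] (hk : Algebra.trdeg ℚ k < Cardinal.aleph0)
    {n p r c s b P Q m' : ℕ} {d : Fin p → ℕ} {ι : Type*} [Finite ι] {e : ι → ℕ}
    {f : ι → MvPolynomial (Fin p ⊕ Fin (n + 1)) k}
    (hf : ∀ i, (f i).IsWeightedHomogeneous (Sum.elim d fun _ => 1) (e i))
    (hdim : ringKrullDim (MvPolynomial (Fin p ⊕ Fin (n + 1)) k ⧸ Ideal.span (Set.range f)) ≤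
      ((r + 1 : ℕ) : WithBot ℕ∞))
    (hcond : (∃ m, b = 1 ∧ 1 ≤ r ∧ (∀ j, 1 ≤ d j) ∧ m + s = ∑ j, d j ∧
        3 * r + 3 + c ≤ 2 * m + p ∧ p + 3 ≤ m ∧
        (r + p + 2 ≤ m ∨ 2 * r + c + 2 ≤ m + p ∨ 3 * r + 4 + c ≤ 2 * m + p) ∧
        (p + 6) * m + p + Q = m ^ 2 + 9 ∧
        ∀ i, 2 * p * s * (e i + 1) < Q ∨ 2 * p * (e i + 1) ≤ P ∨ 2 * r + c + 2 ≤ m + p) ∨
      ∃ (T M d₀ : ℕ) (m : Fin p → ℕ), b = 2 * T ∧ P = 18 * T * M ∧ Q = d₀ ^ 2 ∧ 1 ≤ T ∧
        (∀ j, 1 ≤ m j) ∧ (∀ j, 2000 * T ^ 2 ≤ d j) ∧ (∀ j, r + c ≤ m j * d j) ∧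
        (∀ j, 8500 * (T * m j) + 2 ≤ d j) ∧ (∀ j, 2500 * (T * m j * (s + 3)) ≤ d j) ∧
        2 * (r + c) + 6800 * (T ^ 2 * ∑ j, m j) + T * (r + c + 2 + s) ≤ T * ∑ j, d j ∧
        (∀ j, d₀ ≤ d j) ∧ 1 ≤ d₀ ∧
        ∀ i, 2000 * ((s + 3) * (T * e i)) ≤ d₀ ^ 2 ∨ e i ≤ M)
    (hm' : 2 * r + 2 * b + c ≤ (∑ j, d j) + m' + p)
    (H : Fin p → MvPolynomial (Fin (n + 1)) K) (hH : ∀ j, (H j).IsHomogeneous (d j))
    (hgen : (Nat.card {I : Fin p × (Fin (n + 1) →₀ ℕ) // I.2.degree = d I.1} : Cardinal) ≤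
      Algebra.trdeg k (IntermediateField.adjoin k
        (Set.range fun I : {I : Fin p × (Fin (n + 1) →₀ ℕ) // I.2.degree = d I.1} =>
          (H I.1.1).coeff I.1.2)) + c) :
    ∃ (l : ℕ) (G : Fin l → MvPolynomial (Fin (n + 1)) K), (∀ i, ∃ E, (G i).IsHomogeneous E) ∧
      ringKrullDim (MvPolynomial (Fin (n + 1)) K ⧸ Ideal.span (Set.range G)) ≤
        (m' : WithBot ℕ∞) ∧
      ∃ C : ℕ, ∀ (L : Type w) [Field L] [Algebra K L] [FiniteDimensional K L] [Algebra κ L]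
        [IsScalarTower κ K L] [Algebra k L] [IsScalarTower k K L] (x : Fin (n + 1) → L), x ≠ 0 →
        (∀ i, aeval (Sum.elim (fun j => aeval x (H j)) x : Fin p ⊕ Fin (n + 1) → L) (f i) = 0) →
        NDegP f x →
        ((s * height κ x ≤ ramDeg κ L K ∨ (Q : ℤ) * height κ x ≤
            C * finrank K L + P * ramDeg κ L K) ∧
          (pointField K x = ⊤ → 2 * finrank K L ≤ s + 1 → 2 * P * (finrank K L - 1) < Q →
            height κ x ≤ C * finrank K L)) ∨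
          (∀ i, aeval x (G i) = 0) ∧
            CertV e (aWP d (fun j I => algebraMap K L ((H j).coeff I)) f) b x ∧
            (b = 1 → ∃ y z : Fin (n + 1) → L, LinearIndependent L ![y, z] ∧
              (∃ u v : L, x = u • y + v • z) ∧ ∀ (i : ι) (u v : L),
                aeval (Sum.elim (fun j => aeval (u • y + v • z) (H j)) (u • y + v • z) :
                  Fin p ⊕ Fin (n + 1) → L) (f i) = 0) := by
  have hf' : ∀ i, (f i).IsWeightedHomogeneous (wtP (n + 1) d) (e i) := hf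
  rcases hcond with ⟨m, rfl, hr1, hd1, hms, hN, hpm, hC, hq, he⟩ |
    ⟨T, M, d₀, m, rfl, rfl, rfl, hT, hm, hT2, hr', hU, hs, hN, hd₀, hd₀1, he⟩
  · obtain ⟨l, G, hG1, hG2, C, hCC⟩ := slope_mainF.{u, v, w} htr ht hk hf hdim hr1 hd1 hms hN hpm
      hC hq he (by omega) H hH hgen
    refine ⟨l, G, hG1, hG2, C, ?_⟩
    intro L _ _ _ _ _ _ _ x hx hfx hne
    rcases hCC L x hx hfx hne with h | ⟨h1, h2⟩
    · exact Or.inl h
    · right
      refine ⟨h1, ?_, fun _ => h2⟩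
      have hK : IsFF κ K := ⟨t, ht, inferInstance⟩
      have hinf : Infinite κ := inferInstance
      have hinf' : Infinite L := Infinite.of_injective (algebraMap κ L) (algebraMap κ L).injective
      obtain ⟨y, z, hyz, huv, hz⟩ := h2
      refine onLine_certV hx ⟨y, z, hyz, huv, fun i u v => ?_⟩
      rw [Fval_aWP' hf', ← hz i u v]
      rw [show (fun j => aeval (u • y + v • z) (H j)) =
        fun j => Fval (d j) (fun I => algebraMap K L ((H j).coeff I)) (u • y + v • z) from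
        funext fun j => Pool.Agent.Lib.MP_44a246_ntU.aeval_eq_Fval (hH j) _]
  · obtain ⟨l, G, hG1, hG2, C, hCC⟩ := slope_mainEK.{u, v, w} (m' := m') htr ht hk hf hdim hT hm
      hT2 hr' hU hs hN hd₀ hd₀1 he (by omega) H hH hgen
    refine ⟨l, G, hG1, hG2, C, ?_⟩
    intro L _ _ _ _ _ _ _ x hx hfx hne
    rcases hCC L x hx hfx hne with ⟨h1, h2⟩ | ⟨h1, h2⟩
    · left
      refine ⟨?_, fun h3 h4 h5 => h2 h3 h4 ?_⟩
      · push_cast
        exact h1
      · refine lt_of_le_of_lt (le_of_eq ?_) h5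
        ring
    · right
      exact ⟨h1, h2, fun h3 => absurd h3 (by omega)⟩

end Pool.Agent.Lib.MP_44a246_ntF
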